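import Pool.Agent.Lib.Pa76659.Count

/-!
The depth hierarchy theorem for OR-NOT circuits on top of decision trees.
-/

set_option maxHeartbeats 4000000

namespace Pool.Agent.Lib.Pa76659.Hier

open Pool.Agent.Lib.Pa76659 Pool.Agent.Lib.Pa76659.Switch

/-- OR-NOT tree of height `j` with fan-ins `m (j-1), ..., m 0` -/
def tr (m : ℕ → ℕ) : ℕ → (List ℕ → Bool) → List ℕ → Bool
  | 0, x, u => x u
  | j + 1, x, u => decide (∃ y < m j, tr m j x (y :: u) = false)

/-- bottom gates -/
def bot (m0 : ℕ) (x : List ℕ → Bool) (b : List ℕ) : Bool := decide (∃ y < m0, x (y :: b) = false)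

theorem tr_bot (m : ℕ → ℕ) (x : List ℕ → Bool) : ∀ (j : ℕ) (u : List ℕ),
    tr m (j + 1) x u = tr (fun i => m (i + 1)) j (bot (m 0) x) u
  | 0, u => rfl
  | j + 1, u => by
      have h : ∀ u, tr m (j + 1) x u = tr (fun i => m (i + 1)) j (bot (m 0) x) u :=
        tr_bot m x j
      rw [tr, tr]
      simp only [h]

theorem tr_congr (m : ℕ → ℕ) (W : ℕ) (x x' : List ℕ → Bool) : ∀ (j : ℕ) (u : List ℕ),
    (∀ i < j, m i ≤ W) → (∀ a ∈ u, a < W) →
    (∀ v : List ℕ, v.length = j + u.length → (∀ a ∈ v, a < W) → x v = x' v) →
    tr m j x u = tr m j x' u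
  | 0, u, _, h2, h3 => h3 u (by simp) h2
  | j + 1, u, h1, h2, h3 => by
      have h : ∀ y, y < m j → tr m j x (y :: u) = tr m j x' (y :: u) := by
        intro y hy
        apply tr_congr m W x x' j
        · intro i hi; exact h1 i (by omega)
        · intro a ha
          rcases List.mem_cons.1 ha with ha | ha
          · rw [ha]; exact lt_of_lt_of_le hy (h1 j (by omega))
          · exact h2 a ha
        · intro v hv
          apply h3
          rw [hv, List.length_cons]; omega
      rw [tr, tr]
      apply decide_eq_decide.2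
      constructor
      · rintro ⟨y, hy, hy2⟩; exact ⟨y, hy, by rw [← h y hy]; exact hy2⟩
      · rintro ⟨y, hy, hy2⟩; exact ⟨y, hy, by rw [h y hy]; exact hy2⟩

/-- queries made by the tree on `x` -/
def queries {V α : Type*} (x : V → Bool) : DT V α → List V
  | DT.leaf _ => []
  | DT.node v f t => v :: (if x v = true then queries x t else queries x f)

theorem queries_length {V α : Type*} (x : V → Bool) : ∀ T : DT V α,
    (queries x T).length ≤ T.depth
  | DT.leaf _ => by simp [queries]
  | DT.node v f t => by
      have h1 := queries_length x f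
      have h2 := queries_length x t
      simp only [queries, DT.depth, List.length_cons]
      split_ifs <;> omega

theorem queries_eval {V α : Type*} (x y : V → Bool) : ∀ T : DT V α,
    (∀ v ∈ queries x T, y v = x v) → T.eval y = T.eval x
  | DT.leaf _, _ => rfl
  | DT.node v f t, h => by
      have h1 : y v = x v := h v (by simp [queries])
      simp only [DT.eval, h1]
      split_ifs with hx
      · apply queries_eval x y t
        intro u hu
        apply h
        simp only [queries, hx, if_true, List.mem_cons]
        exact Or.inr hu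
      · apply queries_eval x y f
        intro u hu
        apply h
        simp only [queries, List.mem_cons]
        rw [if_neg hx]
        exact Or.inr hu

theorem LB0 (w t : ℕ) (m : ℕ → ℕ) (hm : t + 1 ≤ m 0) :
    ¬ IsC Set.univ w t 0 (fun x => tr m 1 x []) := by
  rintro ⟨T, h1, _, h3⟩
  let x : List ℕ → Bool := fun _ => true
  have h4 : (queries x T).length ≤ t := (queries_length x T).trans h1
  have h5 : ∃ y < m 0, [y] ∉ queries x T := by
    by_contra hcon
    push Not at hcon
    have h6 : ((Finset.range (m 0)).image (fun y => [y])) ⊆ (queries x T).toFinset := by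
      intro l hl
      obtain ⟨y, hy, rfl⟩ := Finset.mem_image.1 hl
      exact List.mem_toFinset.2 (hcon y (Finset.mem_range.1 hy))
    have h7 := Finset.card_le_card h6
    rw [Finset.card_image_of_injective _ (by intro a b h; simpa using h), Finset.card_range] at h7
    have h8 := List.toFinset_card_le (queries x T)
    omega
  obtain ⟨y, hy, hy2⟩ := h5
  let x2 : List ℕ → Bool := fun l => decide (l ≠ [y])
  have h6 : T.eval x2 = T.eval x := by
    apply queries_eval
    intro v hv
    have : v ≠ [y] := by rintro rfl; exact hy2 hv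
    simp [x2, x, this]
  rw [← h3, ← h3] at h6
  have h7 : tr m 1 x [] = false := by simp [tr, x]
  have h8 : tr m 1 x2 [] = true := by
    rw [tr]
    exact decide_eq_true ⟨y, hy, by simp [tr, x2]⟩
  have h9 : tr m 1 x2 [] = tr m 1 x [] := h6
  rw [h7, h8] at h9
  simp at h9

/-- The bottom two levels of a circuit. -/
theorem reduce {V : Type} (w t : ℕ) : ∀ (k : ℕ) (f : (V → Bool) → Bool),
    IsC Set.univ w t (k + 1) f →
    ∃ (ι : Type) (_ : Fintype ι) (h : ι → (V → Bool) → Bool), Fintype.card ι ≤ 2 ^ (w * k) ∧
      (∀ i, IsC Set.univ w t 1 (h i)) ∧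
      ∀ (B : Type) (s : ℕ) (sub : (B → Bool) → (V → Bool)),
        (∀ i, IsC Set.univ w s 0 (fun x => h i (sub x))) → IsC Set.univ w s k (fun x => f (sub x))
  | 0, f, hf => ⟨Unit, inferInstance, fun _ => f, by simp, fun _ => hf, fun B s sub h => h ()⟩
  | k + 1, f, ⟨g, h1, h2⟩ => by
      have ih := fun j => reduce w t k (g j) (h1 j)
      choose ι hι h hc hh hs using ih
      refine ⟨(Σ j, ι j), inferInstance, fun p => h p.1 p.2, ?_, fun p => hh p.1 p.2, ?_⟩
      · rw [Fintype.card_sigma]
        calc ∑ j, Fintype.card (ι j) ≤ ∑ _j : Fin (2 ^ w), 2 ^ (w * k) :=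
              Finset.sum_le_sum (fun j _ => hc j)
          _ = 2 ^ (w * (k + 1)) := by
              rw [Finset.sum_const, Finset.card_univ, Fintype.card_fin, smul_eq_mul, ← pow_add]
              congr 1; ring
      · intro B s sub hsub
        exact ⟨fun j x => g j (sub x), fun j => hs j B s sub (fun i => hsub ⟨j, i⟩),
          fun x => h2 _⟩

/-- existence of a good restriction -/
theorem exists_good {V B : Type} [DecidableEq V] [DecidableEq B] (β : V → B) (t Q a r s : ℕ)
    (hQ : 8 * t + 8 ≤ Q) (hs : a + 2 ≤ s) (SE : Finset (V ⊕ B)) {ι κ : Type} [Fintype ι]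
    [Fintype κ] (hι : Fintype.card ι ≤ 2 ^ a) (hκ : Fintype.card κ ≤ 2 ^ r)
    (F : ι → List (List (V × Bool)))
    (hF : ∀ i, ∀ T ∈ F i, T.length ≤ t ∧ (T.map Prod.fst).Nodup)
    (A : κ → Finset (V ⊕ B)) (hA : ∀ c, A c ⊆ SE)
    (hA2 : ∀ c, (Q + 1) * (r + 2) ≤ (A c).card) :
    ∃ ρ : V ⊕ B → ℕ, (∀ i, ¬ Hard β (F i) ρ (fun _ => none) s) ∧ ∀ c, ∃ e ∈ A c, ρ e = 0 := by
  classical
  by_contra hcon
  push Not at hcon
  set N := Fintype.card (SE → Fin (Q + 1)) with hN
  have hN0 : 0 < N := Fintype.card_pos
  let A' : κ → Finset SE := fun c => Finset.univ.filter (fun e => e.1 ∈ A c)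
  have hA' : ∀ c, (A' c).card = (A c).card := by
    intro c
    apply Finset.card_bij (fun e _ => e.1)
    · intro e he
      exact (Finset.mem_filter.1 he).2
    · intro e _ e' _ h
      exact Subtype.ext h
    · intro e he
      exact ⟨⟨e, hA c he⟩, by simp [A', he], rfl⟩
  let B1 : ι → Finset (SE → Fin (Q + 1)) := fun i => Finset.univ.filter (fun f =>
      Hard β (F i) (ext SE f) (fun _ => none) s)
  let B2 : κ → Finset (SE → Fin (Q + 1)) := fun c => Finset.univ.filter (fun f =>
      ∀ e ∈ A' c, f e ≠ 0)
  have h1 : ∀ i, (B1 i).card * 2 ^ (a + 2) ≤ N := by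
    intro i
    have h := hard_count β t Q hQ SE (F i) (hF i) s
    have h' : 2 ^ (a + 2) ≤ 2 ^ s := Nat.pow_le_pow_right (by norm_num) hs
    calc (B1 i).card * 2 ^ (a + 2) ≤ (B1 i).card * 2 ^ s := Nat.mul_le_mul_left _ h'
      _ ≤ N := by convert h using 1
  have h2 : ∀ c, (B2 c).card * 2 ^ (r + 2) ≤ N := by
    intro c
    have h := count_nonzero Q (A' c) (r + 2) (by rw [hA']; exact hA2 c) (by omega)
    convert h using 1
  have h3 : (Finset.univ : Finset (SE → Fin (Q + 1))) ⊆
      (Finset.univ.biUnion B1) ∪ (Finset.univ.biUnion B2) := by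
    intro f _
    by_contra hf
    simp only [Finset.mem_union, Finset.mem_biUnion, Finset.mem_univ, true_and, not_or,
      not_exists] at hf
    obtain ⟨c, hc⟩ := hcon (ext SE f) (fun i hi => hf.1 i (by simp [B1, hi]))
    apply hf.2 c
    simp only [B2, Finset.mem_filter, Finset.mem_univ, true_and]
    intro e he h0
    have h4 := hc e.1 (Finset.mem_filter.1 he).2
    rw [ext_mem SE f e.2] at h4
    apply h4
    have : f ⟨e.1, e.2⟩ = 0 := h0
    rw [this]
    rfl
  have h4 := Finset.card_le_card h3
  rw [Finset.card_univ] at h4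
  have h5 : N ≤ ∑ i, (B1 i).card + ∑ c, (B2 c).card :=
    h4.trans ((Finset.card_union_le _ _).trans
      (Nat.add_le_add Finset.card_biUnion_le Finset.card_biUnion_le))
  have h6 : (∑ i, (B1 i).card) * 4 ≤ N := by
    have h7 : (∑ i, (B1 i).card) * 2 ^ (a + 2) ≤ 2 ^ a * N := by
      rw [Finset.sum_mul]
      calc ∑ i, (B1 i).card * 2 ^ (a + 2) ≤ ∑ _i : ι, N := Finset.sum_le_sum (fun i _ => h1 i)
        _ = Fintype.card ι * N := by simp
        _ ≤ 2 ^ a * N := Nat.mul_le_mul_right _ hι
    have h8 : 2 ^ a * ((∑ i, (B1 i).card) * 4) ≤ 2 ^ a * N := by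
      calc 2 ^ a * ((∑ i, (B1 i).card) * 4) = (∑ i, (B1 i).card) * 2 ^ (a + 2) := by ring
        _ ≤ _ := h7
    exact Nat.le_of_mul_le_mul_left h8 (by positivity)
  have h9 : (∑ c, (B2 c).card) * 4 ≤ N := by
    have h7 : (∑ c, (B2 c).card) * 2 ^ (r + 2) ≤ 2 ^ r * N := by
      rw [Finset.sum_mul]
      calc ∑ c, (B2 c).card * 2 ^ (r + 2) ≤ ∑ _c : κ, N := Finset.sum_le_sum (fun i _ => h2 i)
        _ = Fintype.card κ * N := by simp
        _ ≤ 2 ^ r * N := Nat.mul_le_mul_right _ hκ
    have h8 : 2 ^ r * ((∑ c, (B2 c).card) * 4) ≤ 2 ^ r * N := by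
      calc 2 ^ r * ((∑ c, (B2 c).card) * 4) = (∑ c, (B2 c).card) * 2 ^ (r + 2) := by ring
        _ ≤ _ := h7
    exact Nat.le_of_mul_le_mul_left h8 (by positivity)
  omega

/-- lists of naturals below `W` of length `n` -/
def lst {W n : ℕ} (g : Fin n → Fin W) : List ℕ := List.ofFn (fun i => (g i : ℕ))

theorem exists_lst {W : ℕ} (v : List ℕ) (hv : ∀ a ∈ v, a < W) :
    ∃ g : Fin v.length → Fin W, lst g = v := by
  refine ⟨fun i => ⟨v.get i, hv _ (List.get_mem _ _)⟩, ?_⟩
  unfold lst
  simp

theorem lst_spec {W n : ℕ} (g : Fin n → Fin W) : (lst g).length = n ∧ ∀ a ∈ lst g, a < W := by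
  unfold lst
  refine ⟨by simp, ?_⟩
  intro a ha
  rw [List.mem_ofFn] at ha
  obtain ⟨i, rfl⟩ := ha
  exact (g i).2

/-- the size bound of the hierarchy theorem -/
def Mb (w R : ℕ) : ℕ → ℕ → ℕ
  | 0, t => t + 1
  | k + 1, t => (8 * t + 9) * (R * (k + 1) + 3) * (Mb w R k (w * k + 2) + 1)

theorem LB (w R W : ℕ) (hW : W ≤ 2 ^ R) : ∀ (k t : ℕ) (m : ℕ → ℕ),
    (∀ i ≤ k, Mb w R k t ≤ m i ∧ m i ≤ W) →
    ¬ IsC Set.univ w t k (fun x => tr m (k + 1) x []) := by
  intro k
  induction k with
  | zero =>
      intro t m hm
      exact LB0 w t m (hm 0 le_rfl).1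
  | succ k ih =>
      intro t m hm hC
      obtain ⟨ι, hι, h, hc, hh, hs⟩ := reduce w t k _ hC
      choose F hF1 hF2 using fun i => toDNF (hh i)
      set s := w * k + 2 with hsdef
      set r := R * (k + 1) + 1 with hr
      set Q := 8 * t + 8 with hQ
      set G := (Q + 1) * (r + 2) with hG
      have hGpos : 0 < G := by positivity
      set M' := Mb w R k s with hM'
      have hMb : Mb w R (k + 1) t = G * (M' + 1) := by
        rw [Mb, hG]
      let β : List ℕ → List ℕ := List.tail
      let Bl : Finset (List ℕ) := Finset.univ.image (lst : (Fin (k + 1) → Fin W) → List ℕ)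
      have hBl : ∀ b : List ℕ, b.length = k + 1 → (∀ a ∈ b, a < W) → b ∈ Bl := by
        intro b hb1 hb2
        obtain ⟨g, hg⟩ := exists_lst b hb2
        rw [Finset.mem_image]
        have : ∀ (n : ℕ) (_ : n = k + 1) (g : Fin n → Fin W), ∃ g' : Fin (k+1) → Fin W,
            lst g' = lst g := by
          rintro n rfl g; exact ⟨g, rfl⟩
        obtain ⟨g', hg'⟩ := this _ hb1 g
        exact ⟨g', Finset.mem_univ _, by rw [hg', hg]⟩
      let SE : Finset (List ℕ ⊕ List ℕ) := Bl.image Sum.inr ∪
        (Bl ×ˢ Finset.range (m 0)).image (fun p => Sum.inl (p.2 :: p.1))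
      let κ : Type := (Fin (k + 1) → Fin W) ⊕ ((Fin k → Fin W) × Fin (m 1 / G))
      let A : κ → Finset (List ℕ ⊕ List ℕ) := fun c => match c with
        | Sum.inl g => (Finset.range (m 0)).image (fun y => Sum.inl (y :: lst g))
        | Sum.inr (g, z) => (Finset.range G).image (fun y => Sum.inr ((z.1 * G + y) :: lst g))
      have hm1G : ∀ z y, z < m 1 / G → y < G → z * G + y < m 1 := by
        intro z y hz hy
        have h1 : (z + 1) * G ≤ m 1 / G * G := Nat.mul_le_mul_right _ hz
        have h2 : m 1 / G * G ≤ m 1 := Nat.div_mul_le_self _ _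
        have h3 : (z + 1) * G = z * G + G := by ring
        omega
      have hm1W : m 1 ≤ W := (hm 1 (by omega)).2
      obtain ⟨ρ, hρ1, hρ2⟩ := exists_good β t Q (w * k) r s le_rfl le_rfl SE (ι := ι) (κ := κ)
        hc (by
          simp only [κ, Fintype.card_sum, Fintype.card_fun, Fintype.card_fin, Fintype.card_prod]
          have h1 : W ^ (k + 1) ≤ 2 ^ (R * (k + 1)) := by
            rw [pow_mul]; exact Nat.pow_le_pow_left hW _
          have h2 : W ^ k * (m 1 / G) ≤ W ^ (k + 1) := by
            rw [pow_succ]
            exact Nat.mul_le_mul_left _ ((Nat.div_le_self _ _).trans hm1W)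
          have h3 : 2 ^ r = 2 ^ (R * (k + 1)) * 2 := by rw [hr, pow_succ]
          rw [h3]
          omega) F hF1 A (by
          rintro (g | ⟨g, z⟩) e he
          · obtain ⟨y, hy, rfl⟩ := Finset.mem_image.1 he
            apply Finset.mem_union_right
            rw [Finset.mem_image]
            exact ⟨(lst g, y), Finset.mem_product.2 ⟨Finset.mem_image_of_mem _ (Finset.mem_univ _),
              hy⟩, rfl⟩
          · obtain ⟨y, hy, rfl⟩ := Finset.mem_image.1 he
            apply Finset.mem_union_left
            rw [Finset.mem_image]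
            refine ⟨_, ?_, rfl⟩
            apply hBl
            · rw [List.length_cons, (lst_spec g).1]
            · intro a ha
              rcases List.mem_cons.1 ha with ha | ha
              · rw [ha]
                have := hm1G z.1 y z.2 (Finset.mem_range.1 hy)
                omega
              · exact (lst_spec g).2 a ha) (by
          have hG1 : G ≤ m 0 := by
            have h1 := (hm 0 (by omega)).1
            rw [hMb] at h1
            calc G = G * 1 := by ring
              _ ≤ G * (M' + 1) := Nat.mul_le_mul_left _ (by omega)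
              _ ≤ m 0 := h1
          rintro (g | ⟨g, z⟩)
          · simp only [A]
            rw [Finset.card_image_of_injective _ (by intro a b h; simpa using h),
              Finset.card_range]
            exact hG1
          · simp only [A]
            rw [Finset.card_image_of_injective _ (by intro a b h; simpa using h),
              Finset.card_range])
      -- facts about the restriction
      have fa : ∀ b : List ℕ, b.length = k + 1 → (∀ a ∈ b, a < W) →
          ∃ y < m 0, ρ (Sum.inl (y :: b)) = 0 := by
        intro b hb1 hb2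
        have hb := hBl b hb1 hb2
        obtain ⟨g, _, rfl⟩ := Finset.mem_image.1 hb
        obtain ⟨e, he, he0⟩ := hρ2 (Sum.inl g)
        obtain ⟨y, hy, rfl⟩ := Finset.mem_image.1 he
        exact ⟨y, Finset.mem_range.1 hy, he0⟩
      have fb : ∀ u : List ℕ, ∀ z : ℕ, ∃ y : ℕ, u.length = k → (∀ a ∈ u, a < W) → z < m 1 / G →
          y < G ∧ ρ (Sum.inr ((z * G + y) :: u)) = 0 := by
        intro u z
        by_cases hu : u.length = k ∧ (∀ a ∈ u, a < W) ∧ z < m 1 / G
        · obtain ⟨hu1, hu2, hz⟩ := hu
          obtain ⟨g, hg⟩ := exists_lst u hu2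
          have : ∀ (n : ℕ) (_ : n = k) (g : Fin n → Fin W), ∃ g' : Fin k → Fin W,
              lst g' = lst g := by
            rintro n rfl g; exact ⟨g, rfl⟩
          obtain ⟨g', hg'⟩ := this _ hu1 g
          obtain ⟨e, he, he0⟩ := hρ2 (Sum.inr (g', ⟨z, hz⟩))
          obtain ⟨y, hy, rfl⟩ := Finset.mem_image.1 he
          rw [hg', hg] at he0
          exact ⟨y, fun _ _ _ => ⟨Finset.mem_range.1 hy, he0⟩⟩
        · exact ⟨0, fun a b c => absurd ⟨a, b, c⟩ hu⟩
      choose ch hch using fb
      -- the simplified circuit
      have hsimp := hs (List ℕ) s (val β ρ) (by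
        intro i
        have h1 := hρ1 i
        unfold Hard at h1
        push Not at h1
        obtain ⟨D, hD1, hD2⟩ := h1
        refine ⟨D, by omega, ?_, fun x => ?_⟩
        · have : ∀ T : DT (List ℕ) Bool, T.QIn Set.univ := by
            intro T
            induction T with
            | leaf _ => trivial
            | node v f t hf ht => exact ⟨trivial, hf, ht⟩
          exact this D
        · have h3 := hD2 x (by intro b c hbc; simp at hbc)
          rw [← hF2] at h3
          cases h4 : h i (val β ρ x) <;> cases h5 : D.eval x <;> simp_all)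
      let φ : List ℕ → List ℕ ⊕ Bool := fun b => match b with
        | [] => Sum.inr true
        | y :: u => if y / G < m 1 / G ∧ y = (y / G) * G + ch u (y / G) then
            Sum.inl ((y / G) :: u) else Sum.inr true
      have hren := hsimp.rename (S' := Set.univ) φ (fun _ _ _ _ => trivial)
      let m2 : ℕ → ℕ := fun i => match i with
        | 0 => m 1 / G
        | i + 1 => m (i + 2)
      have hMb1 := (hm 1 (by omega)).1
      rw [hMb] at hMb1
      refine ih s m2 ?_ (hren.congr ?_)
      · intro i hi
        cases i with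
        | zero =>
            refine ⟨?_, (Nat.div_le_self _ _).trans hm1W⟩
            have : M' + 1 ≤ m 1 / G := by
              rw [Nat.le_div_iff_mul_le hGpos]
              calc (M' + 1) * G = G * (M' + 1) := by ring
                _ ≤ m 1 := hMb1
            simp only [m2]; omega
        | succ i =>
            have h1 := hm (i + 2) (by omega)
            refine ⟨?_, h1.2⟩
            rw [hMb] at h1
            calc M' ≤ G * (M' + 1) := by nlinarith
              _ ≤ _ := h1.1
      · intro x2
        set x1 : List ℕ → Bool := fun v => Sum.elim x2 id (φ v) with hx1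
        let Y : List ℕ → Bool := fun b => if ρ (Sum.inr b) = 0 then x1 b else true
        have e1 : tr m (k + 1 + 1) (val β ρ x1) [] = tr (fun i => m (i + 1)) (k + 1) Y [] := by
          rw [tr_bot]
          apply tr_congr _ W
          · intro i hi; exact (hm (i + 1) (by omega)).2
          · simp
          · intro b hb1 hb2
            obtain ⟨y0, hy0, hy1⟩ := fa b (by simpa using hb1) hb2
            simp only [bot, Y]
            by_cases hρb : ρ (Sum.inr b) = 0
            · rw [if_pos hρb]
              cases hxb : x1 b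
              · simp only [decide_eq_false_iff_not, not_exists, not_and]
                intro y _ hy
                unfold val at hy
                simp only [β, List.tail_cons, hρb, hxb] at hy
                split_ifs at hy <;> simp_all
              · simp only [decide_eq_true_eq]
                refine ⟨y0, hy0, ?_⟩
                unfold val
                simp [β, hρb, hxb, hy1]
            · rw [if_neg hρb]
              simp only [decide_eq_true_eq]
              refine ⟨y0, hy0, ?_⟩
              unfold val
              simp [β, hρb, hy1]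
        have e2 : tr (fun i => m (i + 1)) (k + 1) Y [] = tr m2 (k + 1) x2 [] := by
          rw [tr_bot, tr_bot]
          apply tr_congr _ W
          · intro i hi; exact (hm (i + 1 + 1) (by omega)).2
          · simp
          · intro u hu1 hu2
            have hu1 : u.length = k := by simpa using hu1
            simp only [bot]
            apply decide_eq_decide.2
            constructor
            · rintro ⟨y, hy, hy2⟩
              simp only [Y] at hy2
              split_ifs at hy2 with h1
              simp only [hx1, φ] at hy2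
              split_ifs at hy2 with h2
              · exact ⟨y / G, h2.1, hy2⟩
              · simp at hy2
            · rintro ⟨z, hz, hz2⟩
              have hz' : z < m 1 / G := hz
              obtain ⟨h1, h2⟩ := hch u z hu1 hu2 hz'
              have hdiv : (z * G + ch u z) / G = z := by
                rw [mul_comm, Nat.mul_add_div hGpos, Nat.div_eq_of_lt h1]; rfl
              refine ⟨z * G + ch u z, hm1G z _ hz' h1, ?_⟩
              simp only [Y, h2, if_true, hx1, φ, hdiv, hz', true_and]
              exact hz2
        show tr m (k + 1 + 1) (val β ρ x1) [] = _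
        rw [e1, e2]

end Pool.Agent.Lib.Pa76659.Hier
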