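import Pool.Agent.Lib.Pa76659.Progs

/-!
Basic facts on the low classes.
-/

namespace Pool.Agent.Lib.Pa76659

theorem sig_congr {X Y : Lang} {k m : ℕ} (h : Sig X k = Sig Y m) :
    Sig X (k + 1) = Sig Y (m + 1) := by
  ext L
  constructor
  · rintro ⟨B, hB, hL⟩; exact ⟨B, h ▸ hB, hL⟩
  · rintro ⟨B, hB, hL⟩; exact ⟨B, h.symm ▸ hB, hL⟩

theorem sig_collapse {X : Lang} {k : ℕ} (h : Sig X k = Sig X (k + 1)) :
    ∀ j, Sig X (k + j) = Sig X k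
  | 0 => rfl
  | j + 1 => by
      have h1 := sig_collapse h j
      have h2 := sig_congr h1
      rw [← add_assoc, h2, ← h]

theorem low_succ {X : Lang} {k : ℕ} : Low X k ⊆ Low X (k + 1) := by
  rintro A ⟨h1, h2⟩
  refine ⟨h1, ?_⟩
  rintro L ⟨B, hB, hL⟩
  exact ⟨B, h2 hB, hL⟩

theorem low_mono {X : Lang} {k m : ℕ} (h : k ≤ m) : Low X k ⊆ Low X m := by
  induction m, h using Nat.le_induction with
  | base => exact subset_rfl
  | succ m _ ih => exact ih.trans low_succ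

theorem low_rlow {X : Lang} {k : ℕ} : Low X k ⊆ RLowSucc X k := by
  rintro A ⟨h1, h2⟩
  refine ⟨h1, ?_⟩
  rintro L ⟨B, hB, hL⟩
  exact ⟨B, h2 hB, hL⟩

theorem rlow_low {X : Lang} {k : ℕ} : RLowSucc X k ⊆ Low X (k + 1) := by
  rintro A ⟨h1, h2⟩
  refine ⟨h1, ?_⟩
  rintro L ⟨B, hB, hL⟩
  obtain ⟨C, hC, hBC⟩ := h2 ⟨B, hB, query_mem B⟩
  exact ⟨C, hC, NPO_subset hBC hL⟩

theorem PO_low {X : Lang} {k : ℕ} : PO X ⊆ Low X k := by
  refine Set.Subset.trans ?_ (low_mono (Nat.zero_le k))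
  intro A hA
  exact ⟨PO_subset_NPO X hA, PO_subset (join_mem hA)⟩

theorem J_mem (Z : Lang) (k : ℕ) : J k Z ∈ Sig Z k := EE_iter_mem _ (J0_mem Z) k

end Pool.Agent.Lib.Pa76659
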