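import Pool.Agent.Lib.Pa76659.Cond

/-!
Adding a column for a low set preserves goodness.
-/

set_option maxHeartbeats 4000000

namespace Pool.Agent.Lib.Pa76659

/-- strings which may still be asked -/
def SS (q : Cond) (j B n L b : ℕ) : Set Str :=
  {v | n ≤ v.length ∧ v.length ≤ n ^ b ∧ Free q v ∧ ∀ x, v = code j B x → v.length ≤ L}

theorem SS_mono (q : Cond) (j B n : ℕ) {L L' b b' : ℕ} (hn : 2 ≤ n) (hL : L ≤ L') (hb : b ≤ b') :
    SS q j B n L b ⊆ SS q j B n L' b' := fun _ ⟨h1, h2, h3, h4⟩ =>
  ⟨h1, h2.trans (Nat.pow_le_pow_right (by omega) hb), h3, fun x hx => (h4 x hx).trans hL⟩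

/-- the machine `i` computes a set which is low at level `K` via `(p0, l0)` -/
def LOW (K : ℕ) (q : Cond) (i : NIx) (p0 : PIx) (l0 : List NIx) : Prop :=
  ∀ X, Mem q X → ∀ s : Str, J K (join X (nEval i X)) s = sEval p0 l0 X s

open Classical in
/-- argument of a column string -/
noncomputable def colArg (j B : ℕ) (v : Str) : Option Str :=
  if h : ∃ x, v = code j B x then some h.choose else none

theorem colArg_some {j B : ℕ} {v x : Str} : colArg j B v = some x ↔ v = code j B x := by
  unfold colArg
  constructor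
  · intro h
    split_ifs at h with h1
    simp only [Option.some.injEq] at h
    rw [← h]; exact h1.choose_spec
  · intro h
    have h1 : ∃ x, v = code j B x := ⟨x, h⟩
    rw [dif_pos h1]
    congr 1
    exact (code_inj (h1.choose_spec.symm.trans h)).2

theorem colArg_none {j B : ℕ} {v : Str} (h : colArg j B v = none) (x : Str) :
    v ≠ code j B x := by
  intro h1
  rw [colArg_some.2 h1] at h
  simp at h

section

variable {K : ℕ} {q : Cond} (hq : WF q) (hg : Good (K + 1) q) {i : NIx} {p0 : PIx}
  {l0 : List NIx} (hl : l0.length = K + 1) (hlow : LOW (K + 1) q i p0 l0) {j B : ℕ}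
  (hcol : GoodCol i B) (hj : q.E j = none) (hN : q.N ≤ j + 3)

include hq hg hl hlow hcol hj hN

theorem step_col (b : ℕ) : ∃ b' n0 : ℕ, ∀ n : ℕ, n0 ≤ n → ∀ L L' : ℕ,
    (∀ u : ℕ, u ^ 2 ≤ L → u ≤ L') → L' ≤ n ^ b → ∀ (Y0 : Lang) (κ : ℕ), K + 1 ≤ κ →
    ∀ C : (Str → Bool) → Bool, IsC (SS q j B n L b) (n ^ b) (n ^ b) κ C →
    ∃ C' : (Str → Bool) → Bool, IsC (SS q j B n L' b') (n ^ b') (n ^ b') κ C' ∧
      ∀ X, Mem (addc q j i B) X → (∀ v : Str, v.length < n → X v = Y0 v) → C' X = C X := by
  classical
  obtain ⟨e, he⟩ := poly_le (Polynomial.X ^ b + Polynomial.X ^ b + 1 +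
    Polynomial.X ^ b * (3 * Polynomial.X ^ b + 3))
  obtain ⟨b1, n1, h1⟩ := hg p0 l0 e
  refine ⟨b1 + b, max (max n1 2) q.N, fun n hn L L' hLL hL' Y0 κ hκ => ?_⟩
  have hn2 : 2 ≤ n := le_trans (le_trans (le_max_right _ _) (le_max_left _ _)) hn
  have hn1 : n1 ≤ n := le_trans (le_trans (le_max_left _ _) (le_max_left _ _)) hn
  have hnN : q.N ≤ n := le_trans (le_max_right _ _) hn
  have hbpos : 1 ≤ n ^ b := Nat.one_le_pow _ _ (by omega)
  have hb1 : n ^ b1 ≤ n ^ (b1 + b) := Nat.pow_le_pow_right (by omega) (by omega)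
  induction κ, hκ using Nat.le_induction with
  | base =>
      intro C hC
      have he' := he n hn2
      simp only [Polynomial.eval_add, Polynomial.eval_mul, Polynomial.eval_pow,
        Polynomial.eval_X, Polynomial.eval_ofNat, Polynomial.eval_one] at he'
      set s : Str := List.replicate (n ^ e) false with hs
      have hsl : s.length = n ^ e := by simp [hs]
      obtain ⟨Tab, ht1, ht2, ht3⟩ := univJ (colArg j B) (SS q j B n L b) (n ^ b) (n ^ b) (n ^ b)
        (by
          intro v hv x hx
          have h2 := hv.2.1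
          rw [colArg_some] at hx
          rw [hx, code_length] at h2
          omega) K C hC s (by rw [hsl]; exact he')
      have h2 := h1 n hn1 Y0 s (by rw [hsl])
      rw [hl, max_self] at h2
      -- the substitution
      let isT : Str → Prop := fun v => ∃ r : Str, v = s ++ r ∧
        r.length + s.length = 2 ^ (K + 1) * s.length
      let sub : Str → DT Str Bool := fun v =>
        if v.length ≤ L' then DT.node v (DT.leaf false) (DT.leaf true)
        else if isT v then Tab v else DT.leaf false
      have h3 := h2.subst (S' := SS q j B n L' (b1 + b)) (d := n ^ b) sub (by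
          intro v _
          simp only [sub]
          split_ifs
          · simpa [DT.depth] using hbpos
          · exact ht1 v
          · simp [DT.depth]) (by
          intro v hv
          simp only [sub]
          split_ifs with c1 c2
          · exact ⟨⟨hv.1, hv.2.1.trans hb1, hv.2.2, fun _ _ => c1⟩, trivial, trivial⟩
          · apply (ht2 v).mono
            rintro u ⟨hu1, hu2⟩
            refine ⟨hu1.1, hu1.2.1.trans (Nat.pow_le_pow_right (by omega) (by omega)),
              hu1.2.2.1, fun x hx => absurd hx (colArg_none hu2 x)⟩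
          · trivial)
      refine ⟨_, h3.mono (subset_refl _) hb1 (by rw [← pow_add]), ?_⟩
      intro X hX hXY
      obtain ⟨hX1, hX2⟩ := addc_mem hj hN hX
      set Zx : Lang := fun v => (sub v).eval X with hZx
      set X' := Phi q (mix n Y0 Zx) with hX'
      have hX'm : Mem q X' := Phi_mem hq _
      have hsL : L' < s.length := by
        rw [hsl]; omega
      have hspos : 1 ≤ s.length := by omega
      have hsn : n ≤ 2 ^ (K + 1) * s.length := by
        by_contra hcon
        push Not at hcon
        have h5 : n ^ 1 ≤ n ^ e := by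
          apply Nat.pow_le_pow_right (by omega)
          by_contra h6
          have h7 : e = 0 := by omega
          rw [h7] at he'
          simp only [pow_zero] at he'
          omega
        rw [pow_one, ← hsl] at h5
        have h6 : 1 * s.length ≤ 2 ^ (K + 1) * s.length :=
          Nat.mul_le_mul_right _ Nat.one_le_two_pow
        omega
      have hXX : ∀ v : Str, v.length ≤ L' → X' v = X v := by
        intro v hv
        rw [hX', ← congrFun (Phi_self hq hX1) v]
        refine Phi_local hq L' ?_ v hv
        intro u hu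
        unfold mix
        split_ifs with h5
        · exact (hXY u h5).symm
        · simp only [hZx, sub, hu, if_true, DT.eval]
          cases X u <;> simp
      have hA : ∀ x, (code j B x).length ≤ L → nEval i X' x = nEval i X x := by
        intro x hx
        apply hcol
        intro v hv
        apply hXX
        apply hLL
        rw [code_length] at hx
        omega
      -- apply lowness
      have h5 := hlow X' hX'm s
      show sEval p0 l0 X' s = C X
      rw [← h5]
      apply ht3
      · intro r hr
        show X' (s ++ r) = _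
        have hlen : n ≤ (s ++ r).length := by
          rw [List.length_append]; omega
        have hfree : Free q (s ++ r) := by
          have : s ++ r = false :: (List.replicate (n ^ e - 1) false ++ r) := by
            rw [hs]
            obtain ⟨c, hc⟩ : ∃ c, n ^ e = c + 1 := ⟨n ^ e - 1, by omega⟩
            rw [hc, List.replicate_succ]; simp
          rw [this]
          exact free_of_false _ _
        rw [hX', Phi_free q _ _ (hnN.trans hlen) hfree]
        unfold mix
        rw [if_neg (by omega)]
        simp only [hZx, sub]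
        rw [if_neg (by rw [List.length_append]; omega), if_pos ⟨r, rfl, hr⟩]
      · intro u hu x hx
        show nEval i X' x = _
        rw [colArg_some] at hx
        rw [hA x (by rw [← hx]; exact hu.2.2.2 x hx), ← hX2 x, hx]
  | succ κ hκ ih =>
      intro C ⟨g, hg1, hg2⟩
      choose g' hg'1 hg'2 using fun jj => ih (g jj) (hg1 jj)
      have hw : n ^ b ≤ n ^ (b1 + b) := Nat.pow_le_pow_right (by omega) (by omega)
      refine ⟨fun X => decide (∃ jj, g' jj X = false), ?_, ?_⟩
      · refine IsC.of_exists (ι := Fin (2 ^ (n ^ b))) ?_ g' hg'1 (fun x => by simp)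
        simpa using Nat.pow_le_pow_right (by norm_num) hw
      · intro X hX hXY
        have h3 : ∀ jj, g' jj X = g jj X := fun jj => hg'2 jj X hX hXY
        have h4 := hg2 X
        simp only [h3]
        cases h5 : C X
        · rw [decide_eq_false_iff_not, ← h4, h5]; simp
        · rw [decide_eq_true_eq, ← h4, h5]

theorem iter_col : ∀ (M b : ℕ), ∃ b' n0 : ℕ, ∀ n : ℕ, n0 ≤ n → ∀ (Y0 : Lang) (κ : ℕ),
    K + 1 ≤ κ →
    ∀ C : (Str → Bool) → Bool, IsC (SS q j B n (n ^ (2 ^ M)) b) (n ^ b) (n ^ b) κ C →
    ∃ C' : (Str → Bool) → Bool, IsC (SS q j B n (n - 1) b') (n ^ b') (n ^ b') κ C' ∧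
      ∀ X, Mem (addc q j i B) X → (∀ v : Str, v.length < n → X v = Y0 v) → C' X = C X
  | 0, b => by
      obtain ⟨b', n0, h⟩ := step_col hq hg hl hlow hcol hj hN (b + 1)
      refine ⟨b', max n0 2, fun n hn Y0 κ hκ C hC => ?_⟩
      have hn2 : 2 ≤ n := le_trans (le_max_right _ _) hn
      have hbb : n ^ b ≤ n ^ (b + 1) := Nat.pow_le_pow_right (by omega) (by omega)
      refine h n (le_trans (le_max_left _ _) hn) (n ^ (2 ^ 0)) (n - 1) ?_ ?_ Y0 κ hκ C
        (hC.mono (SS_mono q j B n hn2 le_rfl (by omega)) hbb hbb)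
      · intro u hu
        by_contra hcon
        have h1 : n ≤ u := by omega
        have h2 : n ^ 2 ≤ u ^ 2 := Nat.pow_le_pow_left h1 2
        simp only [pow_zero, pow_one] at hu
        nlinarith
      · have h1 : n ^ 1 ≤ n ^ (b + 1) := Nat.pow_le_pow_right (by omega) (by omega)
        rw [pow_one] at h1
        omega
  | M + 1, b => by
      obtain ⟨b1, n1, h1⟩ := step_col hq hg hl hlow hcol hj hN (b + 2 ^ M)
      obtain ⟨b2, n2, h2⟩ := iter_col M b1
      refine ⟨b2, max (max n1 n2) 2, fun n hn Y0 κ hκ C hC => ?_⟩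
      have hn2 : 2 ≤ n := le_trans (le_max_right _ _) hn
      have hbb : n ^ b ≤ n ^ (b + 2 ^ M) := Nat.pow_le_pow_right (by omega) (Nat.le_add_right _ _)
      obtain ⟨C1, hC1, hC1'⟩ := h1 n
        (le_trans (le_trans (le_max_left _ _) (le_max_left _ _)) hn) (n ^ (2 ^ (M + 1)))
        (n ^ (2 ^ M)) (by
          intro u hu
          have h3 : n ^ (2 ^ (M + 1)) = (n ^ (2 ^ M)) ^ 2 := by
            rw [← pow_mul]; congr 1
          rw [h3] at hu
          exact (Nat.pow_le_pow_iff_left (by norm_num)).1 hu)
        (Nat.pow_le_pow_right (by omega) (Nat.le_add_left _ _)) Y0 κ hκ C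
        (hC.mono (SS_mono q j B n hn2 le_rfl (Nat.le_add_right _ _)) hbb hbb)
      obtain ⟨C2, hC2, hC2'⟩ := h2 n
        (le_trans (le_trans (le_max_right _ _) (le_max_left _ _)) hn) Y0 κ hκ C1 hC1
      exact ⟨C2, hC2, fun X hX hXY => (hC2' X hX hXY).trans (hC1' X hX hXY)⟩

theorem good_addc (hjN : j < q.N) (hodd : j % 2 = 1) : Good (K + 1) (addc q j i B) := by
  intro p l a
  have hq' := addc_wf hq (j := j) hcol hjN hodd
  obtain ⟨b, n1, h1⟩ := hg p l a
  obtain ⟨b', n2, h2⟩ := iter_col hq hg hl hlow hcol hj hN b b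
  refine ⟨b', max (max n1 n2) (max q.N 2), fun n hn Y0 z hz => ?_⟩
  have hn1 : n1 ≤ n := le_trans (le_trans (le_max_left _ _) (le_max_left _ _)) hn
  have hn2 : n2 ≤ n := le_trans (le_trans (le_max_right _ _) (le_max_left _ _)) hn
  have hnN : q.N ≤ n := le_trans (le_trans (le_max_left _ _) (le_max_right _ _)) hn
  have hn3 : 2 ≤ n := le_trans (le_trans (le_max_right _ _) (le_max_right _ _)) hn
  set Y0' := Phi (addc q j i B) Y0 with hY0'
  have h3 := h1 n hn1 Y0' z hz
  obtain ⟨C', hC', hC''⟩ := h2 n hn2 Y0' (max l.length (K + 1)) (le_max_right _ _) _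
    (h3.mono (S' := SS q j B n (n ^ (2 ^ b)) b) (by
      rintro v ⟨c1, c2, c3⟩
      refine ⟨c1, c2, c3, fun x _ => c2.trans (Nat.pow_le_pow_right (by omega) ?_)⟩
      exact (Nat.lt_two_pow_self).le) le_rfl le_rfl)
  have hsub : SS q j B n (n - 1) b' ⊆ {v : Str | n ≤ v.length ∧ v.length ≤ n ^ b' ∧
      Free (addc q j i B) v} := by
    rintro v ⟨c1, c2, c3, c4⟩
    refine ⟨c1, c2, addc_free c3 ?_⟩
    intro x hx
    have := c4 x hx
    omega
  refine (hC'.mono hsub le_rfl le_rfl).congr (fun Y => ?_)
  set X := Phi (addc q j i B) (mix n Y0 Y) with hX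
  have hXm : Mem (addc q j i B) X := Phi_mem hq' _
  have hXY : ∀ v : Str, v.length < n → X v = Y0' v := by
    intro v hv
    refine Phi_local hq' v.length ?_ v le_rfl
    intro u hu
    unfold mix
    rw [if_pos (by omega)]
  have e1 : C' Y = C' X := by
    refine IsC.eval_congr ?_ hC'
    intro v hv
    have hv' := hsub hv
    rw [hX, Phi_free (addc q j i B) _ v (hnN.trans hv'.1) hv'.2.2]
    unfold mix
    rw [if_neg (by have := hv'.1; omega)]
  rw [e1, hC'' X hXm hXY]
  have e2 : mix n Y0' X = X := by
    funext v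
    unfold mix
    split_ifs with h5
    · exact (hXY v h5).symm
    · rfl
  rw [e2, Phi_self hq (addc_mem hj hN hXm).1]

end

end Pool.Agent.Lib.Pa76659
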