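import Pool.Agent.Lib.Pa76659.JEnc

/-!
Forcing conditions.
-/

set_option maxHeartbeats 4000000

namespace Pool.Agent.Lib.Pa76659

/-- code strings -/
def code (j B : ℕ) (x : Str) : Str :=
  true :: (List.replicate j true ++
    false :: (List.replicate ((x.length + 2) ^ (2 ^ B)) false ++ true :: x))

theorem code_length (j B : ℕ) (x : Str) :
    (code j B x).length = j + 3 + (x.length + 2) ^ (2 ^ B) + x.length := by
  simp only [code, List.length_cons, List.length_append, List.length_replicate]
  ring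

theorem rep_inj (c : Bool) : ∀ (a b : ℕ) (u v : Str),
    List.replicate a c ++ (!c) :: u = List.replicate b c ++ (!c) :: v → a = b ∧ u = v
  | 0, 0, u, v, h => by simpa using h
  | 0, b + 1, u, v, h => by
      cases c <;> simp [List.replicate_succ] at h
  | a + 1, 0, u, v, h => by
      cases c <;> simp [List.replicate_succ] at h
  | a + 1, b + 1, u, v, h => by
      simp only [List.replicate_succ, List.cons_append, List.cons.injEq, true_and] at h
      obtain ⟨h1, h2⟩ := rep_inj c a b u v h
      exact ⟨by omega, h2⟩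

theorem code_inj {j B : ℕ} {x : Str} {j' B' : ℕ} {x' : Str} (h : code j B x = code j' B' x') :
    j = j' ∧ x = x' := by
  simp only [code, List.cons.injEq, true_and] at h
  obtain ⟨h1, h2⟩ := rep_inj true _ _ _ _ h
  obtain ⟨h3, h4⟩ := rep_inj false _ _ _ _ h2
  exact ⟨h1, h4⟩

/-- the region of the tables -/
def isTab (v : Str) : Prop := ∃ e u, v = List.replicate (2 * e + 1) true ++ false :: u

theorem code_eq (j B : ℕ) (x : Str) : code j B x = List.replicate (j + 1) true ++
    false :: (List.replicate ((x.length + 2) ^ (2 ^ B)) false ++ true :: x) := by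
  rw [code, List.replicate_succ, List.cons_append]

theorem code_not_tab {j B : ℕ} {x : Str} (hj : j % 2 = 1) : ¬ isTab (code j B x) := by
  rintro ⟨e, u, h⟩
  rw [code_eq] at h
  obtain ⟨h1, _⟩ := rep_inj true _ _ _ _ h
  omega

theorem false_not_tab (v : Str) : ¬ isTab (false :: v) := by
  rintro ⟨e, u, h⟩
  rw [List.replicate_succ] at h
  simp at h

/-- the value of the `NP` machine on `x` depends only on strings much shorter than the code -/
def GoodCol (i : NIx) (B : ℕ) : Prop := ∀ (x : Str) (O O' : Lang),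
  (∀ v : Str, v.length ^ 2 ≤ (x.length + 2) ^ (2 ^ B) → O v = O' v) → nEval i O x = nEval i O' x

theorem exists_goodCol (i : NIx) : ∃ B, GoodCol i B := by
  obtain ⟨b, hb⟩ := nEval_congr i
  refine ⟨b + 1, fun x O O' h => hb x O O' fun v hv => h v ?_⟩
  calc v.length ^ 2 ≤ ((x.length + 2) ^ b) ^ 2 := Nat.pow_le_pow_left hv 2
    _ = (x.length + 2) ^ (2 * b) := by rw [← pow_mul]; congr 1; ring
    _ ≤ (x.length + 2) ^ (2 ^ (b + 1)) := by
        apply Nat.pow_le_pow_right (by omega)
        rw [pow_succ]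
        have : b < 2 ^ b := Nat.lt_two_pow_self
        omega

theorem GoodCol.congr {i : NIx} {B : ℕ} (h : GoodCol i B) (j : ℕ) (x : Str) (O O' : Lang)
    (hO : ∀ v : Str, v.length < (code j B x).length → O v = O' v) :
    nEval i O x = nEval i O' x := by
  apply h x O O'
  intro v hv
  apply hO
  rw [code_length]
  have h1 : v.length ≤ v.length ^ 2 := Nat.le_self_pow (by norm_num) _
  omega

/-- Conditions: the oracle is frozen below `N` (with values `σ`), the tables are given by `τ` and
`E` lists the columns. -/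
structure Cond where
  N : ℕ
  σ : Lang
  τ : Lang
  E : ℕ → Option (NIx × ℕ)

/-- the string is not in a table and not in a column -/
def Free (q : Cond) (v : Str) : Prop :=
  ¬ isTab v ∧ ∀ j i B x, q.E j = some (i, B) → v ≠ code j B x

/-- the oracle obeys the condition -/
def Mem (q : Cond) (X : Lang) : Prop := ∀ v : Str, (v.length < q.N → X v = q.σ v) ∧
  (q.N ≤ v.length → isTab v → X v = q.τ v) ∧
  (q.N ≤ v.length → ∀ j i B x, q.E j = some (i, B) → v = code j B x → X v = nEval i X x)

structure WF (q : Cond) : Prop where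
  good : ∀ j i B, q.E j = some (i, B) → GoodCol i B
  fin : ∀ j, q.N ≤ j → q.E j = none
  odd : ∀ j i B, q.E j = some (i, B) → j % 2 = 1

open Classical in
noncomputable def Phi (q : Cond) (Y : Lang) (v : Str) : Bool :=
  if v.length < q.N then q.σ v
  else if isTab v then q.τ v
  else if h : ∃ c : ℕ × NIx × ℕ × Str, q.E c.1 = some (c.2.1, c.2.2.1) ∧
      v = code c.1 c.2.2.1 c.2.2.2 then
    nEval h.choose.2.1 (fun u => if _ : u.length < v.length then Phi q Y u else false)
      h.choose.2.2.2
  else Y v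
termination_by v.length

theorem Phi_below (q : Cond) (Y : Lang) (v : Str) (h : v.length < q.N) : Phi q Y v = q.σ v := by
  rw [Phi, if_pos h]

theorem Phi_free (q : Cond) (Y : Lang) (v : Str) (h : q.N ≤ v.length) (hf : Free q v) :
    Phi q Y v = Y v := by
  rw [Phi, if_neg (by omega), if_neg hf.1, dif_neg]
  rintro ⟨⟨j, i, B, x⟩, h1, h2⟩
  exact hf.2 j i B x h1 h2

theorem Phi_tab (q : Cond) (Y : Lang) (v : Str) (h : q.N ≤ v.length) (hf : isTab v) :
    Phi q Y v = q.τ v := by
  rw [Phi, if_neg (by omega), if_pos hf]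

theorem Phi_mem {q : Cond} (hq : WF q) (Y : Lang) : Mem q (Phi q Y) := by
  intro v
  refine ⟨Phi_below q Y v, Phi_tab q Y v, fun hN j i B x hE hv => ?_⟩
  have h : ∃ c : ℕ × NIx × ℕ × Str, q.E c.1 = some (c.2.1, c.2.2.1) ∧
      v = code c.1 c.2.2.1 c.2.2.2 := ⟨(j, i, B, x), hE, hv⟩
  have hnt : ¬ isTab v := by rw [hv]; exact code_not_tab (hq.odd j i B hE)
  rw [Phi, if_neg (by omega), if_neg hnt, dif_pos h]
  obtain ⟨h1, h2⟩ := h.choose_spec
  set c := h.choose with hc
  obtain ⟨e1, e2⟩ := code_inj (hv.symm.trans h2)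
  rw [← e1, hE] at h1
  simp only [Option.some.injEq, Prod.mk.injEq] at h1
  rw [← h1.1, ← e2]
  apply (hq.good j i B hE).congr j
  intro u hu
  rw [← hv] at hu
  simp [hu]

theorem Mem.unique {q : Cond} (hq : WF q) {X X' : Lang} (h : Mem q X) (h' : Mem q X') (m : ℕ)
    (hXX : ∀ v : Str, q.N ≤ v.length → Free q v → v.length ≤ m → X v = X' v) :
    ∀ v : Str, v.length ≤ m → X v = X' v := by
  intro v
  induction hn : v.length using Nat.strong_induction_on generalizing v with
  | _ n ih =>
    intro hm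
    subst hn
    by_cases hN : v.length < q.N
    · rw [(h v).1 hN, (h' v).1 hN]
    · have hN : q.N ≤ v.length := by omega
      by_cases hf : Free q v
      · exact hXX v hN hf hm
      by_cases ht : isTab v
      · rw [(h v).2.1 hN ht, (h' v).2.1 hN ht]
      · unfold Free at hf
        push Not at hf
        obtain ⟨j, i, B, x, hE, hv⟩ := hf ht
        rw [(h v).2.2 hN j i B x hE hv, (h' v).2.2 hN j i B x hE hv]
        apply (hq.good j i B hE).congr j
        intro u hu
        rw [← hv] at hu
        exact ih u.length hu u rfl (by omega)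

theorem Phi_self {q : Cond} (hq : WF q) {X : Lang} (h : Mem q X) : Phi q X = X := by
  funext v
  exact Mem.unique hq (Phi_mem hq X) h v.length
    (fun u h1 h2 _ => Phi_free q X u h1 h2) v le_rfl

theorem Phi_local {q : Cond} (hq : WF q) {Y Y' : Lang} (m : ℕ)
    (h : ∀ v : Str, v.length ≤ m → Y v = Y' v) : ∀ v : Str, v.length ≤ m →
    Phi q Y v = Phi q Y' v :=
  Mem.unique hq (Phi_mem hq Y) (Phi_mem hq Y') m
    (fun u h1 h2 h3 => by rw [Phi_free q Y u h1 h2, Phi_free q Y' u h1 h2, h u h3])

/-- `Y0` below `n`, `Y` above -/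
def mix (n : ℕ) (Y0 Y : Lang) : Lang := fun v => if v.length < n then Y0 v else Y v

/-- freeze the oracle up to `M` -/
def freeze (q : Cond) (X : Lang) (M : ℕ) : Cond := ⟨M, X, q.τ, q.E⟩

theorem freeze_wf {q : Cond} (hq : WF q) (X : Lang) {M : ℕ} (hM : q.N ≤ M) :
    WF (freeze q X M) :=
  ⟨hq.good, fun j hj => hq.fin j (hM.trans hj), hq.odd⟩

theorem freeze_mem {q : Cond} (hq : WF q) {X : Lang} (hX : Mem q X) {M : ℕ} (hM : q.N ≤ M)
    {X' : Lang} (h : Mem (freeze q X M) X') : Mem q X' := by
  have h1 : ∀ v : Str, v.length < M → X' v = X v := fun v hv => (h v).1 hv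
  intro v
  refine ⟨?_, ?_, ?_⟩
  · intro hv
    rw [h1 v (by omega), (hX v).1 hv]
  · intro hN ht
    by_cases hvM : v.length < M
    · rw [h1 v hvM, (hX v).2.1 hN ht]
    · exact (h v).2.1 (by simpa [freeze] using hvM) ht
  · intro hN j i B x hE hv
    by_cases hvM : v.length < M
    · rw [h1 v hvM, (hX v).2.2 hN j i B x hE hv]
      apply (hq.good j i B hE).congr j
      intro u hu
      rw [← hv] at hu
      exact (h1 u (by omega)).symm
    · exact (h v).2.2 (by simpa [freeze] using hvM) j i B x hE hv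

theorem freeze_Phi {q : Cond} (hq : WF q) {X : Lang} (hX : Mem q X) {M : ℕ} (hM : q.N ≤ M)
    (Y : Lang) : Phi (freeze q X M) Y = Phi q (mix M X Y) := by
  have hq' := freeze_wf hq X hM
  have hm := Phi_mem hq' Y
  funext v
  refine Mem.unique hq (freeze_mem hq hX hM hm) (Phi_mem hq _) v.length ?_ v le_rfl
  intro u h1 h2 _
  rw [Phi_free q _ u h1 h2]
  unfold mix
  split_ifs with h3
  · exact Phi_below (freeze q X M) Y u h3
  · exact Phi_free (freeze q X M) Y u (by simpa [freeze] using h3) h2

/-- The computations of the polynomial hierarchy are small circuits over the free strings. -/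
def Good (K : ℕ) (q : Cond) : Prop := ∀ (p : PIx) (l : List NIx) (a : ℕ), ∃ b n0 : ℕ,
  ∀ n : ℕ, n0 ≤ n → ∀ (Y0 : Lang) (z : Str), z.length ≤ n ^ a →
    IsC {v : Str | n ≤ v.length ∧ v.length ≤ n ^ b ∧ Free q v} (n ^ b) (n ^ b) (max l.length K)
      (fun Y => sEval p l (Phi q (mix n Y0 Y)) z)

theorem Good.mono {K K' : ℕ} (h : K ≤ K') {q : Cond} (hg : Good K q) : Good K' q := by
  intro p l a
  obtain ⟨b, n0, hb⟩ := hg p l a
  exact ⟨b, n0, fun n hn Y0 z hz => (hb n hn Y0 z hz).lift_le (max_le_max le_rfl h)⟩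

theorem good_init (K : ℕ) (σ τ : Lang) : Good K ⟨0, σ, τ, fun _ => none⟩ := by
  classical
  intro p l a
  obtain ⟨b, hb⟩ := sEval_isC p l
  refine ⟨(a + 1) * b, 2, fun n hn Y0 z hz => ?_⟩
  have h0 : 2 ≤ n ^ (a + 1) := by
    calc 2 ≤ n := hn
      _ = n ^ 1 := by ring
      _ ≤ n ^ (a + 1) := Nat.pow_le_pow_right (by omega) (by omega)
  have h1 := hb (n ^ (a + 1)) h0 z
    (hz.trans (Nat.pow_le_pow_right (by omega) (by omega)))
  rw [← pow_mul] at h1
  have hfree : ∀ v, ¬ isTab v → Free ⟨0, σ, τ, fun _ => none⟩ v := by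
    intro v hv
    refine ⟨hv, fun j i B x h => ?_⟩
    simp at h
  have h2 := (h1.lift_le (le_max_left l.length K)).rename
    (S' := {v : Str | n ≤ v.length ∧ v.length ≤ n ^ ((a + 1) * b) ∧
      Free ⟨0, σ, τ, fun _ => none⟩ v})
    (fun v => if isTab v then Sum.inr (τ v) else
      if v.length < n then Sum.inr (Y0 v) else Sum.inl v) (by
      intro v hv v' hvv'
      split_ifs at hvv' with h3 h4
      simp only [Sum.inl.injEq] at hvv'
      subst hvv'
      exact ⟨by omega, hv, hfree _ h3⟩)
  refine h2.congr (fun Y => ?_)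
  congr 1
  funext v
  by_cases ht : isTab v
  · rw [Phi_tab _ _ v (Nat.zero_le _) ht]
    simp [ht]
  · rw [Phi_free _ _ v (Nat.zero_le _) (hfree v ht)]
    unfold mix
    simp only [ht, if_false]
    split_ifs <;> simp

theorem good_freeze {K : ℕ} {q : Cond} (hq : WF q) (hg : Good K q) {X : Lang} (hX : Mem q X)
    {M : ℕ} (hM : q.N ≤ M) : Good K (freeze q X M) := by
  intro p l a
  obtain ⟨b, n0, h⟩ := hg p l a
  refine ⟨b, max n0 M, fun n hn Y0 z hz => ?_⟩
  have h1 := h n (le_trans (le_max_left _ _) hn) (mix M X Y0) z hz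
  have hnM : M ≤ n := le_trans (le_max_right _ _) hn
  refine IsC.congr h1 (fun Y => ?_)
  rw [freeze_Phi hq hX hM]
  congr 2
  funext v
  unfold mix
  split_ifs <;> first | rfl | omega

/-- add a column -/
def addc (q : Cond) (j : ℕ) (i : NIx) (B : ℕ) : Cond :=
  ⟨q.N, q.σ, q.τ, Function.update q.E j (some (i, B))⟩

theorem addc_mem {q : Cond} {j : ℕ} {i : NIx} {B : ℕ} (hj : q.E j = none) (hN : q.N ≤ j + 3)
    {X : Lang} (h : Mem (addc q j i B) X) : Mem q X ∧ ∀ x, X (code j B x) = nEval i X x := by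
  constructor
  · intro v
    refine ⟨(h v).1, (h v).2.1, fun hv j' i' B' x hE hv' => ?_⟩
    refine (h v).2.2 hv j' i' B' x ?_ hv'
    have : j' ≠ j := by rintro rfl; rw [hj] at hE; simp at hE
    simp [addc, this, hE]
  · intro x
    refine (h _).2.2 ?_ j i B x ?_ rfl
    · rw [code_length]; simp only [addc]; omega
    · simp [addc]

theorem addc_wf {q : Cond} (hq : WF q) {j : ℕ} {i : NIx} {B : ℕ} (hg : GoodCol i B)
    (hj : j < q.N) (hodd : j % 2 = 1) : WF (addc q j i B) := by
  refine ⟨?_, ?_, ?_⟩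
  · intro j' i' B' h
    by_cases h1 : j' = j
    · subst h1
      simp only [addc, Function.update_self, Option.some.injEq, Prod.mk.injEq] at h
      rw [← h.1, ← h.2]; exact hg
    · simp only [addc, Function.update_of_ne h1] at h
      exact hq.good j' i' B' h
  · intro j' hj'
    have h1 : j' ≠ j := by
      simp only [addc] at hj'
      omega
    simp only [addc, Function.update_of_ne h1]
    exact hq.fin j' hj'
  · intro j' i' B' h
    by_cases h1 : j' = j
    · subst h1; exact hodd
    · simp only [addc, Function.update_of_ne h1] at h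
      exact hq.odd j' i' B' h

theorem addc_free {q : Cond} {j : ℕ} {i : NIx} {B : ℕ} {v : Str}
    (h : Free q v) (h' : ∀ x, v ≠ code j B x) : Free (addc q j i B) v := by
  refine ⟨h.1, ?_⟩
  intro j' i' B' x hE hv
  by_cases h1 : j' = j
  · subst h1
    simp only [addc, Function.update_self, Option.some.injEq, Prod.mk.injEq] at hE
    rw [← hE.2] at hv
    exact h' x hv
  · simp only [addc, Function.update_of_ne h1] at hE
    exact h.2 j' i' B' x hE hv

theorem free_of_false (q : Cond) (v : Str) : Free q (false :: v) := by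
  refine ⟨false_not_tab v, ?_⟩
  intro j i B x _ h
  simp [code] at h

end Pool.Agent.Lib.Pa76659
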