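import Pool.Agent.Lib.Pa76659.Switch

/-!
Counting bounds for the switching lemma.
-/

namespace Pool.Agent.Lib.Pa76659.Switch

open Pool.Agent.Lib.Pa76659

variable {V B : Type} [DecidableEq V] [DecidableEq B] (β : V → B)

/-- extension of a finite restriction by `1` -/
def ext {Q : ℕ} (SE : Finset (V ⊕ B)) (f : SE → Fin Q) : V ⊕ B → ℕ :=
  fun e => if h : e ∈ SE then (f ⟨e, h⟩ : ℕ) else 1

theorem ext_mem {Q : ℕ} (SE : Finset (V ⊕ B)) (f : SE → Fin Q) {e : V ⊕ B} (h : e ∈ SE) :
    ext SE f e = (f ⟨e, h⟩ : ℕ) := by simp [ext, h]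

theorem ext_not_mem {Q : ℕ} (SE : Finset (V ⊕ B)) (f : SE → Fin Q) {e : V ⊕ B} (h : e ∉ SE) :
    ext SE f e = 1 := by simp [ext, h]

open Classical in
theorem hard_inj (t Q : ℕ) (SE : Finset (V ⊕ B)) (F : List (List (V × Bool)))
    (hF : ∀ T ∈ F, T.length ≤ t ∧ (T.map Prod.fst).Nodup) (s : ℕ) :
    (Finset.univ.filter (fun f : SE → Fin (Q + 1) =>
      Hard β F (ext SE f) (fun _ => none) s)).card * Q ^ s
      ≤ Fintype.card (SE → Fin (Q + 1)) * (4 * t) ^ s := by
  letI : BEq (V ⊕ B) := instBEqOfDecidableEq
  set Bad := Finset.univ.filter (fun f : SE → Fin (Q + 1) =>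
      Hard β F (ext SE f) (fun _ => none) s) with hBad
  have hcore : ∀ f : Bad, ∃ (I : List Info) (mods : List (V ⊕ B)), I.length = s ∧
      (∀ i ∈ I, i.1 < t) ∧
      mods.length = s ∧ mods.Nodup ∧ ModOK β (ext SE f.1) (fun _ => none) mods ∧
      ∀ ρ' : V ⊕ B → ℕ, (∀ e, e ∉ mods → ρ' e = ext SE f.1 e) → (∀ e ∈ mods, ρ' e ≠ 0) →
        dec β F ρ' (fun _ => none) I = mods := by
    intro f
    have := (Finset.mem_filter.1 f.2).2
    exact core β t _ F hF _ s this
  choose I mods h1 h2 h3 h4 h5 h6 using hcore
  -- the encoding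
  let enc : Bad × (Fin s → Fin Q) → (SE → Fin (Q + 1)) × (Fin s → Fin t × Bool × Bool) :=
    fun p => (fun e => if h : e.1 ∈ mods p.1 then
        (p.2 ⟨(mods p.1).idxOf e.1, by
          have := List.idxOf_lt_length_of_mem h
          rwa [h3] at this⟩).succ else p.1.1 e,
      fun i => (⟨((I p.1)[i.1]'(by rw [h1]; exact i.2)).1, h2 _ _ (List.getElem_mem _)⟩,
        ((I p.1)[i.1]'(by rw [h1]; exact i.2)).2))
  have hmem : ∀ f : Bad, ∀ e ∈ mods f, e ∈ SE := by
    intro f e he
    by_contra hne
    have := (h5 f e he).1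
    rw [ext_not_mem SE f.1 hne] at this
    simp at this
  have hdec : ∀ p : Bad × (Fin s → Fin Q), dec β F (ext SE (enc p).1) (fun _ => none) (I p.1)
      = mods p.1 := by
    intro p
    apply h6
    · intro e he
      by_cases hs : e ∈ SE
      · rw [ext_mem SE _ hs, ext_mem SE _ hs]
        simp [enc, he]
      · rw [ext_not_mem SE _ hs, ext_not_mem SE _ hs]
    · intro e he
      rw [ext_mem SE _ (hmem _ e he)]
      simp [enc, he]
  have hinj : Function.Injective enc := by
    rintro ⟨f, g⟩ ⟨f', g'⟩ hEq
    have e1 : (enc (f, g)).1 = (enc (f', g')).1 := by rw [hEq]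
    have e2 : (enc (f, g)).2 = (enc (f', g')).2 := by rw [hEq]
    have eI : I f = I f' := by
      apply List.ext_getElem
      · rw [h1, h1]
      · intro i hi1 hi2
        have hi : i < s := by rw [h1] at hi1; exact hi1
        have := congrFun e2 ⟨i, hi⟩
        simp only [enc, Prod.mk.injEq, Fin.mk.injEq] at this
        exact Prod.ext this.1 this.2
    have em : mods f = mods f' := by
      rw [← hdec (f, g), ← hdec (f', g'), e1]
      simp only [eI]
    have ef : f = f' := by
      apply Subtype.ext
      funext e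
      by_cases he : e.1 ∈ mods f
      · have a1 := (h5 f _ he).1
        have he' : e.1 ∈ mods f' := by rw [← em]; exact he
        have a2 := (h5 f' _ he').1
        rw [ext_mem SE _ e.2] at a1 a2
        apply Fin.ext
        rw [a1, a2]
      · have he' : e.1 ∉ mods f' := by rw [← em]; exact he
        have := congrFun e1 e
        simpa [enc, he, he'] using this
    subst ef
    refine Prod.ext rfl ?_
    funext i
    have hi : i.1 < (mods f).length := by rw [h3]; exact i.2
    have hmemi : (mods f)[i.1] ∈ mods f := List.getElem_mem _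
    have := congrFun e1 ⟨(mods f)[i.1], hmem f _ hmemi⟩
    simp only [enc, hmemi, dite_true, Fin.succ_inj] at this
    have hidx : (mods f).idxOf (mods f)[i.1] = i.1 := (h4 f).idxOf_getElem i.1 hi
    have e3 : (⟨(mods f).idxOf (mods f)[i.1], by rw [hidx]; exact i.2⟩ : Fin s) = i :=
      Fin.ext hidx
    rw [e3] at this
    exact this
  have hcard := Fintype.card_le_of_injective enc hinj
  rw [Fintype.card_prod, Fintype.card_prod] at hcard
  simp only [Fintype.card_fun, Fintype.card_fin, Fintype.card_prod, Fintype.card_bool,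
    Fintype.card_coe] at hcard ⊢
  calc _ ≤ _ := hcard
    _ = _ := by ring

open Classical in
theorem hard_count (t Q : ℕ) (hQ : 8 * t + 8 ≤ Q) (SE : Finset (V ⊕ B))
    (F : List (List (V × Bool)))
    (hF : ∀ T ∈ F, T.length ≤ t ∧ (T.map Prod.fst).Nodup) (s : ℕ) :
    (Finset.univ.filter (fun f : SE → Fin (Q + 1) =>
      Hard β F (ext SE f) (fun _ => none) s)).card * 2 ^ s
      ≤ Fintype.card (SE → Fin (Q + 1)) := by
  have h1 := hard_inj β t Q SE F hF s
  set c := (Finset.univ.filter (fun f : SE → Fin (Q + 1) =>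
      Hard β F (ext SE f) (fun _ => none) s)).card
  set N := Fintype.card (SE → Fin (Q + 1))
  have hQ0 : 0 < Q ^ s := Nat.pow_pos (by omega)
  have h2 : c * 2 ^ s * Q ^ s ≤ N * Q ^ s := by
    calc c * 2 ^ s * Q ^ s = (c * Q ^ s) * 2 ^ s := by ring
      _ ≤ (N * (4 * t) ^ s) * 2 ^ s := Nat.mul_le_mul_right _ h1
      _ = N * (8 * t) ^ s := by
          rw [mul_assoc, ← mul_pow]
          congr 2
          ring
      _ ≤ N * Q ^ s := Nat.mul_le_mul_left _ (Nat.pow_le_pow_left (by omega) _)
  exact Nat.le_of_mul_le_mul_right h2 hQ0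

/-- fraction of restrictions which do not vanish on `A` -/
theorem count_nonzero (Q : ℕ) {ι : Type} [Fintype ι] [DecidableEq ι] (A : Finset ι) (c : ℕ)
    (hA : (Q + 1) * c ≤ A.card) (hQ : 1 ≤ Q) :
    (Finset.univ.filter (fun f : ι → Fin (Q + 1) => ∀ e ∈ A, f e ≠ 0)).card * 2 ^ c
      ≤ Fintype.card (ι → Fin (Q + 1)) := by
  have h1 : (Finset.univ.filter (fun f : ι → Fin (Q + 1) => ∀ e ∈ A, f e ≠ 0)) =
      Fintype.piFinset (fun e => if e ∈ A then Finset.univ.erase 0 else Finset.univ) := by
    ext f
    simp only [Finset.mem_filter, Finset.mem_univ, true_and, Fintype.mem_piFinset]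
    constructor
    · intro h e
      split_ifs with he
      · simp [h e he]
      · simp
    · intro h e he
      have := h e
      rw [if_pos he] at this
      exact (Finset.mem_erase.1 this).1
  have h2 : (Fintype.piFinset (fun e => if e ∈ A then (Finset.univ : Finset (Fin (Q+1))).erase 0
      else Finset.univ)).card = Q ^ A.card * (Q + 1) ^ (Fintype.card ι - A.card) := by
    rw [Fintype.card_piFinset]
    have : ∀ e, (if e ∈ A then (Finset.univ : Finset (Fin (Q+1))).erase 0 else Finset.univ).card
        = if e ∈ A then Q else Q + 1 := by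
      intro e
      split_ifs
      · rw [Finset.card_erase_of_mem (Finset.mem_univ _)]; simp
      · simp
    simp only [this]
    rw [Finset.prod_ite, Finset.prod_const, Finset.prod_const]
    congr 2
    · congr 1
      ext; simp
    · rw [← Finset.card_compl]
      congr 1
      ext; simp
  rw [h1, h2, Fintype.card_fun, Fintype.card_fin]
  have hle : A.card ≤ Fintype.card ι := Finset.card_le_univ A
  -- `2 * Q ^ (Q+1) ≤ (Q+1)^(Q+1)`
  have h3 : 2 * Q ^ (Q + 1) ≤ (Q + 1) ^ (Q + 1) := by
    have h4 : ∀ n : ℕ, Q ^ (n + 1) + (n + 1) * Q ^ n ≤ (Q + 1) ^ (n + 1) := by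
      intro n
      induction n with
      | zero => simp
      | succ n ih =>
          calc Q ^ (n + 1 + 1) + (n + 1 + 1) * Q ^ (n + 1)
              ≤ (Q ^ (n + 1) + (n + 1) * Q ^ n) * (Q + 1) := by
                have : (Q ^ (n + 1) + (n + 1) * Q ^ n) * (Q + 1) =
                  Q ^ (n + 1 + 1) + (n + 1 + 1) * Q ^ (n + 1) + (n + 1) * Q ^ n := by ring
                omega
            _ ≤ (Q + 1) ^ (n + 1) * (Q + 1) := Nat.mul_le_mul_right _ ih
            _ = (Q + 1) ^ (n + 1 + 1) := by ring
    have h5 := h4 Q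
    have h6 : (Q + 1) * Q ^ Q = Q ^ (Q + 1) + Q ^ Q := by ring
    omega
  have h5 : Q ^ A.card * 2 ^ c ≤ (Q + 1) ^ A.card := by
    obtain ⟨d, hd⟩ := Nat.exists_eq_add_of_le hA
    rw [hd, pow_add, pow_add, pow_mul, pow_mul]
    calc (Q ^ (Q + 1)) ^ c * Q ^ d * 2 ^ c = (2 * Q ^ (Q + 1)) ^ c * Q ^ d := by
          rw [mul_pow]; ring
      _ ≤ ((Q + 1) ^ (Q + 1)) ^ c * (Q + 1) ^ d :=
          Nat.mul_le_mul (Nat.pow_le_pow_left h3 _) (Nat.pow_le_pow_left (by omega) _)
  calc Q ^ A.card * (Q + 1) ^ (Fintype.card ι - A.card) * 2 ^ c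
      = (Q ^ A.card * 2 ^ c) * (Q + 1) ^ (Fintype.card ι - A.card) := by ring
    _ ≤ (Q + 1) ^ A.card * (Q + 1) ^ (Fintype.card ι - A.card) := Nat.mul_le_mul_right _ h5
    _ = (Q + 1) ^ Fintype.card ι := by rw [← pow_add]; congr 1; omega

/-! ### decision trees and terms -/

/-- paths of the decision tree to leaves labelled `c` -/
def paths {V : Type} : DT V Bool → Bool → List (List (V × Bool))
  | DT.leaf a, c => if a = c then [[]] else []
  | DT.node v f t, c => (paths f c).map (fun p => (v, false) :: p) ++
      (paths t c).map (fun p => (v, true) :: p)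

theorem paths_eval {V : Type} (c : Bool) (x : V → Bool) : ∀ T : DT V Bool,
    T.eval x = c ↔ ∃ p ∈ paths T c, evalT p x
  | DT.leaf a => by
      simp only [DT.eval, paths]
      by_cases h : a = c <;> simp [h, evalT]
  | DT.node v f t => by
      simp only [DT.eval, paths]
      have h1 := paths_eval c x f
      have h2 := paths_eval c x t
      constructor
      · intro h
        split_ifs at h with hv
        · obtain ⟨p, hp, hp2⟩ := h2.1 h
          refine ⟨(v, true) :: p, ?_, ?_⟩
          · rw [List.mem_append]; right; exact List.mem_map_of_mem hp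
          · intro l hl
            rcases List.mem_cons.1 hl with hl | hl
            · subst hl; exact hv
            · exact hp2 l hl
        · obtain ⟨p, hp, hp2⟩ := h1.1 h
          refine ⟨(v, false) :: p, ?_, ?_⟩
          · rw [List.mem_append]; left; exact List.mem_map_of_mem hp
          · intro l hl
            rcases List.mem_cons.1 hl with hl | hl
            · subst hl; simpa using hv
            · exact hp2 l hl
      · rintro ⟨p, hp, hp2⟩
        rcases List.mem_append.1 hp with hp | hp
        · obtain ⟨p', hp', rfl⟩ := List.mem_map.1 hp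
          have h3 : x v = false := hp2 (v, false) (by simp)
          rw [h3]
          simp only [Bool.false_eq_true, if_false]
          exact h1.2 ⟨p', hp', fun l hl => hp2 l (by simp [hl])⟩
        · obtain ⟨p', hp', rfl⟩ := List.mem_map.1 hp
          have h3 : x v = true := hp2 (v, true) (by simp)
          rw [h3]
          simp only [if_true]
          exact h2.2 ⟨p', hp', fun l hl => hp2 l (by simp [hl])⟩

theorem paths_length {V : Type} (c : Bool) : ∀ T : DT V Bool, ∀ p ∈ paths T c, p.length ≤ T.depth
  | DT.leaf a => by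
      intro p hp
      simp only [paths] at hp
      split_ifs at hp <;> simp_all
  | DT.node v f t => by
      intro p hp
      simp only [paths] at hp
      rcases List.mem_append.1 hp with hp | hp
      · obtain ⟨p', hp', rfl⟩ := List.mem_map.1 hp
        have := paths_length c f p' hp'
        simp only [List.length_cons, DT.depth]; omega
      · obtain ⟨p', hp', rfl⟩ := List.mem_map.1 hp
        have := paths_length c t p' hp'
        simp only [List.length_cons, DT.depth]; omega

theorem paths_qin {V : Type} (c : Bool) (S : Set V) : ∀ T : DT V Bool, T.QIn S →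
    ∀ p ∈ paths T c, ∀ l ∈ p, l.1 ∈ S
  | DT.leaf a => by
      intro _ p hp
      simp only [paths] at hp
      split_ifs at hp <;> simp_all
  | DT.node v f t => by
      rintro ⟨h1, h2, h3⟩ p hp
      simp only [paths] at hp
      rcases List.mem_append.1 hp with hp | hp
      · obtain ⟨p', hp', rfl⟩ := List.mem_map.1 hp
        intro l hl
        rcases List.mem_cons.1 hl with hl | hl
        · subst hl; exact h1
        · exact paths_qin c S f h2 p' hp' l hl
      · obtain ⟨p', hp', rfl⟩ := List.mem_map.1 hp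
        intro l hl
        rcases List.mem_cons.1 hl with hl | hl
        · subst hl; exact h1
        · exact paths_qin c S t h3 p' hp' l hl

theorem paths_count {V : Type} (c : Bool) : ∀ T : DT V Bool,
    (paths T c).length ≤ 2 ^ T.depth
  | DT.leaf a => by
      simp only [paths]
      split_ifs <;> simp [DT.depth]
  | DT.node v f t => by
      have h1 := paths_count c f
      have h2 := paths_count c t
      simp only [paths, List.length_append, List.length_map, DT.depth]
      have h3 : 2 ^ f.depth ≤ 2 ^ max f.depth t.depth :=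
        Nat.pow_le_pow_right (by norm_num) (le_max_left _ _)
      have h4 : 2 ^ t.depth ≤ 2 ^ max f.depth t.depth :=
        Nat.pow_le_pow_right (by norm_num) (le_max_right _ _)
      rw [pow_succ]
      omega

/-- conversion of a depth one circuit to a DNF -/
theorem toDNF {w t : ℕ} {f : (V → Bool) → Bool} (hf : IsC Set.univ w t 1 f) :
    ∃ F : List (List (V × Bool)), (∀ T ∈ F, T.length ≤ t ∧ (T.map Prod.fst).Nodup) ∧
      ∀ x, f x = true ↔ evalF F x := by
  classical
  obtain ⟨g, h1, h2⟩ := hf
  choose T hT1 hT2 hT3 using h1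
  let all : List (List (V × Bool)) := (List.finRange (2 ^ w)).flatMap (fun j => paths (T j) false)
  let cons : List (V × Bool) → Prop := fun p => ∀ l ∈ p, ∀ l' ∈ p, l.1 = l'.1 → l = l'
  refine ⟨(all.filter (fun p => decide (cons p))).map List.dedup, ?_, ?_⟩
  · intro p hp
    obtain ⟨p', hp', rfl⟩ := List.mem_map.1 hp
    obtain ⟨h3, h4⟩ := List.mem_filter.1 hp'
    have h4 : cons p' := by simpa using h4
    obtain ⟨j, _, hj⟩ := List.mem_flatMap.1 h3
    constructor
    · exact ((List.dedup_sublist p').length_le).trans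
        ((paths_length _ _ _ hj).trans (hT1 j))
    · apply (List.nodup_dedup p').map_on
      intro l hl l' hl' hll
      exact h4 l (List.mem_dedup.1 hl) l' (List.mem_dedup.1 hl') hll
  · intro x
    rw [h2]
    constructor
    · rintro ⟨j, hj⟩
      rw [hT3, paths_eval] at hj
      obtain ⟨p, hp, hp2⟩ := hj
      refine ⟨p.dedup, ?_, fun l hl => hp2 l (List.mem_dedup.1 hl)⟩
      apply List.mem_map_of_mem
      rw [List.mem_filter]
      refine ⟨List.mem_flatMap.2 ⟨j, List.mem_finRange j, hp⟩, ?_⟩
      simp only [decide_eq_true_eq]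
      intro l hl l' hl' hll
      refine Prod.ext hll ?_
      rw [← hp2 l hl, ← hp2 l' hl', hll]
    · rintro ⟨p, hp, hp2⟩
      obtain ⟨p', hp', rfl⟩ := List.mem_map.1 hp
      obtain ⟨h3, h4⟩ := List.mem_filter.1 hp'
      obtain ⟨j, _, hj⟩ := List.mem_flatMap.1 h3
      refine ⟨j, ?_⟩
      rw [hT3, paths_eval]
      exact ⟨p', hj, fun l hl => hp2 l (List.mem_dedup.2 hl)⟩

end Pool.Agent.Lib.Pa76659.Switch
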