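import Mathlib

/-!
Decision trees and the classes `IsC S w t k` of functions computed by OR-NOT circuits of depth `k`,
with fan-in `2^w`, on top of decision trees of depth `t` which only query variables in `S`.
-/

namespace Pool.Agent.Lib.Pa76659

/-- Decision trees with variables in `V` and leaves in `α`. -/
inductive DT (V : Type*) (α : Type*)
  | leaf : α → DT V α
  | node : V → DT V α → DT V α → DT V α

namespace DT

variable {V V' α β : Type*}

/-- evaluation; `node v f t` goes to `t` if `x v` is true and to `f` otherwise -/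
def eval (x : V → Bool) : DT V α → α
  | leaf a => a
  | node v f t => if x v = true then t.eval x else f.eval x

def depth : DT V α → ℕ
  | leaf _ => 0
  | node _ f t => max f.depth t.depth + 1

/-- all queries are in `S` -/
def QIn (S : Set V) : DT V α → Prop
  | leaf _ => True
  | node v f t => v ∈ S ∧ f.QIn S ∧ t.QIn S

theorem QIn.mono {S S' : Set V} (h : S ⊆ S') : ∀ {T : DT V α}, T.QIn S → T.QIn S'
  | leaf _, _ => trivial
  | node _ _ _, ⟨h1, h2, h3⟩ => ⟨h h1, h2.mono h, h3.mono h⟩

theorem eval_congr {S : Set V} {x y : V → Bool} (h : ∀ v ∈ S, x v = y v) :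
    ∀ {T : DT V α}, T.QIn S → T.eval x = T.eval y
  | leaf _, _ => rfl
  | node v f t, ⟨h1, h2, h3⟩ => by
      simp only [eval, h v h1, eval_congr h h2, eval_congr h h3]

/-- map the leaves -/
def map (g : α → β) : DT V α → DT V β
  | leaf a => leaf (g a)
  | node v f t => node v (f.map g) (t.map g)

@[simp] theorem eval_map (g : α → β) (x : V → Bool) :
    ∀ T : DT V α, (T.map g).eval x = g (T.eval x)
  | leaf _ => rfl
  | node v f t => by
      simp only [map, eval, eval_map g x f, eval_map g x t]
      split_ifs <;> rfl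

@[simp] theorem depth_map (g : α → β) : ∀ T : DT V α, (T.map g).depth = T.depth
  | leaf _ => rfl
  | node v f t => by simp only [map, depth, depth_map g f, depth_map g t]

theorem QIn.map {S : Set V} (g : α → β) : ∀ {T : DT V α}, T.QIn S → (T.map g).QIn S
  | leaf _, _ => trivial
  | node _ _ _, ⟨h1, h2, h3⟩ => ⟨h1, QIn.map g h2, QIn.map g h3⟩

/-- replace each leaf by a tree -/
def bind (T : DT V α) (g : α → DT V β) : DT V β :=
  match T with
  | leaf a => g a
  | node v f t => node v (f.bind g) (t.bind g)

@[simp] theorem eval_bind (g : α → DT V β) (x : V → Bool) :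
    ∀ T : DT V α, (T.bind g).eval x = (g (T.eval x)).eval x
  | leaf _ => rfl
  | node v f t => by
      simp only [bind, eval, eval_bind g x f, eval_bind g x t]
      split_ifs <;> rfl

theorem depth_bind (g : α → DT V β) (d : ℕ) (hg : ∀ a, (g a).depth ≤ d) :
    ∀ T : DT V α, (T.bind g).depth ≤ T.depth + d
  | leaf a => by simpa [bind, depth] using hg a
  | node v f t => by
      have h1 := depth_bind g d hg f
      have h2 := depth_bind g d hg t
      simp only [bind, depth]
      omega

theorem QIn.bind {S : Set V} {g : α → DT V β} (hg : ∀ a, (g a).QIn S) :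
    ∀ {T : DT V α}, T.QIn S → (T.bind g).QIn S
  | leaf a, _ => hg a
  | node _ _ _, ⟨h1, h2, h3⟩ => ⟨h1, QIn.bind hg h2, QIn.bind hg h3⟩

/-- substitute trees for variables -/
def subst (sub : V → DT V' Bool) : DT V α → DT V' α
  | leaf a => leaf a
  | node v f t => (sub v).bind (fun b => if b = true then t.subst sub else f.subst sub)

theorem eval_subst (sub : V → DT V' Bool) (x : V' → Bool) :
    ∀ T : DT V α, (T.subst sub).eval x = T.eval (fun v => (sub v).eval x)
  | leaf _ => rfl
  | node v f t => by
      simp only [subst, eval_bind, eval]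
      split_ifs with h
      · exact eval_subst sub x t
      · exact eval_subst sub x f

theorem depth_subst (sub : V → DT V' Bool) (S : Set V) (d : ℕ)
    (hd : ∀ v ∈ S, (sub v).depth ≤ d) :
    ∀ T : DT V α, T.QIn S → (T.subst sub).depth ≤ T.depth * d
  | leaf _, _ => by simp [subst, depth]
  | node v f t, ⟨h1, h2, h3⟩ => by
      have i1 := depth_subst sub S d hd f h2
      have i2 := depth_subst sub S d hd t h3
      have i3 : ((sub v).bind (fun b => if b = true then t.subst sub else f.subst sub)).depth
          ≤ (sub v).depth + max f.depth t.depth * d := by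
        apply depth_bind
        intro b
        have e1 : f.depth * d ≤ max f.depth t.depth * d :=
          Nat.mul_le_mul_right _ (le_max_left _ _)
        have e2 : t.depth * d ≤ max f.depth t.depth * d :=
          Nat.mul_le_mul_right _ (le_max_right _ _)
        split_ifs
        · omega
        · omega
      have i4 := hd v h1
      simp only [subst, depth]
      calc _ ≤ (sub v).depth + max f.depth t.depth * d := i3
        _ ≤ d + max f.depth t.depth * d := by omega
        _ = (max f.depth t.depth + 1) * d := by ring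

theorem QIn.subst {S : Set V} {S' : Set V'} {sub : V → DT V' Bool}
    (hs : ∀ v ∈ S, (sub v).QIn S') :
    ∀ {T : DT V α}, T.QIn S → (T.subst sub).QIn S'
  | leaf _, _ => trivial
  | node v f t, ⟨h1, h2, h3⟩ => by
      simp only [DT.subst]
      apply QIn.bind _ (hs v h1)
      intro b
      split_ifs
      · exact QIn.subst hs h3
      · exact QIn.subst hs h2

end DT

section IsC

variable {V V' : Type*}

/-- OR-NOT circuits of depth `k`. -/
def IsC (S : Set V) (w t : ℕ) : ℕ → ((V → Bool) → Bool) → Prop
  | 0, f => ∃ T : DT V Bool, T.depth ≤ t ∧ T.QIn S ∧ ∀ x, f x = T.eval x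
  | k + 1, f => ∃ g : Fin (2 ^ w) → ((V → Bool) → Bool),
      (∀ j, IsC S w t k (g j)) ∧ ∀ x, (f x = true ↔ ∃ j, g j x = false)

theorem IsC.congr {S : Set V} {w t k : ℕ} {f g : (V → Bool) → Bool} (h : IsC S w t k f)
    (e : ∀ x, f x = g x) : IsC S w t k g := by
  have : f = g := funext e
  rwa [← this]

theorem IsC.const (S : Set V) (w t : ℕ) (k : ℕ) (b : Bool) : IsC S w t k (fun _ => b) := by
  induction k generalizing b with
  | zero => exact ⟨DT.leaf b, by simp [DT.depth], trivial, fun _ => rfl⟩
  | succ k ih =>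
      refine ⟨fun _ _ => !b, fun _ => ih _, fun x => ?_⟩
      have : Nonempty (Fin (2 ^ w)) := ⟨⟨0, by positivity⟩⟩
      cases b <;> simp

/-- general introduction rule for one more level -/
theorem IsC.of_exists {S : Set V} {w t k : ℕ} {ι : Type*} [Fintype ι]
    (hc : Fintype.card ι ≤ 2 ^ w) (g : ι → (V → Bool) → Bool) (hg : ∀ i, IsC S w t k (g i))
    {f : (V → Bool) → Bool} (hf : ∀ x, (f x = true ↔ ∃ i, g i x = false)) :
    IsC S w t (k + 1) f := by
  classical
  let e : ι → Fin (2 ^ w) := fun i => Fin.castLE hc (Fintype.equivFin ι i)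
  have he : Function.Injective e := by
    intro i j hij
    exact (Fintype.equivFin ι).injective (Fin.castLE_injective hc hij)
  refine ⟨fun j => if h : ∃ i, e i = j then g h.choose else fun _ => true, ?_, ?_⟩
  · intro j
    by_cases h : ∃ i, e i = j
    · simp only [h, dite_true]; exact hg _
    · simp only [h, dite_false]; exact IsC.const _ _ _ _ _
  · intro x
    rw [hf]
    constructor
    · rintro ⟨i, hi⟩
      refine ⟨e i, ?_⟩
      have h : ∃ i', e i' = e i := ⟨i, rfl⟩
      have h2 : h.choose = i := he h.choose_spec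
      simp only [h, dite_true, h2, hi]
    · rintro ⟨j, hj⟩
      by_cases h : ∃ i, e i = j
      · simp only [h, dite_true] at hj
        exact ⟨_, hj⟩
      · simp [h] at hj

theorem IsC.mono {S S' : Set V} (hS : S ⊆ S') {w w' t t' : ℕ} (hw : w ≤ w') (ht : t ≤ t') :
    ∀ {k : ℕ} {f : (V → Bool) → Bool}, IsC S w t k f → IsC S' w' t' k f
  | 0, _, ⟨T, h1, h2, h3⟩ => ⟨T, h1.trans ht, h2.mono hS, h3⟩
  | k + 1, _, ⟨g, h1, h2⟩ => by
      refine IsC.of_exists (ι := Fin (2 ^ w)) ?_ g (fun j => (h1 j).mono hS hw ht) h2
      simpa using Nat.pow_le_pow_right (by norm_num) hw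

theorem IsC.lift {S : Set V} {w t : ℕ} :
    ∀ {k : ℕ} {f : (V → Bool) → Bool}, IsC S w t k f → IsC S w t (k + 1) f
  | 0, f, ⟨T, h1, h2, h3⟩ => by
      have h4 : IsC S w t 0 (fun x => !(f x)) :=
        ⟨T.map (fun b => !b), by simpa using h1, h2.map _, fun x => by simp [h3]⟩
      exact IsC.of_exists (ι := Unit) (by simp [Nat.one_le_two_pow])
        (fun _ x => !(f x)) (fun _ => h4) (fun x => by simp)
  | k + 1, f, ⟨g, h1, h2⟩ => ⟨g, fun j => (h1 j).lift, h2⟩

theorem IsC.lift_le {S : Set V} {w t k k' : ℕ} (hk : k ≤ k') {f : (V → Bool) → Bool}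
    (h : IsC S w t k f) : IsC S w t k' f := by
  induction k', hk using Nat.le_induction with
  | base => exact h
  | succ n _ ih => exact ih.lift

/-- The negation of a depth `k` circuit is a depth `k+1` circuit. -/
theorem IsC.not {S : Set V} {w t k : ℕ} {f : (V → Bool) → Bool} (h : IsC S w t k f) :
    IsC S w t (k + 1) (fun x => !(f x)) := by
  refine IsC.of_exists (ι := Unit) (by simp [Nat.one_le_two_pow]) (fun _ => f) (fun _ => h)
    (fun x => by simp)

/-- Substitution of decision trees for variables. -/
theorem IsC.subst {S : Set V} {S' : Set V'} {w t d : ℕ} (sub : V → DT V' Bool)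
    (hd : ∀ v ∈ S, (sub v).depth ≤ d) (hq : ∀ v ∈ S, (sub v).QIn S') :
    ∀ {k : ℕ} {f : (V → Bool) → Bool}, IsC S w t k f →
      IsC S' w (t * d) k (fun x => f (fun v => (sub v).eval x))
  | 0, f, ⟨T, h1, h2, h3⟩ =>
      ⟨T.subst sub, (DT.depth_subst sub S d hd T h2).trans (Nat.mul_le_mul_right _ h1),
        h2.subst hq, fun x => by rw [DT.eval_subst]; exact h3 _⟩
  | k + 1, f, ⟨g, h1, h2⟩ =>
      ⟨fun j x => g j (fun v => (sub v).eval x), fun j => (h1 j).subst sub hd hq,
        fun x => h2 _⟩

/-- Replacement of variables by variables or constants. -/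
theorem IsC.rename {S : Set V} {S' : Set V'} {w t : ℕ} (φ : V → V' ⊕ Bool)
    (hφ : ∀ v ∈ S, ∀ v', φ v = Sum.inl v' → v' ∈ S')
    {k : ℕ} {f : (V → Bool) → Bool} (h : IsC S w t k f) :
    IsC S' w t k (fun x => f (fun v => Sum.elim x id (φ v))) := by
  let sub : V → DT V' Bool := fun v =>
    match φ v with
    | Sum.inl v' => DT.node v' (DT.leaf false) (DT.leaf true)
    | Sum.inr b => DT.leaf b
  have h1 : ∀ x : V' → Bool, ∀ v, (sub v).eval x = Sum.elim x id (φ v) := by
    intro x v
    simp only [sub]
    cases φ v with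
    | inl v' => simp only [DT.eval, Sum.elim_inl]; cases x v' <;> simp
    | inr b => simp [DT.eval]
  have h2 := h.subst (S' := S') (d := 1) sub (by
    intro v _
    simp only [sub]
    cases φ v <;> simp [DT.depth]) (by
    intro v hv
    simp only [sub]
    cases e : φ v with
    | inl v' => exact ⟨hφ v hv v' e, trivial, trivial⟩
    | inr b => trivial)
  rw [mul_one] at h2
  refine h2.congr (fun x => ?_)
  congr 1
  funext v
  exact h1 x v

theorem IsC.eval_congr {S : Set V} {w t : ℕ} {x y : V → Bool} (h : ∀ v ∈ S, x v = y v) :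
    ∀ {k : ℕ} {f : (V → Bool) → Bool}, IsC S w t k f → f x = f y
  | 0, f, ⟨T, _, h2, h3⟩ => by rw [h3, h3, DT.eval_congr h h2]
  | k + 1, f, ⟨g, h1, h2⟩ => by
      have : (f x = true ↔ f y = true) := by
        rw [h2, h2]
        constructor
        · rintro ⟨j, hj⟩; exact ⟨j, by rw [← IsC.eval_congr h (h1 j)]; exact hj⟩
        · rintro ⟨j, hj⟩; exact ⟨j, by rw [IsC.eval_congr h (h1 j)]; exact hj⟩
      cases h4 : f x <;> cases h5 : f y <;> simp_all

/-- closure under unions -/
theorem IsC.exists_or {S : Set V} {w a t k : ℕ} {ι : Type*} [Fintype ι]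
    (hc : Fintype.card ι ≤ 2 ^ a) (g : ι → (V → Bool) → Bool)
    (hg : ∀ i, IsC S w t (k + 1) (g i)) {f : (V → Bool) → Bool}
    (hf : ∀ x, (f x = true ↔ ∃ i, g i x = true)) :
    IsC S (a + w) t (k + 1) f := by
  classical
  choose h h1 h2 using hg
  refine IsC.of_exists (ι := ι × Fin (2 ^ w)) ?_ (fun p => h p.1 p.2)
    (fun p => (h1 p.1 p.2).mono (subset_refl _) (by omega) le_rfl) ?_
  · rw [Fintype.card_prod, Fintype.card_fin, pow_add]
    exact Nat.mul_le_mul_right _ hc
  · intro x
    rw [hf]
    constructor
    · rintro ⟨i, hi⟩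
      obtain ⟨j, hj⟩ := (h2 i x).1 hi
      exact ⟨(i, j), hj⟩
    · rintro ⟨⟨i, j⟩, hj⟩
      exact ⟨i, (h2 i x).2 ⟨j, hj⟩⟩

theorem IsC.or {S : Set V} {w w' t t' k : ℕ} {f g : (V → Bool) → Bool}
    (hf : IsC S w t k f) (hg : IsC S w' t' k g) :
    IsC S (w + w' + 1) (t + t') k (fun x => f x || g x) := by
  cases k with
  | zero =>
      obtain ⟨T, h1, h2, h3⟩ := hf
      obtain ⟨T', h1', h2', h3'⟩ := hg
      refine ⟨T.bind (fun b => if b = true then DT.leaf true else T'), ?_, ?_, ?_⟩
      · refine (DT.depth_bind _ T'.depth ?_ T).trans (by omega)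
        intro b; split_ifs
        · simp [DT.depth]
        · exact le_rfl
      · apply h2.bind
        intro b; split_ifs
        · trivial
        · exact h2'
      · intro x
        simp only [DT.eval_bind, h3, h3']
        cases T.eval x <;> simp [DT.eval]
  | succ k =>
      have h1 : ∀ i : Bool, IsC S (w + w') (t + t') (k + 1) (if i = true then f else g) := by
        intro i
        split_ifs
        · exact hf.mono (subset_refl _) (by omega) (by omega)
        · exact hg.mono (subset_refl _) (by omega) (by omega)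
      have h2 := IsC.exists_or (ι := Bool) (a := 1) (by simp) (fun i => if i = true then f else g)
        h1 (f := fun x => f x || g x) (by intro x; simp [or_comm])
      rwa [add_comm 1] at h2

theorem IsC.and {S : Set V} {w w' t t' k : ℕ} {f g : (V → Bool) → Bool}
    (hf : IsC S w t (k + 1) f) (hg : IsC S w' t' (k + 1) g) :
    IsC S (w + w' + 1) (t + t') (k + 1) (fun x => f x && g x) := by
  obtain ⟨f', h1, h2⟩ := hf
  obtain ⟨g', h1', h2'⟩ := hg
  refine IsC.of_exists (ι := Fin (2 ^ w) × Fin (2 ^ w')) ?_
    (fun p x => f' p.1 x || g' p.2 x) (fun p => (h1 p.1).or (h1' p.2)) ?_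
  · rw [Fintype.card_prod, Fintype.card_fin, Fintype.card_fin, ← pow_add]
    exact Nat.pow_le_pow_right (by norm_num) (by omega)
  · intro x
    simp only [Bool.and_eq_true, h2, h2', Bool.or_eq_false_iff, Prod.exists]
    constructor
    · rintro ⟨⟨a, ha⟩, ⟨b, hb⟩⟩; exact ⟨a, b, ha, hb⟩
    · rintro ⟨a, b, ha, hb⟩; exact ⟨⟨a, ha⟩, ⟨b, hb⟩⟩

/-- A decision tree whose variables are depth `k` circuits is a depth `k+1` circuit. -/
theorem IsC.dtree {S : Set V} {w t k : ℕ} {U : Type*} (S' : Set U) (h : U → (V → Bool) → Bool)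
    (hh : ∀ u ∈ S', IsC S w t k (h u)) (T : DT U Bool) (hT : T.QIn S') :
    IsC S (T.depth * (w + 3)) (T.depth * t) (k + 1) (fun x => T.eval (fun u => h u x)) := by
  induction T with
  | leaf b => exact IsC.const _ _ _ _ _
  | node u f g ihf ihg =>
      obtain ⟨hu, h1, h2⟩ := hT
      set D := max f.depth g.depth with hD
      have hf := (ihf h1).mono (subset_refl _) (w' := D * (w + 3)) (t' := D * t)
        (Nat.mul_le_mul_right _ (le_max_left _ _)) (Nat.mul_le_mul_right _ (le_max_left _ _))
      have hg := (ihg h2).mono (subset_refl _) (w' := D * (w + 3)) (t' := D * t)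
        (Nat.mul_le_mul_right _ (le_max_right _ _)) (Nat.mul_le_mul_right _ (le_max_right _ _))
      have a1 := IsC.and ((hh u hu).lift) hg
      have a2 := IsC.and ((hh u hu).not) hf
      have h3 := IsC.exists_or (ι := Bool) (a := 1) (by simp)
        (fun i => if i = true then _ else _) (f := fun x => (DT.node u f g).eval
          (fun u => h u x)) (S := S) (k := k) (w := w + D * (w + 3) + 1) (t := t + D * t)
        (by intro i
            by_cases hi : i = true
            · rw [if_pos hi]; exact a1
            · rw [if_neg hi]; exact a2)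
        (by
          intro x
          simp only [DT.eval, Bool.exists_bool]
          by_cases hx : h u x = true
          · simp [hx]
          · simp [hx])
      refine h3.mono (subset_refl _) ?_ ?_
      · simp only [DT.depth]
        rw [← hD]
        nlinarith
      · simp only [DT.depth]
        rw [← hD]
        nlinarith

end IsC

end Pool.Agent.Lib.Pa76659
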