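import Mathlib

/-!
Oracle machines and the relativised polynomial hierarchy, low classes.

A machine is a structured program acting on finitely many pushdown registers that hold binary
strings; this is an oracle multi-stack machine, polynomially equivalent to an oracle Turing machine.
-/

namespace Pool.Agent.Lib.Pa76659

/-- Binary strings. -/
abbrev Str := List Bool

/-- A language (or oracle), given by its characteristic function. -/
abbrev Lang := Str → Bool

/-- Programs of oracle machines working on pushdown registers (indexed by naturals), each holding a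
binary string. -/
inductive Prog : Type
  /-- do nothing -/
  | skip : Prog
  /-- push the bit on the register -/
  | push : ℕ → Bool → Prog
  /-- remove the top bit of the register -/
  | pop : ℕ → Prog
  /-- ask the oracle about the content of the first register, push the answer on the second -/
  | query : ℕ → ℕ → Prog
  /-- first program, then second -/
  | seq : Prog → Prog → Prog
  /-- look at the top of the register: first program if it is `true`, second if it is `false`,
  third if the register is empty -/
  | branch : ℕ → Prog → Prog → Prog → Prog
  /-- while the register is nonempty do the program -/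
  | loop : ℕ → Prog → Prog

/-- A configuration: the stack of programs still to be run and the contents of the registers. -/
abbrev Cfg := List Prog × (ℕ → Str)

/-- One step of computation with oracle `O`. -/
def step (O : Lang) : Cfg → Cfg
  | ([], s) => ([], s)
  | (Prog.skip :: k, s) => (k, s)
  | (Prog.push r b :: k, s) => (k, Function.update s r (b :: s r))
  | (Prog.pop r :: k, s) => (k, Function.update s r (s r).tail)
  | (Prog.query r t :: k, s) => (k, Function.update s t (O (s r) :: s t))
  | (Prog.seq p q :: k, s) => (p :: q :: k, s)
  | (Prog.branch r p q e :: k, s) =>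
      match s r with
      | true :: _ => (p :: k, s)
      | false :: _ => (q :: k, s)
      | [] => (e :: k, s)
  | (Prog.loop r p :: k, s) =>
      match s r with
      | [] => (k, s)
      | _ :: _ => (p :: Prog.loop r p :: k, s)

/-- The configuration after `n` steps. -/
def runN (O : Lang) (n : ℕ) (c : Cfg) : Cfg := (step O)^[n] c

/-- The program `M` with oracle `O`, started with register contents `s`, halts within `n` steps. -/
def Halts (O : Lang) (M : Prog) (s : ℕ → Str) (n : ℕ) : Prop := (runN O n ([M], s)).1 = []

/-- After `n` steps the top symbol of register `0` is `true`. -/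
def accepts (O : Lang) (M : Prog) (s : ℕ → Str) (n : ℕ) : Bool :=
  ((runN O n ([M], s)).2 0).head? == some true

/-- Initial contents of the registers on input `x`. -/
def inp (x : Str) : ℕ → Str := fun r => if r = 0 then x else []

/-- Initial contents of the registers on the pair of inputs `x`, `y`. -/
def inp2 (x y : Str) : ℕ → Str := fun r => if r = 0 then x else if r = 1 then y else []

/-- `P(O)`: languages decided in polynomial time with oracle `O`. -/
def PO (O : Lang) : Set Lang :=
  {L | ∃ (M : Prog) (p : Polynomial ℕ), ∀ x : Str,
    Halts O M (inp x) (p.eval x.length) ∧ (L x = accepts O M (inp x) (p.eval x.length))}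

/-- `NP(O)`: languages `L` such that `x ∈ L` iff some witness of length `q(|x|)` is accepted by a
polynomial-time verifier with oracle `O`. -/
def NPO (O : Lang) : Set Lang :=
  {L | ∃ (M : Prog) (p q : Polynomial ℕ), ∀ x : Str,
    (∀ y : Str, y.length = q.eval x.length → Halts O M (inp2 x y) (p.eval x.length)) ∧
    (L x = true ↔ ∃ y : Str, y.length = q.eval x.length ∧
      accepts O M (inp2 x y) (p.eval x.length) = true)}

/-- `Σ_k^P(O)`: `Σ_0^P(O) = P(O)` and `Σ_{k+1}^P(O) = NP(Σ_k^P(O))`. -/
def Sig (O : Lang) : ℕ → Set Lang
  | 0 => PO O
  | k + 1 => {L | ∃ B ∈ Sig O k, L ∈ NPO B}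

/-- `Δ_{k+1}^P(O) = P(Σ_k^P(O))`; here `DelSucc O k` is `Δ_{k+1}^P(O)`. -/
def DelSucc (O : Lang) (k : ℕ) : Set Lang := {L | ∃ B ∈ Sig O k, L ∈ PO B}

/-- The join `X ⊕ A` of two oracles. -/
def join (X A : Lang) : Lang
  | [] => false
  | false :: v => X v
  | true :: v => A v

/-- The low class `L_k^P` relative to the oracle `X`:
sets `A ∈ NP^X` with `Σ_k^{P,X}(A) ⊆ Σ_k^{P,X}`. -/
def Low (X : Lang) (k : ℕ) : Set Lang := {A | A ∈ NPO X ∧ Sig (join X A) k ⊆ Sig X k}

/-- The refined low class `\hat L_{k+1}^P` relative to the oracle `X`:
sets `A ∈ NP^X` with `Δ_{k+1}^{P,X}(A) ⊆ Δ_{k+1}^{P,X}`. -/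
def RLowSucc (X : Lang) (k : ℕ) : Set Lang :=
  {A | A ∈ NPO X ∧ DelSucc (join X A) k ⊆ DelSucc X k}

end Pool.Agent.Lib.Pa76659
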