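import Pool.Agent.Lib.Pa76659.JEnc

/-!
Writing programs.
-/

set_option maxHeartbeats 4000000

namespace Pool.Agent.Lib.Pa76659

theorem runN_zero (O : Lang) (c : Cfg) : runN O 0 c = c := rfl

theorem runN_one (O : Lang) (c : Cfg) : runN O 1 c = step O c := rfl

theorem runN_add (O : Lang) (m n : ℕ) (c : Cfg) : runN O (m + n) c = runN O n (runN O m c) := by
  unfold runN
  rw [add_comm, Function.iterate_add_apply]

theorem runN_nil (O : Lang) (n : ℕ) (s : ℕ → Str) : runN O n ([], s) = ([], s) := by
  induction n with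
  | zero => rfl
  | succ n ih => rw [runN_succ]; exact ih

/-- the program transforms `s` into `s'` in at most `n` steps -/
def Exec (O : Lang) (M : Prog) (s s' : ℕ → Str) (n : ℕ) : Prop :=
  ∃ m ≤ n, ∀ k, runN O m (M :: k, s) = (k, s')

variable {O : Lang}

theorem Exec.mono {M : Prog} {s s' : ℕ → Str} {n n' : ℕ} (h : Exec O M s s' n) (hn : n ≤ n') :
    Exec O M s s' n' := by
  obtain ⟨m, hm, h⟩ := h
  exact ⟨m, hm.trans hn, h⟩

theorem exec_skip (s : ℕ → Str) : Exec O Prog.skip s s 1 := ⟨1, le_rfl, fun _ => rfl⟩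

theorem exec_push (r : ℕ) (b : Bool) (s : ℕ → Str) :
    Exec O (Prog.push r b) s (Function.update s r (b :: s r)) 1 := ⟨1, le_rfl, fun _ => rfl⟩

theorem exec_pop (r : ℕ) (s : ℕ → Str) :
    Exec O (Prog.pop r) s (Function.update s r (s r).tail) 1 := ⟨1, le_rfl, fun _ => rfl⟩

theorem exec_query (r t : ℕ) (s : ℕ → Str) :
    Exec O (Prog.query r t) s (Function.update s t (O (s r) :: s t)) 1 :=
  ⟨1, le_rfl, fun _ => rfl⟩

theorem Exec.seq {p q : Prog} {s s1 s2 : ℕ → Str} {n1 n2 : ℕ} (h1 : Exec O p s s1 n1)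
    (h2 : Exec O q s1 s2 n2) : Exec O (Prog.seq p q) s s2 (n1 + n2 + 1) := by
  obtain ⟨m1, hm1, h1⟩ := h1
  obtain ⟨m2, hm2, h2⟩ := h2
  refine ⟨1 + (m1 + m2), by omega, fun k => ?_⟩
  rw [runN_add, runN_add]
  show runN O m2 (runN O m1 (p :: q :: k, s)) = _
  rw [h1, h2]

theorem Exec.branch_true {r : ℕ} {p q e : Prog} {s s' : ℕ → Str} {n : ℕ} {l : Str}
    (hs : s r = true :: l) (h : Exec O p s s' n) :
    Exec O (Prog.branch r p q e) s s' (n + 1) := by
  obtain ⟨m, hm, h⟩ := h
  refine ⟨1 + m, by omega, fun k => ?_⟩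
  rw [runN_add]
  have : runN O 1 (Prog.branch r p q e :: k, s) = (p :: k, s) := by
    rw [runN_one]
    simp [step, hs]
  rw [this, h]

theorem Exec.branch_false {r : ℕ} {p q e : Prog} {s s' : ℕ → Str} {n : ℕ} {l : Str}
    (hs : s r = false :: l) (h : Exec O q s s' n) :
    Exec O (Prog.branch r p q e) s s' (n + 1) := by
  obtain ⟨m, hm, h⟩ := h
  refine ⟨1 + m, by omega, fun k => ?_⟩
  rw [runN_add]
  have : runN O 1 (Prog.branch r p q e :: k, s) = (q :: k, s) := by
    rw [runN_one]
    simp [step, hs]
  rw [this, h]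

theorem Exec.branch_nil {r : ℕ} {p q e : Prog} {s s' : ℕ → Str} {n : ℕ}
    (hs : s r = []) (h : Exec O e s s' n) :
    Exec O (Prog.branch r p q e) s s' (n + 1) := by
  obtain ⟨m, hm, h⟩ := h
  refine ⟨1 + m, by omega, fun k => ?_⟩
  rw [runN_add]
  have : runN O 1 (Prog.branch r p q e :: k, s) = (e :: k, s) := by
    rw [runN_one]
    simp [step, hs]
  rw [this, h]

theorem exec_loop_nil {r : ℕ} {p : Prog} {s : ℕ → Str} (hs : s r = []) :
    Exec O (Prog.loop r p) s s 1 := by
  refine ⟨1, le_rfl, fun k => ?_⟩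
  rw [runN_one]
  simp [step, hs]

theorem Exec.loop_cons {r : ℕ} {p : Prog} {s s1 s2 : ℕ → Str} {n1 n2 : ℕ} (hs : s r ≠ [])
    (h1 : Exec O p s s1 n1) (h2 : Exec O (Prog.loop r p) s1 s2 n2) :
    Exec O (Prog.loop r p) s s2 (n1 + n2 + 1) := by
  obtain ⟨m1, hm1, h1⟩ := h1
  obtain ⟨m2, hm2, h2⟩ := h2
  refine ⟨1 + (m1 + m2), by omega, fun k => ?_⟩
  rw [runN_add, runN_add]
  have : runN O 1 (Prog.loop r p :: k, s) = (p :: Prog.loop r p :: k, s) := by
    rw [runN_one]
    cases h : s r with
    | nil => exact absurd h hs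
    | cons a l => simp [step, h]
  rw [this, h1, h2]

theorem Exec.halts {M : Prog} {s s' : ℕ → Str} {n N : ℕ} (h : Exec O M s s' n) (hn : n ≤ N) :
    Halts O M s N ∧ accepts O M s N = ((s' 0).head? == some true) := by
  obtain ⟨m, hm, h⟩ := h
  have h1 : runN O N ([M], s) = ([], s') := by
    obtain ⟨d, hd⟩ := Nat.exists_eq_add_of_le (hm.trans hn)
    rw [hd, runN_add, h, runN_nil]
  exact ⟨by rw [Halts, h1], by rw [accepts, h1]⟩

/-- state with the given registers -/
def st (l : List Str) : ℕ → Str := fun r => l.getD r []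

theorem st_get (l : List Str) (r : ℕ) : st l r = l.getD r [] := rfl

theorem upd_st (l : List Str) (r : ℕ) (x : Str) (hr : r < l.length) :
    Function.update (st l) r x = st (l.set r x) := by
  funext i
  unfold st
  by_cases h : i = r
  · subst h
    simp [hr]
  · rw [Function.update_of_ne h]
    simp [List.getD, List.getElem?_set_ne (Ne.symm h)]

theorem inp_st (x : Str) : inp x = st [x, [], [], [], [], []] := by
  funext r
  unfold inp st
  rcases r with _ | _ | _ | _ | _ | _ | r <;> simp

theorem inp2_st (x y : Str) : inp2 x y = st [x, y, [], [], [], []] := by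
  funext r
  unfold inp2 st
  rcases r with _ | _ | _ | _ | _ | _ | r <;> simp

/-- move the content of `a` to `b`, reversing it -/
def mv (a b : ℕ) : Prog :=
  Prog.loop a (Prog.seq (Prog.branch a (Prog.push b true) (Prog.push b false) Prog.skip)
    (Prog.pop a))

theorem exec_mv {a b : ℕ} (hab : a ≠ b) : ∀ (x : Str) (s : ℕ → Str), s a = x →
    Exec O (mv a b) s (Function.update (Function.update s b (x.reverse ++ s b)) a [])
      (5 * x.length + 1)
  | [], s, hs => by
      have : Function.update (Function.update s b ([].reverse ++ s b)) a [] = s := by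
        funext i
        by_cases h : i = a
        · subst h; simp [hs]
        · by_cases h2 : i = b
          · subst h2; simp [h]
          · simp [h, h2]
      rw [this]
      exact (exec_loop_nil hs).mono (by omega)
  | c :: x, s, hs => by
      have h1 : Exec O (Prog.seq (Prog.branch a (Prog.push b true) (Prog.push b false) Prog.skip)
          (Prog.pop a)) s (Function.update (Function.update s b (c :: s b)) a x) 4 := by
        have h2 : Exec O (Prog.branch a (Prog.push b true) (Prog.push b false) Prog.skip) s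
            (Function.update s b (c :: s b)) 2 := by
          cases c
          · exact Exec.branch_false hs (exec_push b false s)
          · exact Exec.branch_true hs (exec_push b true s)
        have h3 := h2.seq (exec_pop a (Function.update s b (c :: s b)))
        rw [Function.update_of_ne hab, hs] at h3
        exact h3
      have h2 := exec_mv hab x (Function.update (Function.update s b (c :: s b)) a x) (by simp)
      have h3 := Exec.loop_cons (by rw [hs]; simp) h1 h2
      refine (Exec.mono ?_ (show 4 + (5 * x.length + 1) + 1 ≤ 5 * (c :: x).length + 1 by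
        simp only [List.length_cons]; omega))
      have e : (Function.update (Function.update s b ((c :: x).reverse ++ s b)) a []) =
          (Function.update (Function.update (Function.update (Function.update s b (c :: s b)) a x)
            b (x.reverse ++ Function.update (Function.update s b (c :: s b)) a x b)) a []) := by
        funext i
        by_cases h : i = a
        · subst h; simp
        · by_cases h2 : i = b
          · subst h2; simp [h]
          · simp [h, h2]
      rw [e]
      exact h3

theorem query_mem (O : Lang) : O ∈ PO O := by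
  refine ⟨Prog.query 0 0, 1, fun x => ?_⟩
  have h := (exec_query (O := O) 0 0 (inp x)).halts (N := 1) le_rfl
  simp only [Polynomial.eval_one]
  refine ⟨h.1, ?_⟩
  rw [h.2]
  simp [inp]

def progEE : Prog :=
  Prog.seq (mv 0 2) (Prog.seq (mv 2 1) (Prog.seq (Prog.query 1 0)
    (Prog.branch 0 (Prog.push 0 false) (Prog.push 0 true) Prog.skip)))

theorem exec_progEE (B : Lang) (x y : Str) : ∃ s', Exec B progEE (inp2 x y) s'
    (10 * x.length + 10) ∧ s' 0 = [!(B (x ++ y)), B (x ++ y)] := by
  have h1 := exec_mv (O := B) (show 0 ≠ 2 by norm_num) x (inp2 x y) (by simp [inp2])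
  set s1 := Function.update (Function.update (inp2 x y) 2 (x.reverse ++ inp2 x y 2)) 0 [] with hs1
  have h2 := exec_mv (O := B) (show 2 ≠ 1 by norm_num) x.reverse s1 (by simp [hs1, inp2])
  set s2 := Function.update (Function.update s1 1 (x.reverse.reverse ++ s1 1)) 2 [] with hs2
  have e1 : s2 1 = x ++ y := by simp [hs2, hs1, inp2]
  have e0 : s2 0 = [] := by simp [hs2, hs1]
  have h3 := exec_query (O := B) 1 0 s2
  rw [e1, e0] at h3
  set s3 := Function.update s2 0 [B (x ++ y)] with hs3
  have h4 : Exec B (Prog.branch 0 (Prog.push 0 false) (Prog.push 0 true) Prog.skip) s3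
      (Function.update s3 0 ((!(B (x ++ y))) :: s3 0)) 2 := by
    have e : s3 0 = [B (x ++ y)] := by simp [hs3]
    cases hB : B (x ++ y)
    · rw [hB] at e
      exact Exec.branch_false e (exec_push 0 true s3)
    · rw [hB] at e
      exact Exec.branch_true e (exec_push 0 false s3)
  refine ⟨_, (h1.seq (h2.seq (h3.seq h4))).mono ?_, ?_⟩
  · simp only [List.length_reverse]; omega
  · simp [hs3]

theorem EE_mem (B : Lang) : EE B ∈ NPO B := by
  refine ⟨progEE, 10 * Polynomial.X + 10, Polynomial.X, fun x => ?_⟩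
  simp only [Polynomial.eval_add, Polynomial.eval_mul, Polynomial.eval_ofNat,
    Polynomial.eval_X]
  have key : ∀ y : Str, Halts B progEE (inp2 x y) (10 * x.length + 10) ∧
      accepts B progEE (inp2 x y) (10 * x.length + 10) = !(B (x ++ y)) := by
    intro y
    obtain ⟨s', h1, h2⟩ := exec_progEE B x y
    obtain ⟨h3, h4⟩ := h1.halts le_rfl
    refine ⟨h3, ?_⟩
    rw [h4, h2]
    cases B (x ++ y) <;> rfl
  refine ⟨fun y _ => (key y).1, ?_⟩
  rw [EE_true]
  constructor
  · rintro ⟨y, hy, hy2⟩
    exact ⟨y, hy, by rw [(key y).2, hy2]; rfl⟩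
  · rintro ⟨y, hy, hy2⟩
    refine ⟨y, hy, ?_⟩
    rw [(key y).2] at hy2
    simpa using hy2

theorem EE_iter_mem (B : Lang) {O : Lang} (hB : B ∈ PO O) : ∀ k : ℕ, EE^[k] B ∈ Sig O k
  | 0 => hB
  | k + 1 => by
      rw [Function.iterate_succ_apply']
      exact ⟨_, EE_iter_mem B hB k, EE_mem _⟩

end Pool.Agent.Lib.Pa76659
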