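import Pool.Agent.Lib.Pa76659.Limit

/-!
An infinite hierarchy in which all low classes are equal to `P`.
-/

set_option maxHeartbeats 4000000

namespace Pool.Agent.Lib.Pa76659

theorem sig_mono_succ {X : Lang} : ∀ {k : ℕ}, Sig X k ⊆ Sig X (k + 1) := by
  intro k L hL
  exact ⟨L, hL, PO_subset_NPO L (query_mem L)⟩

theorem univ_not_mem {X : Lang} (hU : Univ X) (hinf : ∀ k, Sig X k ≠ Sig X (k + 1)) (k : ℕ) :
    J (k + 1) (join X X) ∉ Sig X k := by
  intro hJ
  have h1 : Sig X (k + 1) ⊆ PO (J (k + 1) (join X X)) := by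
    intro L hL
    obtain ⟨p, l, hl, h2⟩ := exists_sEval hL
    obtain ⟨j, B, h3⟩ := hU p l (by rintro rfl; simp at hl)
    rw [hl, ← h2] at h3
    exact col_mem j B h3
  apply hinf (k + 1)
  apply Set.Subset.antisymm sig_mono_succ
  rintro L ⟨B, hB, hL⟩
  exact ⟨J (k + 1) (join X X), hJ, NPO_subset (h1 hB) hL⟩

theorem univ_mem (X : Lang) (k : ℕ) : J k (join X X) ∈ Sig X k :=
  (PO_low (k := k) (query_mem X)).2 (J_mem (join X X) k)

/-- requirements -/
abbrev Req := (PIx × List NIx) ⊕ (NIx × PIx × List NIx)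

/-- the requirement is met by the oracle -/
def Sat (X : Lang) : Req → Prop
  | Sum.inl (p, l) => ¬ Gen p l X ∨
      ∃ s : Str, sEval p l X s ≠ J (l.length + 1) (join X X) s
  | Sum.inr (i, p, l) => l ≠ [] →
      (∃ j B, ∀ x, X (code j B x) = nEval i X x) ∨
      (∃ s : Str, J l.length (join X (nEval i X)) s ≠ sEval p l X s)

theorem loc_id : Loc (fun O => O) := fun n => ⟨n, fun _ _ h x hx => h x hx⟩

theorem next_cond {q : Cond} (hq : WF q) (hg : (∃ K, Good (K + 1) q) ∧ ∀ X, Mem q X → Univ X)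
    (r : Req) : ∃ q' : Cond, WF q' ∧ ((∃ K, Good (K + 1) q') ∧ ∀ X, Mem q' X → Univ X) ∧
      q.N < q'.N ∧ (∀ X, Mem q' X → Mem q X) ∧ ∀ X, Mem q' X → Sat X r := by
  obtain ⟨⟨K, hg⟩, hU⟩ := hg
  rcases r with ⟨p, l⟩ | ⟨i, p, l⟩
  · by_cases hG : ∃ X, Mem q X ∧ ¬ Gen p l X
    · obtain ⟨X, hX, hG⟩ := hG
      obtain ⟨m, hm⟩ := gen_local hG
      set M := max (q.N + 1) (m + 1) with hM
      have hNM : q.N ≤ M := by omega
      refine ⟨freeze q X M, freeze_wf hq X hNM, ⟨⟨K, good_freeze hq hg hX hNM⟩,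
        fun X' hX' => hU X' (freeze_mem hq hX hNM hX')⟩, ?_,
        fun X' hX' => freeze_mem hq hX hNM hX', fun X' hX' => Or.inl (hm X' ?_)⟩
      · show q.N < M; omega
      · intro v hv
        exact (hX' v).1 (by show v.length < M; omega)
    · push Not at hG
      obtain ⟨X, hX, hinf⟩ := exists_infinite hq hg
      have h1 : sEval p l X ≠ J (l.length + 1) (join X X) := by
        intro h
        apply univ_not_mem (hU X hX) hinf l.length
        rw [← h]
        exact sEval_mem (hG X hX)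
      obtain ⟨s, hs⟩ := Function.ne_iff.1 h1
      obtain ⟨m1, hm1⟩ := loc_sEval p l s.length
      obtain ⟨m2, hm2⟩ := ((loc_J (l.length + 1)).comp (loc_join loc_id)) s.length
      set M := max (q.N + 1) (max m1 m2 + 1) with hM
      have hNM : q.N ≤ M := by omega
      refine ⟨freeze q X M, freeze_wf hq X hNM, ⟨⟨K, good_freeze hq hg hX hNM⟩,
        fun X' hX' => hU X' (freeze_mem hq hX hNM hX')⟩, ?_,
        fun X' hX' => freeze_mem hq hX hNM hX', fun X' hX' => Or.inr ⟨s, ?_⟩⟩
      · show q.N < M; omega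
      · have h1 : ∀ v : Str, v.length < M → X' v = X v := fun v hv => (hX' v).1 hv
        have h2 := hm2 X' X (fun v hv => h1 v (by omega)) s le_rfl
        beta_reduce at h2
        rw [hm1 X' X (fun v hv => h1 v (by omega)) s le_rfl, h2]
        exact hs
  · rcases l with _ | ⟨i0, l0⟩
    · have hNM : q.N ≤ q.N + 1 := by omega
      have hX0m : Mem q (Phi q (fun _ => false)) := Phi_mem hq _
      refine ⟨freeze q (Phi q (fun _ => false)) (q.N + 1), freeze_wf hq _ hNM,
        ⟨⟨K, good_freeze hq hg hX0m hNM⟩,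
        fun X' hX' => hU X' (freeze_mem hq hX0m hNM hX')⟩, ?_,
        fun X' hX' => freeze_mem hq hX0m hNM hX', fun X' _ h => absurd rfl h⟩
      show q.N < q.N + 1; omega
    set l := i0 :: l0 with hl
    by_cases hlow : LOW l.length q i p l
    · -- add a column
      obtain ⟨l1, hl1, hlow1⟩ := LOW_add hlow rfl (K + 1)
      have e1 : l.length + (K + 1) = (K + l.length) + 1 := by ring
      rw [e1] at hl1 hlow1
      have hg1 := hg.mono (show K + 1 ≤ (K + l.length) + 1 by omega)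
      set X0 := Phi q (fun _ => false) with hX0
      have hX0m : Mem q X0 := Phi_mem hq _
      have hNM : q.N ≤ 2 * q.N + 2 := by omega
      obtain ⟨B, hB⟩ := exists_goodCol i
      have hq2 := freeze_wf hq X0 hNM
      have hg2 := good_freeze hq hg1 hX0m hNM
      have hlow2 : LOW ((K + l.length) + 1) (freeze q X0 (2 * q.N + 2)) i p l1 :=
        fun X hX s => hlow1 X (freeze_mem hq hX0m hNM hX) s
      have hE : (freeze q X0 (2 * q.N + 2)).E (2 * q.N + 1) = none :=
        hq.fin (2 * q.N + 1) (by omega)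
      have hN3 : (freeze q X0 (2 * q.N + 2)).N ≤ (2 * q.N + 1) + 3 := by
        show 2 * q.N + 2 ≤ _; omega
      have hjN : 2 * q.N + 1 < (freeze q X0 (2 * q.N + 2)).N := by
        show _ < 2 * q.N + 2; omega
      have hodd : (2 * q.N + 1) % 2 = 1 := by omega
      refine ⟨addc (freeze q X0 (2 * q.N + 2)) (2 * q.N + 1) i B,
        addc_wf hq2 hB hjN hodd,
        ⟨⟨K + l.length, good_addc hq2 hg2 hl1 hlow2 hB hE hN3 hjN hodd⟩,
          fun X hX => hU X (freeze_mem hq hX0m hNM (addc_mem hE hN3 hX).1)⟩, ?_, ?_, ?_⟩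
      · show q.N < 2 * q.N + 2; omega
      · intro X hX
        exact freeze_mem hq hX0m hNM (addc_mem hE hN3 hX).1
      · intro X hX _
        exact Or.inl ⟨2 * q.N + 1, B, (addc_mem hE hN3 hX).2⟩
    · -- diagonalise
      unfold LOW at hlow
      push Not at hlow
      obtain ⟨X, hX, s, hs⟩ := hlow
      obtain ⟨m1, hm1⟩ := loc_sEval p l s.length
      obtain ⟨m2, hm2⟩ := ((loc_J l.length).comp (loc_join (loc_nEval i))) s.length
      set M := max (q.N + 1) (max m1 m2 + 1) with hM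
      have hNM : q.N ≤ M := by omega
      refine ⟨freeze q X M, freeze_wf hq X hNM, ⟨⟨K, good_freeze hq hg hX hNM⟩,
        fun X' hX' => hU X' (freeze_mem hq hX hNM hX')⟩, ?_,
        fun X' hX' => freeze_mem hq hX hNM hX', fun X' hX' _ => Or.inr ⟨s, ?_⟩⟩
      · show q.N < M; omega
      · have h1 : ∀ v : Str, v.length < M → X' v = X v := fun v hv => (hX' v).1 hv
        have h2 := hm2 X' X (fun v hv => h1 v (by omega)) s le_rfl
        beta_reduce at h2
        rw [hm1 X' X (fun v hv => h1 v (by omega)) s le_rfl, h2]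
        exact hs

theorem exists_oracle : ∃ X : Lang, ∀ r : Req, Sat X r := by
  have hne : Nonempty Req := ⟨Sum.inl ((Prog.skip, 0), [])⟩
  obtain ⟨req, hreq⟩ := exists_surjective_nat Req
  obtain ⟨τ, hτ⟩ := exists_tables
  have hq0 : WF ⟨0, fun _ => false, τ, fun _ => none⟩ :=
    ⟨fun j i B h => by simp at h, fun j _ => rfl, fun j i B h => by simp at h⟩
  obtain ⟨X, _, hX⟩ := exists_limit
    (fun q => (∃ K, Good (K + 1) q) ∧ ∀ X, Mem q X → Univ X)
    (fun n X => Sat X (req n)) ⟨0, fun _ => false, τ, fun _ => none⟩ hq0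
    ⟨⟨0, good_init _ _ _⟩, fun X hX => hτ X fun v hv => (hX v).2.1 (Nat.zero_le _) hv⟩
    (fun n q hq hg => next_cond hq hg (req n))
  exact ⟨X, fun r => by obtain ⟨n, rfl⟩ := hreq r; exact hX n⟩

theorem lowCollapse : ∃ X : Lang, (∀ k, Sig X k ≠ Sig X (k + 1)) ∧
    (∀ k, Low X k = PO X) ∧ (∀ k, RLowSucc X k = PO X) := by
  obtain ⟨X, hX⟩ := exists_oracle
  have h1 : ∀ k, Low X (k + 1) = PO X := by
    intro k
    apply Set.Subset.antisymm _ PO_low
    rintro A ⟨h1, h2⟩
    obtain ⟨i, hi⟩ := exists_nEval h1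
    have h3 := h2 (J_mem (join X A) (k + 1))
    obtain ⟨p, l, hl, h4⟩ := exists_sEval h3
    rcases hX (Sum.inr (i, p, l)) (by rintro rfl; simp at hl) with ⟨j, B, h5⟩ | ⟨s, hs⟩
    · rw [← hi] at h5
      exact col_mem j B h5
    · rw [← hi, hl, ← h4] at hs
      exact absurd rfl hs
  refine ⟨X, ?_, ?_, ?_⟩
  · intro k hk
    have h2 := univ_mem X (k + 1)
    rw [← hk] at h2
    obtain ⟨p, l, hl, h3, h4⟩ := exists_gen h2
    rcases hX (Sum.inl (p, l)) with h5 | ⟨s, hs⟩
    · exact h5 h4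
    · rw [hl, ← h3] at hs
      exact hs rfl
  · intro k
    exact Set.Subset.antisymm (low_succ.trans (h1 k).subset) PO_low
  · intro k
    exact Set.Subset.antisymm (rlow_low.trans (h1 k).subset) (PO_low.trans low_rlow)

end Pool.Agent.Lib.Pa76659
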