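import Pool.Agent.Lib.Pa76659.Sem
import Pool.Agent.Lib.Pa76659.Count

/-!
The languages `J k Z` in the `k`-th level relative to `Z`, and their universality.
-/

set_option maxHeartbeats 4000000

namespace Pool.Agent.Lib.Pa76659

open Switch

/-- one more quantifier -/
noncomputable def EE (B : Lang) : Lang := fun s =>
  open Classical in decide (∃ y : Str, y.length = s.length ∧ B (s ++ y) = false)

theorem EE_true (B : Lang) (s : Str) :
    EE B s = true ↔ ∃ y : Str, y.length = s.length ∧ B (s ++ y) = false := by
  simp [EE]

/-- an interpreter for lists of literals about the second part of the oracle -/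
def interp (Z : Lang) : Str → Str → Bool
  | true :: false :: b :: r, u => interp Z r (b :: u)
  | true :: true :: b :: r, u => (Z (true :: u) == b) && interp Z r []
  | _, _ => true

/-- The base language. -/
def J0 (Z : Lang) : Lang := fun w => !(Z (false :: w) && interp Z w.reverse [])

noncomputable def J (k : ℕ) (Z : Lang) : Lang := EE^[k] (J0 Z)

theorem J_zero (Z : Lang) : J 0 Z = J0 Z := rfl

theorem J_succ (k : ℕ) (Z : Lang) : J (k + 1) Z = EE (J k Z) := by
  simp [J, Function.iterate_succ_apply']

def pushBits : Str → Str
  | [] => []
  | c :: x => pushBits x ++ [true, false, c]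

theorem interp_pushBits (Z : Lang) : ∀ (x r u : Str),
    interp Z (pushBits x ++ r) u = interp Z r (x ++ u)
  | [], r, u => rfl
  | c :: x, r, u => by
      simp only [pushBits, List.append_assoc]
      rw [interp_pushBits Z x]
      rfl

theorem pushBits_length : ∀ x : Str, (pushBits x).length = 3 * x.length
  | [] => rfl
  | c :: x => by
      simp only [pushBits, List.length_append, pushBits_length x, List.length_cons,
        List.length_nil]
      ring

def lits (L : List (Str × Bool)) : Str :=
  L.flatMap (fun p => pushBits p.1 ++ [true, true, p.2])

theorem interp_lits (Z : Lang) (r : Str) : ∀ L : List (Str × Bool),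
    (interp Z (lits L ++ false :: r) [] = true ↔ ∀ p ∈ L, Z (true :: p.1) = p.2)
  | [] => by simp [lits, interp]
  | (x, b) :: L => by
      have ih := interp_lits Z r L
      have h1 : lits ((x, b) :: L) ++ false :: r
          = pushBits x ++ (true :: true :: b :: (lits L ++ false :: r)) := by
        simp [lits]
      rw [h1, interp_pushBits, interp, Bool.and_eq_true, ih]
      simp

theorem lits_length (m : ℕ) : ∀ L : List (Str × Bool), (∀ p ∈ L, p.1.length ≤ m) →
    (lits L).length ≤ L.length * (3 * m + 3)
  | [], _ => by simp [lits]
  | (x, b) :: L, h => by
      have ih := lits_length m L (fun p hp => h p (by simp [hp]))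
      have h1 : (lits ((x, b) :: L)).length = 3 * x.length + 3 + (lits L).length := by
        simp only [lits, List.flatMap_cons, List.length_append, pushBits_length,
          List.length_cons, List.length_nil]
      have h2 : x.length ≤ m := h (x, b) (by simp)
      rw [h1, List.length_cons]
      nlinarith

/-- decision tree of a conjunction of literals -/
def conjT {V : Type} : List (V × Bool) → DT V Bool
  | [] => DT.leaf true
  | l :: L => DT.node l.1 (if l.2 = true then DT.leaf false else conjT L)
      (if l.2 = true then conjT L else DT.leaf false)

theorem conjT_eval {V : Type} (x : V → Bool) : ∀ L : List (V × Bool),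
    (conjT L).eval x = true ↔ ∀ l ∈ L, x l.1 = l.2
  | [] => by simp [conjT, DT.eval]
  | (v, b) :: L => by
      have ih := conjT_eval x L
      simp only [conjT, DT.eval, List.forall_mem_cons]
      cases b <;> cases hx : x v <;> simp [DT.eval, ih]

theorem conjT_depth {V : Type} : ∀ L : List (V × Bool), (conjT L).depth ≤ L.length
  | [] => by simp [conjT, DT.depth]
  | (v, b) :: L => by
      have ih := conjT_depth L
      cases b <;> simp [conjT, DT.depth, ih]

theorem conjT_qin {V : Type} (S : Set V) : ∀ L : List (V × Bool), (∀ l ∈ L, l.1 ∈ S) →
    (conjT L).QIn S
  | [], _ => trivial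
  | (v, b) :: L, h => by
      have ih := conjT_qin S L (fun l hl => h l (by simp [hl]))
      have h0 : v ∈ S := h (v, b) (by simp)
      cases b <;> simp [conjT, DT.QIn, ih, h0]

/-- `J (k+1)` can evaluate every circuit of depth `k+1`, if the table is put in the oracle. -/
theorem univJ (cx : Str → Option Str) (S : Set Str) (w t m : ℕ)
    (hm : ∀ v ∈ S, ∀ x, cx v = some x → x.length ≤ m) :
    ∀ (k : ℕ) (f : (Str → Bool) → Bool), IsC S w t (k + 1) f →
    ∀ s : Str, w + t + 1 + t * (3 * m + 3) ≤ s.length →
    ∃ Tab : Str → DT Str Bool, (∀ v, (Tab v).depth ≤ t) ∧
      (∀ v, (Tab v).QIn {u | u ∈ S ∧ cx u = none}) ∧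
      ∀ (Y : Str → Bool) (Z : Lang),
        (∀ r : Str, r.length + s.length = 2 ^ (k + 1) * s.length →
          Z (false :: (s ++ r)) = (Tab (s ++ r)).eval Y) →
        (∀ u ∈ S, ∀ x, cx u = some x → Z (true :: x) = Y u) →
        J (k + 1) Z s = f Y := by
  classical
  intro k
  induction k with
  | zero =>
      intro f hf s hs
      obtain ⟨g, h1, h2⟩ := hf
      choose T hT1 hT2 hT3 using h1
      let ι : Type := Σ j : Fin (2 ^ w), Fin (paths (T j) false).length
      have hcard : Fintype.card ι ≤ Fintype.card (Fin (w + t) → Bool) := by
        rw [Fintype.card_sigma]
        simp only [Fintype.card_fin, Fintype.card_fun, Fintype.card_bool]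
        calc ∑ j, (paths (T j) false).length ≤ ∑ _j : Fin (2 ^ w), 2 ^ t :=
              Finset.sum_le_sum (fun j _ => (paths_count _ _).trans
                (Nat.pow_le_pow_right (by norm_num) (hT1 j)))
          _ = 2 ^ (w + t) := by
              rw [Finset.sum_const, Finset.card_univ, Fintype.card_fin, smul_eq_mul, pow_add]
      obtain ⟨e⟩ := Function.Embedding.nonempty_of_card_le hcard
      let pth : ι → List (Str × Bool) := fun p => (paths (T p.1) false).get p.2
      have hpth : ∀ p, pth p ∈ paths (T p.1) false := fun p => List.get_mem _ _
      let La : ι → List (Str × Bool) := fun p =>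
        (pth p).filterMap (fun l => (cx l.1).map (fun x => (x, l.2)))
      let Ly : ι → List (Str × Bool) := fun p => (pth p).filter (fun l => decide (cx l.1 = none))
      have hLa : ∀ p, (lits (La p)).length ≤ t * (3 * m + 3) := by
        intro p
        have h3 := lits_length m (La p) (by
          intro q hq
          obtain ⟨l, hl, hl2⟩ := List.mem_filterMap.1 hq
          obtain ⟨x, hx, rfl⟩ := Option.map_eq_some_iff.1 hl2
          exact hm l.1 (paths_qin _ _ _ (hT2 _) _ (hpth p) l hl) x hx)
        have h4 : (La p).length ≤ t :=
          (List.length_filterMap_le _ _).trans ((paths_length _ _ _ (hpth p)).trans (hT1 _))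
        exact h3.trans (Nat.mul_le_mul_right _ h4)
      let yy : ι → Str := fun p => List.ofFn (e p) ++
        (List.replicate (s.length - (w + t) - ((lits (La p)).length + 1)) false ++
          (lits (La p) ++ [false]).reverse)
      have hyl : ∀ p, (yy p).length = s.length := by
        intro p
        have := hLa p
        simp only [yy, List.length_append, List.length_ofFn, List.length_replicate,
          List.length_reverse, List.length_cons, List.length_nil]
        omega
      have hyi : ∀ p p', yy p = yy p' → p = p' := by
        intro p p' h
        have h3 := congrArg (List.take (w + t)) h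
        simp only [yy] at h3
        rw [List.take_append_of_le_length (by simp), List.take_append_of_le_length (by simp),
          List.take_of_length_le (by simp), List.take_of_length_le (by simp)] at h3
        have h4 : e p = e p' := List.ofFn_injective h3
        exact e.injective h4
      refine ⟨fun v => if h : ∃ p, v = s ++ yy p then conjT (Ly h.choose) else DT.leaf false,
        ?_, ?_, ?_⟩
      · intro v
        beta_reduce
        split_ifs with h
        · refine (conjT_depth _).trans ((List.length_filter_le _ _).trans
            ((paths_length _ _ _ (hpth _)).trans (hT1 _)))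
        · simp [DT.depth]
      · intro v
        beta_reduce
        split_ifs with h
        · apply conjT_qin
          intro l hl
          obtain ⟨h3, h4⟩ := List.mem_filter.1 hl
          exact ⟨paths_qin _ _ _ (hT2 _) _ (hpth _) l h3, by simpa using h4⟩
        · trivial
      · intro Y Z hZ1 hZ2
        have hch : ∀ p, ∀ h : ∃ p', s ++ yy p = s ++ yy p', h.choose = p := by
          intro p h
          have h3 := h.choose_spec
          exact (hyi _ _ (List.append_cancel_left h3)).symm
        have key : ∀ p, ((∀ l ∈ Ly p, Y l.1 = l.2) ∧ (∀ q ∈ La p, Z (true :: q.1) = q.2)) ↔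
            evalT (pth p) Y := by
          intro p
          constructor
          · rintro ⟨h3, h4⟩ l hl
            cases hc : cx l.1 with
            | none => exact h3 l (List.mem_filter.2 ⟨hl, by simp [hc]⟩)
            | some x =>
                have h5 := h4 (x, l.2) (List.mem_filterMap.2 ⟨l, hl, by simp [hc]⟩)
                rw [← h5]
                exact (hZ2 l.1 (paths_qin _ _ _ (hT2 _) _ (hpth p) l hl) x hc).symm
          · intro h3
            refine ⟨fun l hl => h3 l (List.mem_filter.1 hl).1, ?_⟩
            intro q hq
            obtain ⟨l, hl, hl2⟩ := List.mem_filterMap.1 hq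
            obtain ⟨x, hx, rfl⟩ := Option.map_eq_some_iff.1 hl2
            rw [← h3 l hl]
            exact hZ2 l.1 (paths_qin _ _ _ (hT2 _) _ (hpth p) l hl) x hx
        have hrev : ∀ p, (s ++ yy p).reverse = lits (La p) ++ false ::
            ((List.replicate (s.length - (w + t) - ((lits (La p)).length + 1)) false).reverse ++
              (List.ofFn (e p)).reverse ++ s.reverse) := by
          intro p
          simp [yy]
        have hfin : J (0 + 1) Z s = true ↔ f Y = true := by
          rw [J_succ, EE_true, h2]
          constructor
          · rintro ⟨y, hy, hy2⟩
            rw [J_zero, J0] at hy2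
            simp only [Bool.not_eq_false', Bool.and_eq_true] at hy2
            obtain ⟨h3, h4⟩ := hy2
            rw [hZ1 y (by rw [hy]; ring)] at h3
            beta_reduce at h3
            split_ifs at h3 with h5
            · obtain ⟨p, hp⟩ := h5
              have h6 : y = yy p := List.append_cancel_left hp
              subst h6
              rw [hch p] at h3
              rw [hrev, interp_lits] at h4
              refine ⟨p.1, ?_⟩
              rw [hT3, paths_eval]
              exact ⟨pth p, hpth p, (key p).1 ⟨(conjT_eval Y _).1 h3, h4⟩⟩
            · simp [DT.eval] at h3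
          · rintro ⟨j, hj⟩
            rw [hT3, paths_eval] at hj
            obtain ⟨π, hπ, hπ2⟩ := hj
            obtain ⟨i, hi⟩ := List.get_of_mem hπ
            have hp : pth ⟨j, i⟩ = π := hi
            refine ⟨yy ⟨j, i⟩, hyl _, ?_⟩
            rw [J_zero, J0]
            simp only [Bool.not_eq_false', Bool.and_eq_true]
            obtain ⟨h3, h4⟩ := (key ⟨j, i⟩).2 (by rw [hp]; exact hπ2)
            constructor
            · rw [hZ1 _ (by rw [hyl]; ring)]
              have h5 : ∃ p', s ++ yy ⟨j, i⟩ = s ++ yy p' := ⟨_, rfl⟩
              beta_reduce
              rw [dif_pos h5, hch ⟨j, i⟩ h5]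
              exact (conjT_eval Y _).2 h3
            · rw [hrev, interp_lits]
              exact h4
        cases h3 : J (0 + 1) Z s <;> cases h4 : f Y <;> simp_all
  | succ k ih =>
      intro f hf s hs
      obtain ⟨g, h1, h2⟩ := hf
      have hcard : Fintype.card (Fin (2 ^ w)) ≤ Fintype.card (Fin w → Bool) := by simp
      obtain ⟨e⟩ := Function.Embedding.nonempty_of_card_le hcard
      let yy : Fin (2 ^ w) → Str := fun p => List.ofFn (e p) ++
        List.replicate (s.length - w) false
      have hyl : ∀ p, (yy p).length = s.length := by
        intro p
        simp only [yy, List.length_append, List.length_ofFn, List.length_replicate]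
        omega
      have hyi : ∀ p p', yy p = yy p' → p = p' := by
        intro p p' h
        have h3 := congrArg (List.take w) h
        simp only [yy] at h3
        rw [List.take_append_of_le_length (by simp), List.take_append_of_le_length (by simp),
          List.take_of_length_le (by simp), List.take_of_length_le (by simp)] at h3
        have h4 : e p = e p' := List.ofFn_injective h3
        exact e.injective h4
      let g' : Str → (Str → Bool) → Bool := fun y =>
        if h : ∃ p, y = yy p then g h.choose else fun _ => true
      have hg' : ∀ y, IsC S w t (k + 1) (g' y) := by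
        intro y
        simp only [g']
        split_ifs with h
        · exact h1 _
        · exact IsC.const _ _ _ _ _
      have hex : ∀ y : Str, ∃ Tab : Str → DT Str Bool, y.length = s.length →
          (∀ v, (Tab v).depth ≤ t) ∧
          (∀ v, (Tab v).QIn {u | u ∈ S ∧ cx u = none}) ∧
          ∀ (Y : Str → Bool) (Z : Lang),
            (∀ r : Str, r.length + (s ++ y).length = 2 ^ (k + 1) * (s ++ y).length →
              Z (false :: ((s ++ y) ++ r)) = (Tab ((s ++ y) ++ r)).eval Y) →
            (∀ u ∈ S, ∀ x, cx u = some x → Z (true :: x) = Y u) →
            J (k + 1) Z (s ++ y) = g' y Y := by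
        intro y
        by_cases hy : y.length = s.length
        · obtain ⟨Tab, h⟩ := ih (g' y) (hg' y) (s ++ y) (by
            rw [List.length_append]; omega)
          exact ⟨Tab, fun _ => h⟩
        · exact ⟨fun _ => DT.leaf false, fun h => absurd h hy⟩
      choose Tab hTab using hex
      have hss : s.length = s.length := rfl
      refine ⟨fun v => if ((v.drop s.length).take s.length).length = s.length then
        Tab ((v.drop s.length).take s.length) v else DT.leaf false, ?_, ?_, ?_⟩
      · intro v
        beta_reduce
        split_ifs with h
        · exact (hTab _ h).1 v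
        · simp [DT.depth]
      · intro v
        beta_reduce
        split_ifs with h
        · exact (hTab _ h).2.1 v
        · trivial
      · intro Y Z hZ1 hZ2
        have hJ : ∀ y : Str, y.length = s.length → J (k + 1) Z (s ++ y) = g' y Y := by
          intro y hy
          refine (hTab y hy).2.2 Y Z ?_ hZ2
          intro r hr
          have h3 := hZ1 (y ++ r) (by
            simp only [List.length_append, hy] at hr ⊢
            calc s.length + r.length + s.length = r.length + (s.length + s.length) := by ring
              _ = 2 ^ (k + 1) * (s.length + s.length) := hr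
              _ = _ := by ring)
          rw [← List.append_assoc] at h3
          rw [h3]
          have h4 : (List.take s.length (List.drop s.length (s ++ y ++ r))) = y := by
            rw [List.append_assoc, List.drop_left, ← hy, List.take_left]
          beta_reduce
          rw [h4, if_pos hy]
        have hfin : J (k + 1 + 1) Z s = true ↔ f Y = true := by
          rw [J_succ, EE_true, h2]
          constructor
          · rintro ⟨y, hy, hy2⟩
            rw [hJ y hy] at hy2
            simp only [g'] at hy2
            split_ifs at hy2 with h
            exact ⟨_, hy2⟩
          · rintro ⟨j, hj⟩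
            refine ⟨yy j, hyl j, ?_⟩
            rw [hJ _ (hyl j)]
            have h : ∃ p, yy j = yy p := ⟨j, rfl⟩
            simp only [g', h, dite_true]
            have h3 : h.choose = j := (hyi _ _ h.choose_spec).symm
            rw [h3]; exact hj
        cases h3 : J (k + 1 + 1) Z s <;> cases h4 : f Y <;> simp_all

end Pool.Agent.Lib.Pa76659
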