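import Pool.Agent.Lib.Pa76659.Col
import Pool.Agent.Lib.Pa76659.Hier

/-!
The hierarchy can be kept infinite.
-/

set_option maxHeartbeats 4000000

namespace Pool.Agent.Lib.Pa76659

open Hier

theorem Mb_poly : ∀ (k b c a : ℕ), ∃ d : ℕ, ∀ n : ℕ, 2 ≤ n → ∀ t ≤ n ^ a,
    Mb (n ^ b) (n * c) k t ≤ n ^ d
  | 0, b, c, a => by
      refine ⟨a + 1, fun n hn t ht => ?_⟩
      have h1 : 1 ≤ n ^ a := Nat.one_le_pow _ _ (by omega)
      rw [Mb, pow_succ]
      nlinarith
  | k + 1, b, c, a => by
      obtain ⟨a', ha'⟩ := poly_le (Polynomial.X ^ b * Polynomial.C k + 2)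
      obtain ⟨d', hd'⟩ := Mb_poly k b c a'
      obtain ⟨d, hd⟩ := poly_le ((8 * Polynomial.X ^ a + 9) *
        (Polynomial.X * Polynomial.C c * (Polynomial.C k + 1) + 3) * (Polynomial.X ^ d' + 1))
      refine ⟨d, fun n hn t ht => ?_⟩
      have h1 := ha' n hn
      have h2 := hd n hn
      simp only [Polynomial.eval_add, Polynomial.eval_mul, Polynomial.eval_pow,
        Polynomial.eval_X, Polynomial.eval_C, Polynomial.eval_ofNat, Polynomial.eval_one] at h1 h2
      have h3 := hd' n hn _ h1
      rw [Mb]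
      refine le_trans ?_ h2
      have h4 : 8 * t + 9 ≤ 8 * n ^ a + 9 := by omega
      exact Nat.mul_le_mul (Nat.mul_le_mul_right _ h4) (by omega)

theorem pow_le_two_pow (d : ℕ) : ∃ n0 : ℕ, ∀ n : ℕ, n0 ≤ n → n ^ d ≤ 2 ^ n := by
  have h := tendsto_pow_const_div_const_pow_of_one_lt d (show (1 : ℝ) < 2 by norm_num)
  have h2 := h.eventually (gt_mem_nhds (show (0 : ℝ) < 1 by norm_num))
  obtain ⟨n0, hn0⟩ := Filter.eventually_atTop.1 h2
  refine ⟨n0, fun n hn => ?_⟩
  have h3 := hn0 n hn
  rw [div_lt_one (by positivity)] at h3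
  exact_mod_cast h3.le

/-- `QQ k X` is the test language of the `k`-th level -/
noncomputable def QQ (k : ℕ) (X : Lang) : Lang := EE^[k] X

theorem QQ_succ (k : ℕ) (X : Lang) : QQ (k + 1) X = EE (QQ k X) := by
  simp [QQ, Function.iterate_succ_apply']

/-- numbers as strings -/
noncomputable def bsE (m : ℕ) : Fin (2 ^ m) ≃ List.Vector Bool m :=
  (Fintype.equivFinOfCardEq (by simp)).symm

noncomputable def bs (m y : ℕ) : Str :=
  if h : y < 2 ^ m then (bsE m ⟨y, h⟩).1 else List.replicate m false

theorem bs_length (m y : ℕ) : (bs m y).length = m := by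
  unfold bs; split_ifs with h
  · exact (bsE m ⟨y, h⟩).2
  · simp

theorem bs_inj {m y y' : ℕ} (hy : y < 2 ^ m) (hy' : y' < 2 ^ m) (h : bs m y = bs m y') :
    y = y' := by
  unfold bs at h
  rw [dif_pos hy, dif_pos hy'] at h
  have := (bsE m).injective (Subtype.ext h)
  exact Fin.mk.inj_iff.1 this

theorem bs_surj {m : ℕ} {z : Str} (hz : z.length = m) : ∃ y < 2 ^ m, bs m y = z := by
  refine ⟨((bsE m).symm ⟨z, hz⟩).1, ((bsE m).symm ⟨z, hz⟩).2, ?_⟩
  unfold bs
  rw [dif_pos ((bsE m).symm ⟨z, hz⟩).2]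
  exact congrArg Subtype.val ((bsE m).apply_symm_apply ⟨z, hz⟩)

/-- the string of a path -/
noncomputable def es (s : Str) : List ℕ → Str
  | [] => s
  | y :: u => es s u ++ bs (es s u).length y

theorem es_length (s : Str) : ∀ u : List ℕ, (es s u).length = s.length * 2 ^ u.length
  | [] => by simp [es]
  | y :: u => by
      rw [es, List.length_append, bs_length, es_length s u, List.length_cons, pow_succ]
      ring

/-- valid paths -/
def Valid (s : Str) : List ℕ → Prop
  | [] => True
  | y :: u => y < 2 ^ (es s u).length ∧ Valid s u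

theorem es_inj (s : Str) : ∀ u u' : List ℕ, u.length = u'.length → Valid s u → Valid s u' →
    es s u = es s u' → u = u'
  | [], [], _, _, _, _ => rfl
  | [], _ :: _, h, _, _, _ => by simp at h
  | _ :: _, [], h, _, _, _ => by simp at h
  | y :: u, y' :: u', h, ⟨h1, h2⟩, ⟨h3, h4⟩, he => by
      have hl : u.length = u'.length := by simpa using h
      have hl2 : (es s u).length = (es s u').length := by rw [es_length, es_length, hl]
      simp only [es] at he
      obtain ⟨h5, h6⟩ := List.append_inj he hl2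
      have h7 := es_inj s u u' hl h2 h4 h5
      subst h7
      rw [bs_inj h1 h3 h6]

theorem es_prefix (s : Str) : ∀ u : List ℕ, ∃ r, es s u = s ++ r
  | [] => ⟨[], by simp [es]⟩
  | y :: u => by
      obtain ⟨r, hr⟩ := es_prefix s u
      exact ⟨r ++ bs (es s u).length y, by rw [es, hr]; simp⟩

theorem QQ_tr (s : Str) (κ : ℕ) (X : Lang) (x : List ℕ → Bool)
    (hX : ∀ u : List ℕ, u.length = κ → Valid s u → X (es s u) = x u) :
    ∀ (j : ℕ) (u : List ℕ), u.length + j = κ → Valid s u →
      QQ j X (es s u) = tr (fun i => 2 ^ (s.length * 2 ^ (κ - 1 - i))) j x u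
  | 0, u, hu, hv => by
      rw [tr]; exact hX u (by omega) hv
  | j + 1, u, hu, hv => by
      have hlen : (es s u).length = s.length * 2 ^ (κ - 1 - j) := by
        rw [es_length]
        congr 2
        omega
      have ih : ∀ y < 2 ^ (es s u).length, QQ j X (es s u ++ bs (es s u).length y)
          = tr (fun i => 2 ^ (s.length * 2 ^ (κ - 1 - i))) j x (y :: u) := by
        intro y hy
        exact QQ_tr s κ X x hX j (y :: u) (by simp only [List.length_cons]; omega) ⟨hy, hv⟩
      rw [QQ_succ, tr]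
      unfold EE
      apply decide_eq_decide.2
      rw [← hlen]
      constructor
      · rintro ⟨z, hz, hz2⟩
        obtain ⟨y, hy, rfl⟩ := bs_surj hz
        exact ⟨y, hy, by rw [← ih y hy]; exact hz2⟩
      · rintro ⟨y, hy, hy2⟩
        exact ⟨bs (es s u).length y, bs_length _ _, by rw [ih y hy]; exact hy2⟩

theorem exists_diff {K : ℕ} {q : Cond} (hq : WF q) (hg : Good K q) (p : PIx) (l : List NIx) :
    ∃ X, Mem q X ∧ ∃ s : Str, sEval p l X s ≠ QQ (max l.length K + 1) X s := by
  classical
  by_contra hcon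
  push Not at hcon
  set κ := max l.length K with hκ
  obtain ⟨b, n0, h⟩ := hg p l 1
  obtain ⟨d, hd⟩ := Mb_poly κ b (2 ^ κ) b
  obtain ⟨n1, hn1⟩ := pow_le_two_pow d
  set n := max (max n0 n1) (max q.N 2) with hn
  have e0 : n0 ≤ n := le_trans (le_max_left _ _) (le_max_left _ _)
  have e1 : n1 ≤ n := le_trans (le_max_right _ _) (le_max_left _ _)
  have e2 : q.N ≤ n := le_trans (le_max_left _ _) (le_max_right _ _)
  have e3 : 2 ≤ n := le_trans (le_max_right _ _) (le_max_right _ _)
  set s : Str := List.replicate n false with hs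
  have hsl : s.length = n := by simp [hs]
  have h1 := h n e0 (fun _ => false) s (by rw [hsl, pow_one])
  -- rename the variables
  have h2 := h1.rename (V' := List ℕ) (S' := Set.univ)
    (fun v => if h : ∃ u : List ℕ, u.length = κ + 1 ∧ Valid s u ∧ es s u = v then
      Sum.inl h.choose else Sum.inr false) (fun _ _ _ _ => trivial)
  refine LB (n ^ b) (n * 2 ^ κ) (2 ^ (n * 2 ^ κ)) le_rfl κ (n ^ b)
    (fun i => 2 ^ (s.length * 2 ^ (κ + 1 - 1 - i))) ?_ (h2.congr ?_)
  · intro i hi
    have h3 := hd n e3 (n ^ b) le_rfl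
    have h4 := hn1 n e1
    rw [hsl, Nat.add_sub_cancel]
    constructor
    · refine (h3.trans h4).trans (Nat.pow_le_pow_right (by norm_num) ?_)
      exact Nat.le_mul_of_pos_right _ (by positivity)
    · apply Nat.pow_le_pow_right (by norm_num)
      exact Nat.mul_le_mul_left _ (Nat.pow_le_pow_right (by norm_num) (Nat.sub_le _ _))
  · intro x
    set Y : Lang := fun v => Sum.elim x id (if h : ∃ u : List ℕ, u.length = κ + 1 ∧
      Valid s u ∧ es s u = v then Sum.inl h.choose else Sum.inr false) with hY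
    have h3 := hcon (Phi q (mix n (fun _ => false) Y)) (Phi_mem hq _) s
    show sEval p l (Phi q (mix n (fun _ => false) Y)) s = _
    rw [h3]
    have h4 := QQ_tr s (κ + 1) (Phi q (mix n (fun _ => false) Y)) x (by
      intro u hu hv
      have hlen : n ≤ (es s u).length := by
        rw [es_length, hsl]
        exact Nat.le_mul_of_pos_right _ (by positivity)
      have hfree : Free q (es s u) := by
        obtain ⟨r, hr⟩ := es_prefix s u
        obtain ⟨c, hc⟩ : ∃ c, n = c + 1 := ⟨n - 1, by omega⟩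
        rw [hr, hs, hc, List.replicate_succ, List.cons_append]
        exact free_of_false _ _
      rw [Phi_free q _ _ (e2.trans hlen) hfree]
      unfold mix
      rw [if_neg (by omega)]
      have h5 : ∃ u' : List ℕ, u'.length = κ + 1 ∧ Valid s u' ∧ es s u' = es s u :=
        ⟨u, hu, hv, rfl⟩
      simp only [hY]
      rw [dif_pos h5]
      obtain ⟨h6, h7, h8⟩ := h5.choose_spec
      have h9 := es_inj s _ _ (h6.trans hu.symm) h7 hv h8
      simp only [Sum.elim_inl]
      rw [h9]) (κ + 1) [] (by simp) trivial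
    exact h4

end Pool.Agent.Lib.Pa76659
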