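import Pool.Agent.Lib.Pa76659.LBReq
import Pool.Agent.Lib.Pa76659.Basic

/-!
The stage construction and its limit.
-/

set_option maxHeartbeats 4000000

namespace Pool.Agent.Lib.Pa76659

/-- values on short strings depend on the oracle on finitely many strings -/
def Loc (F : Lang → Lang) : Prop := ∀ n : ℕ, ∃ m : ℕ, ∀ O O' : Lang,
  (∀ v : Str, v.length ≤ m → O v = O' v) → ∀ x : Str, x.length ≤ n → F O x = F O' x

theorem loc_sEval (p : PIx) (l : List NIx) : Loc (sEval p l) := by
  obtain ⟨b, hb⟩ := sEval_congr p l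
  intro n
  refine ⟨(n + 2) ^ b, fun O O' h x hx => hb x O O' fun v hv => h v (hv.trans ?_)⟩
  exact Nat.pow_le_pow_left (by omega) b

theorem loc_nEval (i : NIx) : Loc (nEval i) := by
  obtain ⟨b, hb⟩ := nEval_congr i
  intro n
  refine ⟨(n + 2) ^ b, fun O O' h x hx => hb x O O' fun v hv => h v (hv.trans ?_)⟩
  exact Nat.pow_le_pow_left (by omega) b

theorem Loc.comp {F G : Lang → Lang} (hF : Loc F) (hG : Loc G) : Loc (fun O => F (G O)) := by
  intro n
  obtain ⟨m, hm⟩ := hF n
  obtain ⟨m', hm'⟩ := hG m
  exact ⟨m', fun O O' h x hx => hm _ _ (fun v hv => hm' O O' h v hv) x hx⟩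

theorem loc_EE : Loc EE := by
  intro n
  refine ⟨2 * n, fun O O' h x hx => ?_⟩
  unfold EE
  apply decide_eq_decide.2
  have key : ∀ y : Str, y.length = x.length → O (x ++ y) = O' (x ++ y) := by
    intro y hy
    apply h
    rw [List.length_append]; omega
  constructor
  · rintro ⟨y, hy, hy2⟩; exact ⟨y, hy, by rw [← key y hy]; exact hy2⟩
  · rintro ⟨y, hy, hy2⟩; exact ⟨y, hy, by rw [key y hy]; exact hy2⟩

theorem interp_congr (Z Z' : Lang) : ∀ (r u : Str),
    (∀ v : Str, v.length ≤ r.length + u.length + 1 → Z v = Z' v) →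
    interp Z r u = interp Z' r u
  | true :: false :: b :: r, u, h => by
      rw [interp, interp]
      apply interp_congr Z Z' r (b :: u)
      intro v hv
      apply h
      simp only [List.length_cons] at hv ⊢
      omega
  | true :: true :: b :: r, u, h => by
      rw [interp, interp, h (true :: u) (by simp only [List.length_cons]; omega),
        interp_congr Z Z' r [] (by
          intro v hv
          apply h
          simp only [List.length_cons, List.length_nil] at hv ⊢
          omega)]
  | [], u, _ => by simp [interp]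
  | false :: _, u, _ => by simp [interp]
  | [true], u, _ => by simp [interp]
  | [true, true], u, _ => by simp [interp]
  | [true, false], u, _ => by simp [interp]

theorem loc_J0 : Loc J0 := by
  intro n
  refine ⟨n + 1, fun O O' h x hx => ?_⟩
  unfold J0
  rw [h (false :: x) (by simp only [List.length_cons]; omega),
    interp_congr O O' x.reverse [] (by
      intro v hv
      apply h
      simp only [List.length_reverse, List.length_nil] at hv
      omega)]

theorem loc_J : ∀ k : ℕ, Loc (J k)
  | 0 => loc_J0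
  | k + 1 => by
      have h := loc_EE.comp (loc_J k)
      intro n
      obtain ⟨m, hm⟩ := h n
      refine ⟨m, fun O O' h x hx => ?_⟩
      rw [J_succ, J_succ]
      exact hm O O' h x hx

theorem loc_QQ : ∀ k : ℕ, Loc (QQ k)
  | 0 => fun n => ⟨n, fun O O' h x hx => h x hx⟩
  | k + 1 => by
      have h := loc_EE.comp (loc_QQ k)
      intro n
      obtain ⟨m, hm⟩ := h n
      refine ⟨m, fun O O' h x hx => ?_⟩
      rw [QQ_succ, QQ_succ]
      exact hm O O' h x hx

theorem loc_join {F : Lang → Lang} (hF : Loc F) : Loc (fun O => join O (F O)) := by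
  intro n
  obtain ⟨m, hm⟩ := hF n
  refine ⟨max m n, fun O O' h x hx => ?_⟩
  rcases x with _ | ⟨b, v⟩
  · rfl
  · simp only [List.length_cons] at hx
    cases b
    · exact h v (by omega)
    · exact hm O O' (fun u hu => h u (by omega)) v (by omega)

/-- The limit of a sequence of conditions. -/
theorem exists_limit (P : Cond → Prop) (R : ℕ → Lang → Prop) (q0 : Cond) (hq0 : WF q0)
    (hP0 : P q0) (next : ∀ (n : ℕ) (q : Cond), WF q → P q → ∃ q', WF q' ∧ P q' ∧ q.N < q'.N ∧
      (∀ X, Mem q' X → Mem q X) ∧ ∀ X, Mem q' X → R n X) :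
    ∃ X, Mem q0 X ∧ ∀ n, R n X := by
  classical
  let St := {q : Cond // WF q ∧ P q}
  choose nx h1 h2 h3 h4 h5 using fun (n : ℕ) (a : St) => next n a.1 a.2.1 a.2.2
  let st : ℕ → St := fun n => Nat.rec (⟨q0, hq0, hP0⟩ : St)
    (fun n a => ⟨nx n a, h1 n a, h2 n a⟩) n
  have hst : ∀ n, (st (n + 1)).1 = nx n (st n) := fun n => rfl
  have hN : ∀ n, n ≤ (st n).1.N := by
    intro n
    induction n with
    | zero => exact Nat.zero_le _
    | succ n ih =>
        have := h3 n (st n)
        rw [hst]; omega
  have hmem : ∀ n m, n ≤ m → ∀ X, Mem (st m).1 X → Mem (st n).1 X := by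
    intro n m hnm
    induction m, hnm using Nat.le_induction with
    | base => exact fun X h => h
    | succ m _ ih =>
        intro X hX
        rw [hst] at hX
        exact ih X (h4 m (st m) X hX)
  let W : ℕ → Lang := fun n => Phi (st n).1 (fun _ => false)
  have hW : ∀ n, Mem (st n).1 (W n) := fun n => Phi_mem (st n).2.1 _
  have hWW : ∀ n m, n ≤ m → ∀ v : Str, v.length < (st n).1.N → W m v = W n v := by
    intro n m hnm v hv
    rw [((hmem n m hnm (W m) (hW m)) v).1 hv, ((hW n) v).1 hv]
  let X : Lang := fun v => W (v.length + 1) v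
  have hX : ∀ n, ∀ v : Str, v.length < (st n).1.N → X v = W n v := by
    intro n v hv
    show W (v.length + 1) v = W n v
    have h6 : v.length < (st (v.length + 1)).1.N := by
      have := hN (v.length + 1); omega
    rcases le_total n (v.length + 1) with h | h
    · exact hWW n _ h v hv
    · exact (hWW _ n h v h6).symm
  have hXm : ∀ n, Mem (st n).1 X := by
    intro n v
    set m := max n (v.length + 1) with hm
    have hvm : v.length < (st m).1.N := by
      have := hN m; omega
    have hmm := (hmem n m (le_max_left _ _) (W m) (hW m)) v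
    refine ⟨?_, ?_, ?_⟩
    · intro hv
      rw [hX m v hvm]; exact hmm.1 hv
    · intro hv ht
      rw [hX m v hvm]; exact hmm.2.1 hv ht
    · intro hv j i B x hE hvc
      rw [hX m v hvm, hmm.2.2 hv j i B x hE hvc]
      apply ((st n).2.1.good j i B hE).congr j
      intro u hu
      rw [← hvc] at hu
      exact (hX m u (by omega)).symm
  refine ⟨X, hXm 0, fun n => ?_⟩
  have h6 := hXm (n + 1)
  rw [hst] at h6
  exact h5 n (st n) X h6

theorem QQ_mem (X : Lang) (k : ℕ) : QQ k X ∈ Sig X k := EE_iter_mem _ (query_mem X) k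

/-- Every condition has a member relative to which the hierarchy is infinite. -/
theorem exists_infinite {K : ℕ} {q : Cond} (hq : WF q) (hg : Good K q) :
    ∃ X, Mem q X ∧ ∀ k, Sig X k ≠ Sig X (k + 1) := by
  have hne : Nonempty (PIx × List NIx) := ⟨((Prog.skip, 0), [])⟩
  obtain ⟨req, hreq⟩ := exists_surjective_nat (PIx × List NIx)
  obtain ⟨X, hX, hR⟩ := exists_limit (Good K)
    (fun n X => ∃ s : Str, sEval (req n).1 (req n).2 X s ≠
      QQ (max (req n).2.length K + 1) X s) q hq hg (by
      intro n q hq hg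
      obtain ⟨X, hX, s, hs⟩ := exists_diff hq hg (req n).1 (req n).2
      obtain ⟨m1, hm1⟩ := loc_sEval (req n).1 (req n).2 s.length
      obtain ⟨m2, hm2⟩ := loc_QQ (max (req n).2.length K + 1) s.length
      set M := max (q.N + 1) (max m1 m2 + 1) with hM
      have hNM : q.N ≤ M := by omega
      refine ⟨freeze q X M, freeze_wf hq X hNM, good_freeze hq hg hX hNM, ?_, ?_, ?_⟩
      · show q.N < M; omega
      · intro X' hX'; exact freeze_mem hq hX hNM hX'
      · intro X' hX'
        have h1 : ∀ v : Str, v.length < M → X' v = X v := fun v hv => (hX' v).1 hv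
        refine ⟨s, ?_⟩
        rw [hm1 X' X (fun v hv => h1 v (by omega)) s le_rfl,
          hm2 X' X (fun v hv => h1 v (by omega)) s le_rfl]
        exact hs)
  refine ⟨X, hX, fun k hk => ?_⟩
  have h1 := sig_collapse hk
  have h2 : QQ (max k K + 1) X ∈ Sig X k := by
    have h3 := QQ_mem X (max k K + 1)
    rwa [show max k K + 1 = k + (max k K + 1 - k) by omega, h1,
      show k + (max k K + 1 - k) = max k K + 1 by omega] at h3
  obtain ⟨p, l, hl, h4⟩ := exists_sEval h2
  obtain ⟨n, hn⟩ := hreq (p, l)
  obtain ⟨s, hs⟩ := hR n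
  rw [hn] at hs
  simp only [hl, ← h4] at hs
  exact hs rfl

/-! ### halting machines -/

/-- the clocked machines halt in time -/
def Gen (p : PIx) : List NIx → Lang → Prop
  | [], X => ∀ x, Halts X p.1 (inp x) (p.2.eval x.length)
  | i :: l, X => Gen p l X ∧ ∀ x y : Str, y.length = i.2.2.eval x.length →
      Halts (sEval p l X) i.1 (inp2 x y) (i.2.1.eval x.length)

theorem sEval_mem {p : PIx} : ∀ {l : List NIx} {X : Lang}, Gen p l X →
    sEval p l X ∈ Sig X l.length
  | [], X, h => ⟨p.1, p.2, fun x => ⟨h x, rfl⟩⟩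
  | i :: l, X, h => ⟨sEval p l X, sEval_mem h.1, i.1, i.2.1, i.2.2, fun x =>
      ⟨h.2 x, by simp [sEval, nEval]⟩⟩

theorem exists_gen {O : Lang} : ∀ {k : ℕ} {L : Lang}, L ∈ Sig O k →
    ∃ p l, l.length = k ∧ L = sEval p l O ∧ Gen p l O
  | 0, L, ⟨M, p, hM⟩ => ⟨(M, p), [], rfl, funext fun x => (hM x).2, fun x => (hM x).1⟩
  | k + 1, L, ⟨B, hB, hL⟩ => by
      classical
      obtain ⟨p, l, hl, hB2, hg⟩ := exists_gen hB
      obtain ⟨M, p1, q, hM⟩ := hL
      refine ⟨p, (M, p1, q) :: l, by simp [hl], ?_, hg, ?_⟩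
      · funext x
        have h1 := (hM x).2
        rw [hB2] at h1
        simp only [sEval, nEval]
        by_cases h2 : L x = true
        · rw [h2, eq_comm, decide_eq_true_eq]
          exact h1.1 h2
        · have h3 := fun h => h2 (h1.2 h)
          rw [Bool.not_eq_true] at h2
          rw [h2, eq_comm, decide_eq_false_iff_not]
          exact h3
      · intro x y hy
        have h1 := (hM x).1 y hy
        rwa [hB2] at h1

theorem halts_congr {O O' : Lang} {M : Prog} {s : ℕ → Str} {m n : ℕ} (hs : Bdd m s)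
    (h : ∀ v : Str, v.length ≤ m + n → O v = O' v) (hh : Halts O M s n) : Halts O' M s n := by
  have : runN O n ([M], s) = runN O' n ([M], s) := by
    rw [← runTree_eval, ← runTree_eval]
    exact DT.eval_congr (S := {v | v.length ≤ m + n}) h (runTree_qin n m _ hs)
  rw [Halts, ← this]; exact hh

theorem gen_local {p : PIx} : ∀ {l : List NIx} {X : Lang}, ¬ Gen p l X → ∃ m : ℕ,
    ∀ X' : Lang, (∀ v : Str, v.length ≤ m → X' v = X v) → ¬ Gen p l X'
  | [], X, h => by
      unfold Gen at h
      push Not at h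
      obtain ⟨x, hx⟩ := h
      refine ⟨x.length + p.2.eval x.length, fun X' hX' hg => hx ?_⟩
      exact halts_congr (inp_bdd x) hX' (hg x)
  | i :: l, X, h => by
      by_cases h1 : Gen p l X
      · unfold Gen at h
        push Not at h
        obtain ⟨x, y, hy, hx⟩ := h h1
        obtain ⟨m, hm⟩ := loc_sEval p l (x.length + y.length + i.2.1.eval x.length)
        refine ⟨m, fun X' hX' hg => hx ?_⟩
        exact halts_congr (inp2_bdd x y) (fun v hv => hm X' X hX' v hv) (hg.2 x y hy)
      · obtain ⟨m, hm⟩ := gen_local h1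
        exact ⟨m, fun X' hX' hg => hm X' hX' hg.1⟩

/-! ### lowness at higher levels -/

noncomputable def iEE : NIx := (progEE, 10 * Polynomial.X + 10, Polynomial.X)

theorem nEval_iEE (B : Lang) : nEval iEE B = EE B := by
  funext x
  unfold nEval EE iEE
  apply decide_eq_decide.2
  simp only [Polynomial.eval_add, Polynomial.eval_mul, Polynomial.eval_ofNat,
    Polynomial.eval_X]
  have key : ∀ y : Str, accepts B progEE (inp2 x y) (10 * x.length + 10) = !(B (x ++ y)) := by
    intro y
    obtain ⟨s', h1, h2⟩ := exec_progEE B x y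
    obtain ⟨h3, h4⟩ := h1.halts le_rfl
    rw [h4, h2]
    cases B (x ++ y) <;> rfl
  constructor
  · rintro ⟨y, hy, hy2⟩
    rw [key] at hy2
    exact ⟨y, hy, by simpa using hy2⟩
  · rintro ⟨y, hy, hy2⟩
    exact ⟨y, hy, by rw [key, hy2]; rfl⟩

theorem LOW_succ {K : ℕ} {q : Cond} {i : NIx} {p0 : PIx} {l0 : List NIx}
    (h : LOW K q i p0 l0) : LOW (K + 1) q i p0 (iEE :: l0) := by
  intro X hX s
  have : J K (join X (nEval i X)) = sEval p0 l0 X := funext fun s => h X hX s
  rw [J_succ, this, sEval, nEval_iEE]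

theorem LOW_add {K : ℕ} {q : Cond} {i : NIx} {p0 : PIx} {l0 : List NIx}
    (h : LOW K q i p0 l0) (hl : l0.length = K) : ∀ d, ∃ l1 : List NIx, l1.length = K + d ∧
    LOW (K + d) q i p0 l1
  | 0 => ⟨l0, hl, h⟩
  | d + 1 => by
      obtain ⟨l1, h1, h2⟩ := LOW_add h hl d
      exact ⟨iEE :: l1, by rw [List.length_cons, h1]; ring, LOW_succ h2⟩

/-! ### tables -/

theorem code_append_inj {j B : ℕ} {x r : Str} {j' : ℕ} {x' r' : Str}
    (h : code j B x ++ r = code j' B x' ++ r') : j = j' ∧ x = x' := by
  rw [code_eq, code_eq, List.append_assoc, List.append_assoc, List.cons_append,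
    List.cons_append] at h
  obtain ⟨h1, h2⟩ := rep_inj true _ _ _ _ h
  rw [List.append_assoc, List.append_assoc, List.cons_append, List.cons_append] at h2
  obtain ⟨h3, h4⟩ := rep_inj false _ _ _ _ h2
  have h5 : x.length = x'.length := by
    have := Nat.pow_left_injective (show 2 ^ B ≠ 0 by positivity) h3
    omega
  exact ⟨by omega, (List.append_inj h4 h5).1⟩

/-- `J` is universal relative to `X` -/
def Univ (X : Lang) : Prop := ∀ (p : PIx) (l : List NIx), l ≠ [] → ∃ j B, ∀ x,
  J l.length (join X X) (code j B x) = sEval p l X x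

theorem exists_tables : ∃ τ : Lang, ∀ X : Lang, (∀ v, isTab v → X v = τ v) → Univ X := by
  classical
  obtain ⟨f, hf⟩ := exists_injective_nat (PIx × List NIx)
  have key : ∀ c : PIx × List NIx, ∃ B : ℕ, ∀ x : Str, ∃ T : Lang, ∀ X : Lang, c.2 ≠ [] →
      (∀ r : Str, X (code (2 * f c) B x ++ r) = T (code (2 * f c) B x ++ r)) →
      J c.2.length (join X X) (code (2 * f c) B x) = sEval c.1 c.2 X x := by
    rintro ⟨p, l⟩
    obtain ⟨b, hb⟩ := sEval_isC p l
    obtain ⟨B, hB⟩ := poly_le (Polynomial.X ^ b + Polynomial.X ^ b + 1 +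
      Polynomial.X ^ b * (3 * Polynomial.X ^ b + 3))
    refine ⟨B, fun x => ?_⟩
    rcases l with _ | ⟨i, l⟩
    · exact ⟨fun _ => false, fun X h => absurd rfl h⟩
    have h1 := hb (x.length + 2) (by omega) x (by omega)
    have h2 := hB (x.length + 2) (by omega)
    simp only [Polynomial.eval_add, Polynomial.eval_mul, Polynomial.eval_pow,
      Polynomial.eval_X, Polynomial.eval_ofNat, Polynomial.eval_one] at h2
    have h3 : (x.length + 2) ^ B ≤ (x.length + 2) ^ (2 ^ B) :=
      Nat.pow_le_pow_right (by omega) (Nat.lt_two_pow_self).le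
    obtain ⟨Tab, _, ht2, ht3⟩ := univJ some (SL ((x.length + 2) ^ b)) _ _
      ((x.length + 2) ^ b) (by
        intro v hv u hu
        simp only [Option.some.injEq] at hu
        rw [← hu]; exact hv) l.length _ h1 (code (2 * f (p, i :: l)) B x) (by
        rw [code_length]; omega)
    refine ⟨fun v => (Tab v).eval (fun _ => false), fun X _ hX => ?_⟩
    apply ht3
    · intro r _
      show X (code (2 * f (p, i :: l)) B x ++ r) = _
      rw [hX r]
      apply DT.eval_congr (S := ∅) (by simp)
      apply (ht2 _).mono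
      rintro u ⟨_, hu⟩
      simp at hu
    · intro u _ v hv
      simp only [Option.some.injEq] at hv
      rw [← hv]; rfl
  choose B T hT using key
  refine ⟨fun v => if h : ∃ c : (PIx × List NIx) × Str × Str,
    v = code (2 * f c.1) (B c.1) c.2.1 ++ c.2.2 then T h.choose.1 h.choose.2.1 v else false, ?_⟩
  intro X hX p l hl
  refine ⟨2 * f (p, l), B (p, l), fun x => hT (p, l) x X hl fun r => ?_⟩
  have ht : isTab (code (2 * f (p, l)) (B (p, l)) x ++ r) := by
    rw [code_eq]
    exact ⟨f (p, l), _, by rw [List.append_assoc, List.cons_append]⟩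
  rw [hX _ ht]
  have h : ∃ c : (PIx × List NIx) × Str × Str,
    code (2 * f (p, l)) (B (p, l)) x ++ r = code (2 * f c.1) (B c.1) c.2.1 ++ c.2.2 :=
    ⟨((p, l), x, r), rfl⟩
  beta_reduce
  rw [dif_pos h]
  have h1 := h.choose_spec
  set c := h.choose with hc
  have h2 : (p, l) = c.1 := by
    rw [code_eq, code_eq, List.append_assoc, List.append_assoc, List.cons_append,
      List.cons_append] at h1
    obtain ⟨h3, _⟩ := rep_inj true _ _ _ _ h1
    exact hf (by omega)
  rw [← h2] at h1 ⊢
  rw [← (code_append_inj h1).2]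

end Pool.Agent.Lib.Pa76659
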