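import Pool.Agent.Lib.Pa76659.Subst
import Pool.Agent.Lib.Pa76659.Cond

/-!
Two programs: for the base language `J0` and for reading a column.
-/

set_option maxHeartbeats 4000000

namespace Pool.Agent.Lib.Pa76659

variable {O : Lang}

theorem exec_clr_st (a0 a1 a2 a3 a4 a5 : Str) :
    Exec O (clr 1) (st [a0, a1, a2, a3, a4, a5]) (st [a0, [], a2, a3, a4, a5])
      (2 * a1.length + 1) := by
  have := exec_clr (O := O) 1 a1 (st [a0, a1, a2, a3, a4, a5]) rfl
  rwa [upd_st _ _ _ (by simp)] at this

/-- check one literal -/
def qlit (b : Bool) : Prog :=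
  Prog.seq (Prog.push 2 true) (Prog.seq (Prog.query 2 3) (Prog.seq
    (Prog.branch 3 (if b = true then Prog.skip else Prog.push 4 true)
      (if b = true then Prog.push 4 true else Prog.skip) Prog.skip)
    (Prog.seq (Prog.pop 3) (clr 2))))

theorem exec_qlit (b : Bool) (a0 a1 u f a5 : Str) :
    Exec O (qlit b) (st [a0, a1, u, [], f, a5])
      (st [a0, a1, [], [], if (O (true :: u) == b) = true then f else true :: f, a5])
      (2 * u.length + 12) := by
  have h1 := exec_push (O := O) 2 true (st [a0, a1, u, [], f, a5])
  rw [upd_st _ _ _ (by simp)] at h1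
  have h2 := exec_query (O := O) 2 3 (st [a0, a1, true :: u, [], f, a5])
  rw [upd_st _ _ _ (by simp)] at h2
  set z := O (true :: u) with hz
  have h3 : Exec O (Prog.branch 3 (if b = true then Prog.skip else Prog.push 4 true)
      (if b = true then Prog.push 4 true else Prog.skip) Prog.skip)
      (st [a0, a1, true :: u, [z], f, a5])
      (st [a0, a1, true :: u, [z], if (z == b) = true then f else true :: f, a5]) 2 := by
    have h4 := exec_push (O := O) 4 true (st [a0, a1, true :: u, [z], f, a5])
    rw [upd_st _ _ _ (by simp)] at h4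
    have h5 := exec_skip (O := O) (st [a0, a1, true :: u, [z], f, a5])
    cases hz2 : z
    · rw [hz2] at h4 h5
      refine Exec.branch_false (l := []) rfl ?_
      cases b
      · exact h5
      · exact h4
    · rw [hz2] at h4 h5
      refine Exec.branch_true (l := []) rfl ?_
      cases b
      · exact h4
      · exact h5
  have h4 := exec_pop (O := O) 3 (st [a0, a1, true :: u, [z],
    if (z == b) = true then f else true :: f, a5])
  rw [upd_st _ _ _ (by simp)] at h4
  have h5 := exec_clr (O := O) 2 (true :: u) (st [a0, a1, true :: u, [],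
    if (z == b) = true then f else true :: f, a5]) rfl
  rw [upd_st _ _ _ (by simp)] at h5
  refine (h1.seq (h2.seq (h3.seq (h4.seq h5)))).mono ?_
  simp only [List.length_cons]
  omega

def body1 : Prog :=
  Prog.branch 1
    (Prog.seq (Prog.pop 1) (Prog.branch 1
      (Prog.seq (Prog.pop 1) (Prog.branch 1
        (Prog.seq (Prog.pop 1) (qlit true))
        (Prog.seq (Prog.pop 1) (qlit false)) Prog.skip))
      (Prog.seq (Prog.pop 1) (Prog.branch 1
        (Prog.seq (Prog.pop 1) (Prog.push 2 true))
        (Prog.seq (Prog.pop 1) (Prog.push 2 false)) Prog.skip))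
      Prog.skip))
    (clr 1) Prog.skip

theorem exec_pop_st (a0 : Str) (c : Bool) (a1 a2 a3 a4 a5 : Str) :
    Exec O (Prog.pop 1) (st [a0, c :: a1, a2, a3, a4, a5]) (st [a0, a1, a2, a3, a4, a5]) 1 := by
  have := exec_pop (O := O) 1 (st [a0, c :: a1, a2, a3, a4, a5])
  rwa [upd_st _ _ _ (by simp)] at this

theorem exec_main (a0 a5 : Str) : ∀ (r u f : Str), ∃ u' f' : Str,
    Exec O (Prog.loop 1 body1) (st [a0, r, u, [], f, a5]) (st [a0, [], u', [], f', a5])
      ((r.length + 1) * (2 * (r.length + u.length) + 30)) ∧
    (f' = [] ↔ f = [] ∧ interp O r u = true)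
  | [], u, f => by
      refine ⟨u, f, (exec_loop_nil rfl).mono (by simp only [List.length_nil]; omega), ?_⟩
      simp [interp]
  | false :: r, u, f => by
      refine ⟨u, f, ?_, by simp [interp]⟩
      have h1 : Exec O body1 (st [a0, false :: r, u, [], f, a5]) (st [a0, [], u, [], f, a5])
          (2 * (r.length + 1) + 2) := Exec.branch_false (l := r) rfl
            ((exec_clr_st a0 (false :: r) u [] f a5).mono (by simp))
      refine (Exec.loop_cons (by simp [st]) h1 (exec_loop_nil rfl)).mono ?_
      simp only [List.length_cons]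
      nlinarith
  | [true], u, f => by
      refine ⟨u, f, ?_, by simp [interp]⟩
      have h1 : Exec O body1 (st [a0, [true], u, [], f, a5]) (st [a0, [], u, [], f, a5]) 5 :=
        Exec.branch_true (l := []) rfl (((exec_pop_st a0 true [] u [] f a5).seq
          (Exec.branch_nil rfl (exec_skip _))).mono (by omega))
      refine (Exec.loop_cons (by simp [st]) h1 (exec_loop_nil rfl)).mono ?_
      simp only [List.length_cons, List.length_nil]
      omega
  | [true, true], u, f => by
      refine ⟨u, f, ?_, by simp [interp]⟩
      have h1 : Exec O body1 (st [a0, [true, true], u, [], f, a5])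
          (st [a0, [], u, [], f, a5]) 9 :=
        Exec.branch_true (l := [true]) rfl (((exec_pop_st a0 true [true] u [] f a5).seq
          (Exec.branch_true (l := []) rfl ((exec_pop_st a0 true [] u [] f a5).seq
            (Exec.branch_nil rfl (exec_skip _))))).mono (by omega))
      refine (Exec.loop_cons (by simp [st]) h1 (exec_loop_nil rfl)).mono ?_
      simp only [List.length_cons, List.length_nil]
      omega
  | [true, false], u, f => by
      refine ⟨u, f, ?_, by simp [interp]⟩
      have h1 : Exec O body1 (st [a0, [true, false], u, [], f, a5])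
          (st [a0, [], u, [], f, a5]) 9 :=
        Exec.branch_true (l := [false]) rfl (((exec_pop_st a0 true [false] u [] f a5).seq
          (Exec.branch_false (l := []) rfl ((exec_pop_st a0 false [] u [] f a5).seq
            (Exec.branch_nil rfl (exec_skip _))))).mono (by omega))
      refine (Exec.loop_cons (by simp [st]) h1 (exec_loop_nil rfl)).mono ?_
      simp only [List.length_cons, List.length_nil]
      omega
  | true :: false :: b :: r, u, f => by
      obtain ⟨u', f', ih1, ih2⟩ := exec_main a0 a5 r (b :: u) f
      refine ⟨u', f', ?_, by rw [ih2]; simp [interp]⟩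
      have hpush : Exec O (Prog.push 2 b) (st [a0, r, u, [], f, a5])
          (st [a0, r, b :: u, [], f, a5]) 1 := by
        have := exec_push (O := O) 2 b (st [a0, r, u, [], f, a5])
        rwa [upd_st _ _ _ (by simp)] at this
      have h0 : Exec O (Prog.branch 1 (Prog.seq (Prog.pop 1) (Prog.push 2 true))
          (Prog.seq (Prog.pop 1) (Prog.push 2 false)) Prog.skip)
          (st [a0, b :: r, u, [], f, a5]) (st [a0, r, b :: u, [], f, a5]) 4 := by
        cases b
        · exact Exec.branch_false (l := r) rfl ((exec_pop_st a0 false r u [] f a5).seq hpush)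
        · exact Exec.branch_true (l := r) rfl ((exec_pop_st a0 true r u [] f a5).seq hpush)
      have h1 : Exec O body1 (st [a0, true :: false :: b :: r, u, [], f, a5])
          (st [a0, r, b :: u, [], f, a5]) 12 :=
        Exec.branch_true (l := false :: b :: r) rfl
          (((exec_pop_st a0 true (false :: b :: r) u [] f a5).seq
            (Exec.branch_false (l := b :: r) rfl
              ((exec_pop_st a0 false (b :: r) u [] f a5).seq h0))).mono (by omega))
      refine (Exec.loop_cons (by simp [st]) h1 ih1).mono ?_
      simp only [List.length_cons]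
      nlinarith
  | true :: true :: b :: r, u, f => by
      obtain ⟨u', f', ih1, ih2⟩ := exec_main a0 a5 r []
        (if (O (true :: u) == b) = true then f else true :: f)
      refine ⟨u', f', ?_, ?_⟩
      · have h0 : Exec O (Prog.branch 1 (Prog.seq (Prog.pop 1) (qlit true))
            (Prog.seq (Prog.pop 1) (qlit false)) Prog.skip)
            (st [a0, b :: r, u, [], f, a5]) (st [a0, r, [], [],
              if (O (true :: u) == b) = true then f else true :: f, a5])
              (2 * u.length + 15) := by
          have h2 := exec_qlit (O := O) b a0 r u f a5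
          cases b
          · exact (Exec.branch_false (l := r) rfl
              ((exec_pop_st a0 false r u [] f a5).seq h2)).mono (by omega)
          · exact (Exec.branch_true (l := r) rfl
              ((exec_pop_st a0 true r u [] f a5).seq h2)).mono (by omega)
        have h1 : Exec O body1 (st [a0, true :: true :: b :: r, u, [], f, a5])
            (st [a0, r, [], [], if (O (true :: u) == b) = true then f else true :: f, a5])
              (2 * u.length + 25) :=
          Exec.branch_true (l := true :: b :: r) rfl
            (((exec_pop_st a0 true (true :: b :: r) u [] f a5).seq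
              (Exec.branch_true (l := b :: r) rfl
                ((exec_pop_st a0 true (b :: r) u [] f a5).seq h0))).mono (by omega))
        refine (Exec.loop_cons (by simp [st]) h1 ih1).mono ?_
        simp only [List.length_cons, List.length_nil]
        nlinarith
      · rw [ih2, interp, Bool.and_eq_true]
        by_cases hz : (O (true :: u) == b) = true
        · simp [hz]
        · rw [if_neg hz]
          simp [hz]

def progJ0 : Prog :=
  Prog.seq (Prog.push 0 false) (Prog.seq (Prog.query 0 5) (Prog.seq (Prog.pop 0)
    (Prog.seq (mv 0 1) (Prog.seq (Prog.loop 1 body1)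
      (Prog.branch 5 (Prog.branch 4 (Prog.push 0 true) (Prog.push 0 true) (Prog.push 0 false))
        (Prog.push 0 true) Prog.skip)))))

theorem J0_mem (Z : Lang) : J0 Z ∈ PO Z := by
  refine ⟨progJ0, 5 * Polynomial.X + (Polynomial.X + 1) * (2 * Polynomial.X + 30) + 20,
    fun w => ?_⟩
  simp only [Polynomial.eval_add, Polynomial.eval_mul, Polynomial.eval_X, Polynomial.eval_ofNat,
    Polynomial.eval_one]
  have h1 := exec_push (O := Z) 0 false (st [w, [], [], [], [], []])
  rw [upd_st _ _ _ (by simp)] at h1
  have h2 := exec_query (O := Z) 0 5 (st [false :: w, [], [], [], [], []])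
  rw [upd_st _ _ _ (by simp)] at h2
  set z := Z (false :: w) with hz
  have h3 := exec_pop (O := Z) 0 (st [false :: w, [], [], [], [], [z]])
  rw [upd_st _ _ _ (by simp)] at h3
  have h4 := exec_mv (O := Z) (show 0 ≠ 1 by norm_num) w (st [w, [], [], [], [], [z]]) rfl
  rw [upd_st _ _ _ (by simp), upd_st _ _ _ (by simp)] at h4
  obtain ⟨u', f', h5, h6⟩ := exec_main (O := Z) [] [z] (w.reverse ++ []) [] []
  have h7 : Exec Z (Prog.branch 5 (Prog.branch 4 (Prog.push 0 true) (Prog.push 0 true)
      (Prog.push 0 false)) (Prog.push 0 true) Prog.skip) (st [[], [], u', [], f', [z]])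
      (st [[!(z && decide (f' = []))], [], u', [], f', [z]]) 3 := by
    have h8 : ∀ b, Exec Z (Prog.push 0 b) (st [[], [], u', [], f', [z]])
        (st [[b], [], u', [], f', [z]]) 1 := by
      intro b
      have := exec_push (O := Z) 0 b (st [[], [], u', [], f', [z]])
      rwa [upd_st _ _ _ (by simp)] at this
    cases hz2 : z
    · rw [hz2] at h8
      exact (Exec.branch_false (l := []) rfl (h8 true)).mono (by omega)
    · rw [hz2] at h8
      refine Exec.branch_true (l := []) rfl ?_
      rcases hf : f' with _ | ⟨c, l⟩
      · rw [hf] at h8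
        exact Exec.branch_nil rfl (h8 false)
      · rw [hf] at h8
        cases c
        · exact Exec.branch_false (l := l) rfl (h8 true)
        · exact Exec.branch_true (l := l) rfl (h8 true)
  have hall := h1.seq (h2.seq (h3.seq (h4.seq (h5.seq h7))))
  rw [← inp_st] at hall
  obtain ⟨h8, h9⟩ := hall.halts
    (N := 5 * w.length + (w.length + 1) * (2 * w.length + 30) + 20) (by
      simp only [List.append_nil, List.length_reverse, List.length_nil, Nat.add_zero]
      omega)
  refine ⟨h8, ?_⟩
  have h10 : decide (f' = []) = interp Z w.reverse [] := by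
    rw [List.append_nil] at h6
    cases h11 : interp Z w.reverse []
    · rw [h11] at h6
      simp only [decide_eq_false_iff_not, h6]; simp
    · rw [h11] at h6
      simp [h6]
  refine Eq.trans ?_ h9.symm
  rw [h10]
  unfold J0
  rw [← hz]
  cases (z && interp Z w.reverse []) <;> rfl

/-! ### reading a column -/

/-- squaring the length of register `1` -/
def sq : Prog :=
  Prog.seq (Prog.loop 1 (Prog.seq (Prog.pop 1) (Prog.seq (Prog.push 2 true) (Prog.push 3 true))))
    (Prog.seq (Prog.loop 2 (Prog.seq (Prog.pop 2) (Prog.seq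
        (Prog.loop 3 (Prog.seq (Prog.pop 3) (Prog.seq (Prog.push 4 true) (Prog.push 1 true))))
        (mv 4 3))))
      (clr 3))

theorem exec_sq1 (a e : Str) : ∀ (u v w : Str), ∃ v' w' : Str,
    Exec O (Prog.loop 1 (Prog.seq (Prog.pop 1) (Prog.seq (Prog.push 2 true) (Prog.push 3 true))))
      (st [a, u, v, w, [], e]) (st [a, [], v', w', [], e]) (6 * u.length + 1) ∧
    v'.length = v.length + u.length ∧ w'.length = w.length + u.length
  | [], v, w => ⟨v, w, (exec_loop_nil rfl).mono (by omega), by simp, by simp⟩
  | c :: u, v, w => by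
      obtain ⟨v', w', ih, e1, e2⟩ := exec_sq1 a e u (true :: v) (true :: w)
      refine ⟨v', w', ?_, by simp only [e1, List.length_cons]; omega,
        by simp only [e2, List.length_cons]; omega⟩
      have h1 := exec_pop (O := O) 1 (st [a, c :: u, v, w, [], e])
      rw [upd_st _ _ _ (by simp)] at h1
      have h2 := exec_push (O := O) 2 true (st [a, u, v, w, [], e])
      rw [upd_st _ _ _ (by simp)] at h2
      have h3 := exec_push (O := O) 3 true (st [a, u, true :: v, w, [], e])
      rw [upd_st _ _ _ (by simp)] at h3
      refine (Exec.loop_cons (by simp [st]) (h1.seq (h2.seq h3)) ih).mono ?_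
      simp only [List.length_cons]
      omega

theorem exec_sq2 (a v e : Str) : ∀ (w z u : Str), ∃ z' u' : Str,
    Exec O (Prog.loop 3 (Prog.seq (Prog.pop 3) (Prog.seq (Prog.push 4 true) (Prog.push 1 true))))
      (st [a, u, v, w, z, e]) (st [a, u', v, [], z', e]) (6 * w.length + 1) ∧
    z'.length = z.length + w.length ∧ u'.length = u.length + w.length
  | [], z, u => ⟨z, u, (exec_loop_nil rfl).mono (by omega), by simp, by simp⟩
  | c :: w, z, u => by
      obtain ⟨z', u', ih, e1, e2⟩ := exec_sq2 a v e w (true :: z) (true :: u)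
      refine ⟨z', u', ?_, by simp only [e1, List.length_cons]; omega,
        by simp only [e2, List.length_cons]; omega⟩
      have h1 := exec_pop (O := O) 3 (st [a, u, v, c :: w, z, e])
      rw [upd_st _ _ _ (by simp)] at h1
      have h2 := exec_push (O := O) 4 true (st [a, u, v, w, z, e])
      rw [upd_st _ _ _ (by simp)] at h2
      have h3 := exec_push (O := O) 1 true (st [a, u, v, w, true :: z, e])
      rw [upd_st _ _ _ (by simp)] at h3
      refine (Exec.loop_cons (by simp [st]) (h1.seq (h2.seq h3)) ih).mono ?_
      simp only [List.length_cons]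
      omega

theorem exec_sq3 (a e : Str) : ∀ (v w u : Str), ∃ w' u' : Str,
    Exec O (Prog.loop 2 (Prog.seq (Prog.pop 2) (Prog.seq
        (Prog.loop 3 (Prog.seq (Prog.pop 3) (Prog.seq (Prog.push 4 true) (Prog.push 1 true))))
        (mv 4 3))))
      (st [a, u, v, w, [], e]) (st [a, u', [], w', [], e])
        (v.length * (11 * w.length + 10) + 1) ∧
    w'.length = w.length ∧ u'.length = u.length + v.length * w.length
  | [], w, u => ⟨w, u, (exec_loop_nil rfl).mono (by omega), rfl, by simp⟩
  | c :: v, w, u => by
      have h1 := exec_pop (O := O) 2 (st [a, u, c :: v, w, [], e])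
      rw [upd_st _ _ _ (by simp)] at h1
      obtain ⟨z', u', h2, e1, e2⟩ := exec_sq2 (O := O) a v e w [] u
      have h3 := exec_mv (O := O) (show 4 ≠ 3 by norm_num) z' (st [a, u', v, [], z', e]) rfl
      rw [upd_st _ _ _ (by simp), upd_st _ _ _ (by simp)] at h3
      obtain ⟨w', u'', ih, e3, e4⟩ := exec_sq3 a e v (z'.reverse ++ []) u'
      have e5 : (z'.reverse ++ []).length = w.length := by simp [e1]
      refine ⟨w', u'', ?_, by rw [e3, e5], ?_⟩
      · refine (Exec.loop_cons (by simp [st]) (h1.seq (h2.seq h3)) ih).mono ?_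
        rw [e5]
        simp only [List.length_cons, e1, List.length_nil, Nat.zero_add]
        nlinarith
      · rw [e4, e5, e2, List.length_cons]
        ring

theorem exec_sq (a u e : Str) : ∃ w : Str, Exec O sq (st [a, u, [], [], [], e])
    (st [a, w, [], [], [], e]) (30 * (u.length + 1) ^ 2) ∧ w.length = u.length ^ 2 := by
  obtain ⟨v1, w1, h1, e1, e2⟩ := exec_sq1 (O := O) a e u [] []
  obtain ⟨w2, u2, h2, e3, e4⟩ := exec_sq3 (O := O) a e v1 w1 []
  have h3 := exec_clr (O := O) 3 w2 (st [a, u2, [], w2, [], e]) rfl
  rw [upd_st _ _ _ (by simp)] at h3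
  simp only [List.length_nil, Nat.zero_add] at e1 e2 e4
  refine ⟨u2, (h1.seq (h2.seq h3)).mono ?_, ?_⟩
  · rw [e3, e1, e2]
    nlinarith
  · rw [e4, e1, e2]; ring

def sqN : ℕ → Prog
  | 0 => Prog.skip
  | B + 1 => Prog.seq sq (sqN B)

theorem exec_sqN (a e : Str) (M : ℕ) : ∀ (B : ℕ) (u : Str), u.length ^ (2 ^ B) ≤ M →
    ∃ w : Str, Exec O (sqN B) (st [a, u, [], [], [], e]) (st [a, w, [], [], [], e])
      (B * (31 * (M + 1) ^ 2) + 1) ∧ w.length = u.length ^ (2 ^ B)
  | 0, u, h => ⟨u, (exec_skip _).mono (by omega), by simp⟩
  | B + 1, u, h => by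
      obtain ⟨w1, h1, e1⟩ := exec_sq (O := O) a u e
      have e2 : w1.length ^ (2 ^ B) = u.length ^ (2 ^ (B + 1)) := by
        rw [e1, ← pow_mul]; congr 1; ring
      obtain ⟨w2, h2, e3⟩ := exec_sqN a e M B w1 (by rw [e2]; exact h)
      refine ⟨w2, (h1.seq h2).mono ?_, by rw [e3, e2]⟩
      have h3 : u.length ≤ M := (Nat.le_self_pow (by positivity) _).trans h
      have h4 : (u.length + 1) ^ 2 ≤ (M + 1) ^ 2 := Nat.pow_le_pow_left (by omega) 2
      have h5 : 1 ≤ (M + 1) ^ 2 := Nat.one_le_pow _ _ (by omega)
      have h6 : (B + 1) * (31 * (M + 1) ^ 2) = B * (31 * (M + 1) ^ 2) + 31 * (M + 1) ^ 2 := by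
        ring
      omega

theorem exec_padl (e : Str) : ∀ (u a : Str),
    Exec O (Prog.loop 1 (Prog.seq (Prog.pop 1) (Prog.push 0 false)))
      (st [a, u, [], [], [], e]) (st [List.replicate u.length false ++ a, [], [], [], [], e])
        (4 * u.length + 1)
  | [], a => (exec_loop_nil rfl).mono (by omega)
  | c :: u, a => by
      have ih := exec_padl e u (false :: a)
      have h1 := exec_pop (O := O) 1 (st [a, c :: u, [], [], [], e])
      rw [upd_st _ _ _ (by simp)] at h1
      have h2 := exec_push (O := O) 0 false (st [a, u, [], [], [], e])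
      rw [upd_st _ _ _ (by simp)] at h2
      have h3 := Exec.loop_cons (by simp [st]) (h1.seq h2) ih
      have e1 : List.replicate u.length false ++ false :: a =
          List.replicate (c :: u).length false ++ a := by
        rw [List.length_cons, List.replicate_succ']; simp
      rw [e1] at h3
      refine h3.mono ?_
      simp only [List.length_cons]
      omega

def pushN : ℕ → Prog
  | 0 => Prog.skip
  | j + 1 => Prog.seq (Prog.push 0 true) (pushN j)

theorem exec_pushN (e : Str) : ∀ (j : ℕ) (a : Str),
    Exec O (pushN j) (st [a, [], [], [], [], e])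
      (st [List.replicate j true ++ a, [], [], [], [], e]) (2 * j + 1)
  | 0, a => exec_skip _
  | j + 1, a => by
      have ih := exec_pushN e j (true :: a)
      have h2 := exec_push (O := O) 0 true (st [a, [], [], [], [], e])
      rw [upd_st _ _ _ (by simp)] at h2
      have h3 := h2.seq ih
      have e1 : List.replicate j true ++ true :: a = List.replicate (j + 1) true ++ a := by
        rw [List.replicate_succ']; simp
      rw [e1] at h3
      exact h3.mono (by omega)

def progCol (j B : ℕ) : Prog :=
  Prog.seq (cp 0 1 2) (Prog.seq (mv 2 0) (Prog.seq (Prog.push 1 true) (Prog.seq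
    (Prog.push 1 true) (Prog.seq (sqN B) (Prog.seq (Prog.push 0 true) (Prog.seq
      (Prog.loop 1 (Prog.seq (Prog.pop 1) (Prog.push 0 false))) (Prog.seq (Prog.push 0 false)
        (Prog.seq (pushN (j + 1)) (Prog.query 0 0)))))))))

theorem col_mem {X A : Lang} (j B : ℕ) (h : ∀ x, X (code j B x) = A x) : A ∈ PO X := by
  refine ⟨progCol j B, 12 * Polynomial.X + Polynomial.C B * (31 *
    ((Polynomial.X + 2) ^ (2 ^ B) + 1) ^ 2) + 4 * (Polynomial.X + 2) ^ (2 ^ B) +
    Polynomial.C (2 * j) + 50, fun x => ?_⟩
  simp only [Polynomial.eval_add, Polynomial.eval_mul, Polynomial.eval_X, Polynomial.eval_ofNat,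
    Polynomial.eval_one, Polynomial.eval_C, Polynomial.eval_pow]
  have h1 := exec_cp (O := X) (show 0 ≠ 1 by norm_num) (show 0 ≠ 2 by norm_num)
    (show 1 ≠ 2 by norm_num) x (st [x, [], [], [], [], []]) rfl
  rw [upd_st _ _ _ (by simp), upd_st _ _ _ (by simp), upd_st _ _ _ (by simp)] at h1
  have h2 := exec_mv (O := X) (show 2 ≠ 0 by norm_num) (x.reverse ++ [])
    (st [[], x.reverse ++ [], x.reverse ++ [], [], [], []]) rfl
  rw [upd_st _ _ _ (by simp), upd_st _ _ _ (by simp)] at h2
  have e2 : (st (([[], x.reverse ++ [], x.reverse ++ [], [], [], []].set 0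
      ((x.reverse ++ []).reverse ++ st [[], x.reverse ++ [], x.reverse ++ [], [], [], []] 0)).set
        2 [])) = st [x, x.reverse, [], [], [], []] := by
    simp [st]
  rw [e2] at h2
  have h3 := exec_push (O := X) 1 true (st [x, x.reverse, [], [], [], []])
  rw [upd_st _ _ _ (by simp)] at h3
  have h4 := exec_push (O := X) 1 true (st [x, true :: x.reverse, [], [], [], []])
  rw [upd_st _ _ _ (by simp)] at h4
  obtain ⟨w, h5, e5⟩ := exec_sqN (O := X) x [] ((x.length + 2) ^ (2 ^ B)) B
    (true :: true :: x.reverse) (by simp)
  have e5' : w.length = (x.length + 2) ^ (2 ^ B) := by rw [e5]; simp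
  have h6 := exec_push (O := X) 0 true (st [x, w, [], [], [], []])
  rw [upd_st _ _ _ (by simp)] at h6
  have h7 := exec_padl (O := X) [] w (true :: x)
  have h8 := exec_push (O := X) 0 false
    (st [List.replicate w.length false ++ true :: x, [], [], [], [], []])
  rw [upd_st _ _ _ (by simp)] at h8
  have h9 := exec_pushN (O := X) [] (j + 1)
    (false :: (List.replicate w.length false ++ true :: x))
  have e9 : List.replicate (j + 1) true ++ (false :: (List.replicate w.length false ++ true :: x))
      = code j B x := by
    rw [code, e5', List.replicate_succ]; simp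
  rw [e9] at h9
  have h10 := exec_query (O := X) 0 0 (st [code j B x, [], [], [], [], []])
  rw [upd_st _ _ _ (by simp)] at h10
  have hall := h1.seq (h2.seq (h3.seq (h4.seq (h5.seq (h6.seq (h7.seq (h8.seq (h9.seq h10))))))))
  rw [← inp_st] at hall
  obtain ⟨h11, h12⟩ := hall.halts
    (N := 12 * x.length + B * (31 * ((x.length + 2) ^ (2 ^ B) + 1) ^ 2) +
      4 * (x.length + 2) ^ (2 ^ B) + 2 * j + 50) (by
      rw [e5']
      simp only [List.append_nil, List.length_reverse]
      omega)
  refine ⟨h11, Eq.trans ?_ h12.symm⟩
  show A x = (some (X (code j B x)) == some true)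
  rw [h x]
  cases A x <;> rfl

end Pool.Agent.Lib.Pa76659
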