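import Pool.Agent.Lib.Pa76659.Defs
import Pool.Agent.Lib.Pa76659.DT

/-!
Clocked semantics of the levels of the relativised polynomial hierarchy, and their translation to
OR-NOT circuits over the oracle.
-/

set_option maxHeartbeats 4000000

namespace Pool.Agent.Lib.Pa76659

/-! ### polynomial bounds -/

theorem poly_le (p : Polynomial ℕ) : ∃ c : ℕ, ∀ n : ℕ, 2 ≤ n → p.eval n ≤ n ^ c := by
  induction p using Polynomial.induction_on' with
  | add p q hp hq =>
      obtain ⟨a, ha⟩ := hp
      obtain ⟨b, hb⟩ := hq
      refine ⟨max a b + 1, fun n hn => ?_⟩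
      have h1 : n ^ a ≤ n ^ max a b := Nat.pow_le_pow_right (by omega) (le_max_left _ _)
      have h2 : n ^ b ≤ n ^ max a b := Nat.pow_le_pow_right (by omega) (le_max_right _ _)
      have h3 := ha n hn
      have h4 := hb n hn
      rw [Polynomial.eval_add, pow_succ]
      nlinarith
  | monomial k a =>
      refine ⟨a + k, fun n hn => ?_⟩
      rw [Polynomial.eval_monomial, pow_add]
      apply Nat.mul_le_mul_right
      have h1 : a < 2 ^ a := Nat.lt_two_pow_self
      have h2 : 2 ^ a ≤ n ^ a := Nat.pow_le_pow_left hn a
      omega

theorem poly_mono (p : Polynomial ℕ) {m n : ℕ} (h : m ≤ n) : p.eval m ≤ p.eval n := by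
  induction p using Polynomial.induction_on' with
  | add p q hp hq =>
      rw [Polynomial.eval_add, Polynomial.eval_add]
      exact Nat.add_le_add hp hq
  | monomial k a =>
      rw [Polynomial.eval_monomial, Polynomial.eval_monomial]
      exact Nat.mul_le_mul_left _ (Nat.pow_le_pow_left h k)

/-! ### computations as decision trees -/

/-- decision tree of a computation -/
def runTree : ℕ → Cfg → DT Str Cfg
  | 0, c => DT.leaf c
  | n + 1, (Prog.query r t :: k, s) =>
      DT.node (s r) (runTree n (k, Function.update s t (false :: s t)))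
        (runTree n (k, Function.update s t (true :: s t)))
  | n + 1, c => runTree n (step (fun _ => false) c)

theorem runN_succ (O : Lang) (n : ℕ) (c : Cfg) : runN O (n + 1) c = runN O n (step O c) := by
  simp [runN, Function.iterate_succ_apply]

theorem runTree_eval (O : Lang) : ∀ (n : ℕ) (c : Cfg), (runTree n c).eval O = runN O n c
  | 0, c => rfl
  | n + 1, ([], s) => by rw [runN_succ, runTree, runTree_eval O n]; rfl; intros; simp_all
  | n + 1, (Prog.skip :: k, s) => by
      rw [runN_succ, runTree, runTree_eval O n]; rfl; intros; simp_all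
  | n + 1, (Prog.push r b :: k, s) => by
      rw [runN_succ, runTree, runTree_eval O n]; rfl; intros; simp_all
  | n + 1, (Prog.pop r :: k, s) => by
      rw [runN_succ, runTree, runTree_eval O n]; rfl; intros; simp_all
  | n + 1, (Prog.seq p q :: k, s) => by
      rw [runN_succ, runTree, runTree_eval O n]; rfl; intros; simp_all
  | n + 1, (Prog.branch r p q e :: k, s) => by
      rw [runN_succ, runTree, runTree_eval O n]; rfl; intros; simp_all
  | n + 1, (Prog.loop r p :: k, s) => by
      rw [runN_succ, runTree, runTree_eval O n]; rfl; intros; simp_all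
  | n + 1, (Prog.query r t :: k, s) => by
      rw [runN_succ, runTree, DT.eval, runTree_eval O n, runTree_eval O n, step]
      split_ifs with h
      · rw [h]
      · rw [Bool.not_eq_true] at h; rw [h]

/-- all registers have length at most `m` -/
def Bdd (m : ℕ) (s : ℕ → Str) : Prop := ∀ r, (s r).length ≤ m

theorem Bdd.upd {m : ℕ} {s : ℕ → Str} (h : Bdd m s) {r : ℕ} {x : Str} (hx : x.length ≤ m) :
    Bdd m (Function.update s r x) := by
  intro i
  by_cases hi : i = r
  · subst hi; simpa using hx
  · simpa [hi] using h i

theorem Bdd.mono {m n : ℕ} {s : ℕ → Str} (h : Bdd m s) (hmn : m ≤ n) : Bdd n s :=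
  fun r => (h r).trans hmn

theorem step_bdd (O : Lang) {m : ℕ} : ∀ (c : Cfg), Bdd m c.2 → Bdd (m + 1) (step O c).2
  | ([], s), h => h.mono (by omega)
  | (Prog.skip :: k, s), h => h.mono (by omega)
  | (Prog.push r b :: k, s), h =>
      (h.mono (Nat.le_succ m)).upd (by
        have h2 : (s r).length ≤ m := h r
        simp only [List.length_cons]; omega)
  | (Prog.pop r :: k, s), h =>
      (h.mono (Nat.le_succ m)).upd (by
        have := h r
        have h2 : (s r).length ≤ m := this
        simp only [List.length_tail]; omega)
  | (Prog.seq p q :: k, s), h => h.mono (by omega)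
  | (Prog.branch r p q e :: k, s), h => by
      have : (step O (Prog.branch r p q e :: k, s)).2 = s := by
        simp only [step]
        cases hs : s r with
        | nil => rfl
        | cons b l => cases b <;> rfl
      rw [this]
      exact h.mono (by omega)
  | (Prog.loop r p :: k, s), h => by
      have : (step O (Prog.loop r p :: k, s)).2 = s := by
        simp only [step]
        cases hs : s r with
        | nil => rfl
        | cons b l => rfl
      rw [this]
      exact h.mono (by omega)
  | (Prog.query r t :: k, s), h =>
      (h.mono (Nat.le_succ m)).upd (by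
        have h2 : (s t).length ≤ m := h t
        simp only [List.length_cons]; omega)

theorem runTree_cases (n : ℕ) : ∀ c : Cfg,
    (∃ r t k s, c = (Prog.query r t :: k, s)) ∨
      runTree (n + 1) c = runTree n (step (fun _ => false) c)
  | ([], s) => by right; rw [runTree]; intros; simp_all
  | (Prog.skip :: k, s) => by right; rw [runTree]; intros; simp_all
  | (Prog.push r b :: k, s) => by right; rw [runTree]; intros; simp_all
  | (Prog.pop r :: k, s) => by right; rw [runTree]; intros; simp_all
  | (Prog.seq p q :: k, s) => by right; rw [runTree]; intros; simp_all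
  | (Prog.branch r p q e :: k, s) => by right; rw [runTree]; intros; simp_all
  | (Prog.loop r p :: k, s) => by right; rw [runTree]; intros; simp_all
  | (Prog.query r t :: k, s) => Or.inl ⟨r, t, k, s, rfl⟩

theorem runTree_depth : ∀ (n : ℕ) (c : Cfg), (runTree n c).depth ≤ n
  | 0, c => by simp [runTree, DT.depth]
  | n + 1, c => by
      rcases runTree_cases n c with ⟨r, t, k, s, rfl⟩ | h
      · have h1 := runTree_depth n (k, Function.update s t (false :: s t))
        have h2 := runTree_depth n (k, Function.update s t (true :: s t))
        rw [runTree]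
        simp only [DT.depth]
        omega
      · rw [h]
        have := runTree_depth n (step (fun _ => false) c)
        omega

theorem runTree_qin : ∀ (n m : ℕ) (c : Cfg), Bdd m c.2 →
    (runTree n c).QIn {v | v.length ≤ m + n}
  | 0, m, c, _ => by simp [runTree, DT.QIn]
  | n + 1, m, c, hc => by
      have hsub : {v : Str | v.length ≤ m + 1 + n} ⊆ {v : Str | v.length ≤ m + (n + 1)} := by
        intro v hv
        simp only [Set.mem_ofPred_eq] at hv ⊢
        omega
      rcases runTree_cases n c with ⟨r, t, k, s, rfl⟩ | h
      · have h0 : (s t).length ≤ m := hc t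
        have h1 := runTree_qin n (m + 1) (k, Function.update s t (false :: s t))
          (Bdd.upd (Bdd.mono hc (Nat.le_succ m)) (by simp only [List.length_cons]; omega))
        have h2 := runTree_qin n (m + 1) (k, Function.update s t (true :: s t))
          (Bdd.upd (Bdd.mono hc (Nat.le_succ m)) (by simp only [List.length_cons]; omega))
        rw [runTree]
        refine ⟨?_, h1.mono hsub, h2.mono hsub⟩
        have h3 : (s r).length ≤ m := hc r
        simp only [Set.mem_ofPred_eq]
        omega
      · rw [h]
        exact (runTree_qin n (m + 1) _ (step_bdd _ c hc)).mono hsub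

theorem inp_bdd (x : Str) : Bdd x.length (inp x) := by
  intro r; unfold inp; split_ifs <;> simp

theorem inp2_bdd (x y : Str) : Bdd (x.length + y.length) (inp2 x y) := by
  intro r; unfold inp2; split_ifs <;> simp

/-- the decision tree of acceptance -/
def accTree (M : Prog) (s : ℕ → Str) (n : ℕ) : DT Str Bool :=
  (runTree n ([M], s)).map (fun c => (c.2 0).head? == some true)

theorem accTree_eval (O : Lang) (M : Prog) (s : ℕ → Str) (n : ℕ) :
    (accTree M s n).eval O = accepts O M s n := by
  rw [accTree, DT.eval_map, runTree_eval]; rfl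

theorem accTree_depth (M : Prog) (s : ℕ → Str) (n : ℕ) : (accTree M s n).depth ≤ n := by
  rw [accTree, DT.depth_map]; exact runTree_depth _ _

theorem accTree_qin (M : Prog) (s : ℕ → Str) (n m : ℕ) (hs : Bdd m s) :
    (accTree M s n).QIn {v | v.length ≤ m + n} :=
  (runTree_qin n m _ hs).map _

/-! ### clocked semantics -/

/-- index of a deterministic machine: program and time bound -/
abbrev PIx := Prog × Polynomial ℕ

/-- index of a nondeterministic machine: verifier, time bound, witness length -/
abbrev NIx := Prog × Polynomial ℕ × Polynomial ℕ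

def pEval (i : PIx) (O : Lang) : Lang := fun x => accepts O i.1 (inp x) (i.2.eval x.length)

open Classical in
noncomputable def nEval (i : NIx) (O : Lang) : Lang := fun x =>
  decide (∃ y : Str, y.length = i.2.2.eval x.length ∧
    accepts O i.1 (inp2 x y) (i.2.1.eval x.length) = true)

noncomputable def sEval (p : PIx) : List NIx → Lang → Lang
  | [], O => pEval p O
  | i :: l, O => nEval i (sEval p l O)

theorem exists_pEval {O L : Lang} (h : L ∈ PO O) : ∃ p, L = pEval p O := by
  obtain ⟨M, p, hM⟩ := h
  exact ⟨(M, p), funext fun x => (hM x).2⟩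

open Classical in
theorem exists_nEval {O L : Lang} (h : L ∈ NPO O) : ∃ i, L = nEval i O := by
  obtain ⟨M, p, q, hM⟩ := h
  refine ⟨(M, p, q), funext fun x => ?_⟩
  have h1 := (hM x).2
  unfold nEval
  by_cases h2 : L x = true
  · rw [h2, eq_comm, decide_eq_true_eq]
    exact h1.1 h2
  · have h3 := fun h => h2 (h1.2 h)
    rw [Bool.not_eq_true] at h2
    rw [h2, eq_comm, decide_eq_false_iff_not]
    exact h3

theorem exists_sEval {O : Lang} : ∀ {k : ℕ} {L : Lang}, L ∈ Sig O k →
    ∃ p l, l.length = k ∧ L = sEval p l O
  | 0, L, h => by
      obtain ⟨p, hp⟩ := exists_pEval h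
      exact ⟨p, [], rfl, hp⟩
  | k + 1, L, ⟨B, hB, hL⟩ => by
      obtain ⟨p, l, hl, hB2⟩ := exists_sEval hB
      obtain ⟨i, hi⟩ := exists_nEval hL
      exact ⟨p, i :: l, by simp [hl], by rw [hi, hB2]; rfl⟩

/-- strings of length at most `m` -/
def SL (m : ℕ) : Set Str := {v | v.length ≤ m}

theorem SL_mono {m n : ℕ} (h : m ≤ n) : SL m ⊆ SL n := fun _ hv => le_trans hv h

theorem pow_le_poly {a b : ℕ} {n : ℕ} (hn : 2 ≤ n) (h : a ≤ b) : n ^ a ≤ n ^ b :=
  Nat.pow_le_pow_right (by omega) h

theorem pEval_isC (p : PIx) : ∃ b : ℕ, ∀ n : ℕ, 2 ≤ n → ∀ x : Str, x.length ≤ n →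
    IsC (SL (n ^ b)) (n ^ b) (n ^ b) 0 (fun O => pEval p O x) := by
  obtain ⟨b, hb⟩ := poly_le (Polynomial.X + p.2)
  refine ⟨b, fun n hn x hx => ?_⟩
  have h1 := hb n hn
  rw [Polynomial.eval_add, Polynomial.eval_X] at h1
  have h2 := poly_mono p.2 hx
  refine ⟨accTree p.1 (inp x) (p.2.eval x.length), ?_, ?_, ?_⟩
  · exact (accTree_depth _ _ _).trans (by omega)
  · apply (accTree_qin _ _ _ _ (inp_bdd x)).mono
    intro v hv
    simp only [Set.mem_ofPred_eq] at hv
    show v.length ≤ n ^ b
    omega
  · intro O
    rw [accTree_eval]; rfl

theorem sEval_isC (p : PIx) : ∀ l : List NIx, ∃ b : ℕ, ∀ n : ℕ, 2 ≤ n → ∀ x : Str,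
    x.length ≤ n → IsC (SL (n ^ b)) (n ^ b) (n ^ b) l.length (fun O => sEval p l O x)
  | [] => pEval_isC p
  | i :: l => by
      obtain ⟨b, hb⟩ := sEval_isC p l
      obtain ⟨V, p1, q⟩ := i
      obtain ⟨c, hc⟩ := poly_le (Polynomial.X + q + p1)
      obtain ⟨B, hB⟩ := poly_le (Polynomial.X ^ c + Polynomial.X ^ c * (Polynomial.X ^ (c * b) + 3)
        + Polynomial.X ^ c * Polynomial.X ^ (c * b) + Polynomial.X ^ (c * b))
      refine ⟨B, fun n hn x hx => ?_⟩
      have hB' := hB n hn
      have hc' := hc n hn
      simp only [Polynomial.eval_add, Polynomial.eval_mul, Polynomial.eval_pow,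
        Polynomial.eval_X, Polynomial.eval_ofNat] at hB' hc'
      have hq := poly_mono q hx
      have hp := poly_mono p1 hx
      set a := q.eval x.length with ha
      set t := p1.eval x.length with ht
      set D := n ^ c with hD
      set w := n ^ (c * b) with hw
      have hD2 : 2 ≤ D := by
        have : 2 ≤ n ^ c := by omega
        exact this
      -- circuits for the oracle questions
      have h1 : ∀ u ∈ SL D, IsC (SL w) w w l.length (fun O => sEval p l O u) := by
        intro u hu
        have := hb D hD2 u hu
        rwa [hD, ← pow_mul] at this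
      have h2 : ∀ y : Fin a → Bool, IsC (SL w) (D * (w + 3)) (D * w) (l.length + 1)
          (fun O => accepts (sEval p l O) V (inp2 x (List.ofFn y)) t) := by
        intro y
        have hlen : (List.ofFn y).length = a := by simp
        have h3 := IsC.dtree (SL D) (fun u O => sEval p l O u) h1
          (accTree V (inp2 x (List.ofFn y)) t) (by
            apply (accTree_qin _ _ _ _ (inp2_bdd x _)).mono
            intro v hv
            simp only [Set.mem_ofPred_eq, hlen] at hv
            show v.length ≤ D
            omega)
        have h4 := accTree_depth V (inp2 x (List.ofFn y)) t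
        refine (h3.mono (subset_refl _) (w' := D * (w + 3)) (t' := D * w)
          (Nat.mul_le_mul_right _ (by omega)) (Nat.mul_le_mul_right _ (by omega))).congr ?_
        intro O
        rw [accTree_eval]
      have h5 := IsC.exists_or (ι := Fin a → Bool) (a := a) (by simp) _ h2
        (f := fun O => sEval p ((V, p1, q) :: l) O x) (by
          intro O
          simp only [sEval, nEval, decide_eq_true_eq]
          constructor
          · rintro ⟨y, hy, hy2⟩
            refine ⟨fun i => y.get (Fin.cast (by rw [hy]) i), ?_⟩
            have : List.ofFn (fun i : Fin a => y.get (Fin.cast (by rw [hy]) i)) = y := by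
              apply List.ext_getElem
              · simp [hy, ha]
              · intro i h1 h2; simp
            rw [this]
            exact hy2
          · rintro ⟨y, hy⟩
            exact ⟨List.ofFn y, by simp [ha], hy⟩)
      refine h5.mono (SL_mono ?_) ?_ ?_
      · omega
      · omega
      · omega

theorem sEval_congr (p : PIx) (l : List NIx) : ∃ b : ℕ, ∀ (x : Str) (O O' : Lang),
    (∀ v : Str, v.length ≤ (x.length + 2) ^ b → O v = O' v) →
    sEval p l O x = sEval p l O' x := by
  obtain ⟨b, hb⟩ := sEval_isC p l
  exact ⟨b, fun x O O' h => IsC.eval_congr h (hb (x.length + 2) (by omega) x (by omega))⟩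

theorem nEval_congr (i : NIx) : ∃ b : ℕ, ∀ (x : Str) (O O' : Lang),
    (∀ v : Str, v.length ≤ (x.length + 2) ^ b → O v = O' v) →
    nEval i O x = nEval i O' x := by
  obtain ⟨V, p1, q⟩ := i
  obtain ⟨b, hb⟩ := poly_le (Polynomial.X + q + p1)
  refine ⟨b, fun x O O' h => ?_⟩
  have hb' := hb (x.length + 2) (by omega)
  simp only [Polynomial.eval_add, Polynomial.eval_X] at hb'
  have hq := poly_mono q (show x.length ≤ x.length + 2 by omega)
  have hp := poly_mono p1 (show x.length ≤ x.length + 2 by omega)
  have key : ∀ y : Str, y.length = q.eval x.length →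
      accepts O V (inp2 x y) (p1.eval x.length) = accepts O' V (inp2 x y) (p1.eval x.length) := by
    intro y hy
    rw [← accTree_eval, ← accTree_eval]
    apply DT.eval_congr (S := SL ((x.length + 2) ^ b)) h
    apply (accTree_qin _ _ _ _ (inp2_bdd x _)).mono
    intro v hv
    simp only [Set.mem_ofPred_eq, hy] at hv
    show v.length ≤ _
    omega
  unfold nEval
  apply decide_eq_decide.2
  constructor
  · rintro ⟨y, hy, hy2⟩; exact ⟨y, hy, by rw [← key y hy]; exact hy2⟩
  · rintro ⟨y, hy, hy2⟩; exact ⟨y, hy, by rw [key y hy]; exact hy2⟩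

/-! ### countability -/

deriving instance Countable for Prog

instance : Countable (Polynomial ℕ) := by
  have h : Function.Injective
      (fun p : Polynomial ℕ => (List.range (p.natDegree + 1)).map p.coeff) := by
    intro p q h
    have h1 := congrArg List.length h
    simp only [List.length_map, List.length_range] at h1
    have h2 : p.natDegree = q.natDegree := by omega
    ext n
    by_cases hn : n ≤ p.natDegree
    · have h3 := congrArg (fun l => l[n]?) h
      simp only [List.getElem?_map, List.getElem?_range (show n < p.natDegree + 1 by omega),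
        List.getElem?_range (show n < q.natDegree + 1 by omega), Option.map_some,
        Option.some.injEq] at h3
      exact h3
    · rw [Polynomial.coeff_eq_zero_of_natDegree_lt (by omega),
        Polynomial.coeff_eq_zero_of_natDegree_lt (by omega)]
  exact h.countable

end Pool.Agent.Lib.Pa76659
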