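import Pool.Agent.Lib.Pa76659.Exec

/-!
If `B ∈ P(C)` then `P(B) ⊆ P(C)` and `NP(B) ⊆ NP(C)`.
-/

set_option maxHeartbeats 4000000

namespace Pool.Agent.Lib.Pa76659

/-- all registers used by the program are below this number -/
def Prog.bnd : Prog → ℕ
  | Prog.skip => 0
  | Prog.push r _ => r + 1
  | Prog.pop r => r + 1
  | Prog.query r t => max r t + 1
  | Prog.seq p q => max p.bnd q.bnd
  | Prog.branch r p q e => max (r + 1) (max p.bnd (max q.bnd e.bnd))
  | Prog.loop r p => max (r + 1) p.bnd

/-- shift all registers -/
def Prog.shift (m : ℕ) : Prog → Prog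
  | Prog.skip => Prog.skip
  | Prog.push r b => Prog.push (r + m) b
  | Prog.pop r => Prog.pop (r + m)
  | Prog.query r t => Prog.query (r + m) (t + m)
  | Prog.seq p q => Prog.seq (p.shift m) (q.shift m)
  | Prog.branch r p q e => Prog.branch (r + m) (p.shift m) (q.shift m) (e.shift m)
  | Prog.loop r p => Prog.loop (r + m) (p.shift m)

/-- registers of `s0` below `m`, then those of `u` -/
def mg (m : ℕ) (s0 u : ℕ → Str) : ℕ → Str := fun r => if r < m then s0 r else u (r - m)

theorem mg_get (m : ℕ) (s0 u : ℕ → Str) (r : ℕ) : mg m s0 u (r + m) = u r := by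
  simp [mg]

theorem mg_upd (m : ℕ) (s0 u : ℕ → Str) (r : ℕ) (x : Str) :
    Function.update (mg m s0 u) (r + m) x = mg m s0 (Function.update u r x) := by
  funext i
  by_cases h : i = r + m
  · subst h; simp [mg]
  · rw [Function.update_of_ne h]
    unfold mg
    by_cases h1 : i < m
    · simp [h1]
    · have h2 : i - m ≠ r := by omega
      simp [h1, h2]

theorem step_shift (C : Lang) (m : ℕ) (s0 : ℕ → Str) (k : List Prog) : ∀ (K : List Prog)
    (u : ℕ → Str), K ≠ [] → step C (K.map (Prog.shift m) ++ k, mg m s0 u) =
      ((step C (K, u)).1.map (Prog.shift m) ++ k, mg m s0 (step C (K, u)).2)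
  | [], u, h => absurd rfl h
  | Prog.skip :: K, u, _ => rfl
  | Prog.push r b :: K, u, _ => by
      simp only [List.map_cons, Prog.shift, List.cons_append, step, mg_get, mg_upd]
  | Prog.pop r :: K, u, _ => by
      simp only [List.map_cons, Prog.shift, List.cons_append, step, mg_get, mg_upd]
  | Prog.query r t :: K, u, _ => by
      simp only [List.map_cons, Prog.shift, List.cons_append, step, mg_get, mg_upd]
  | Prog.seq p q :: K, u, _ => rfl
  | Prog.branch r p q e :: K, u, _ => by
      simp only [List.map_cons, Prog.shift, List.cons_append, step, mg_get]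
      rcases h : u r with _ | ⟨b, l⟩
      · rfl
      · cases b <;> rfl
  | Prog.loop r p :: K, u, _ => by
      simp only [List.map_cons, Prog.shift, List.cons_append, step, mg_get]
      rcases h : u r with _ | ⟨b, l⟩
      · rfl
      · rfl

theorem run_shift (C : Lang) (m : ℕ) : ∀ (n : ℕ) (K : List Prog) (u u' : ℕ → Str),
    runN C n (K, u) = ([], u') → ∃ n' ≤ n, ∀ (s0 : ℕ → Str) (k : List Prog),
      runN C n' (K.map (Prog.shift m) ++ k, mg m s0 u) = (k, mg m s0 u')
  | n, [], u, u', h => by
      rw [runN_nil] at h
      simp only [Prod.mk.injEq, true_and] at h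
      subst h
      exact ⟨0, Nat.zero_le _, fun _ _ => rfl⟩
  | 0, I :: K, u, u', h => by
      simp [runN] at h
  | n + 1, I :: K, u, u', h => by
      rw [runN_succ] at h
      obtain ⟨n', hn', h'⟩ := run_shift C m n (step C (I :: K, u)).1 (step C (I :: K, u)).2 u' h
      refine ⟨n' + 1, by omega, fun s0 k => ?_⟩
      rw [runN_succ, step_shift C m s0 k (I :: K) u (by simp), h']

theorem exec_shift (C : Lang) (m : ℕ) (N : Prog) (u : ℕ → Str) (n : ℕ) (h : Halts C N u n)
    (s0 : ℕ → Str) :
    Exec C (N.shift m) (mg m s0 u) (mg m s0 (runN C n ([N], u)).2) n := by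
  have h1 : runN C n ([N], u) = ([], (runN C n ([N], u)).2) := by
    rw [Prod.ext_iff]; exact ⟨h, rfl⟩
  obtain ⟨n', hn', h2⟩ := run_shift C m n [N] u _ h1
  exact ⟨n', hn', fun k => h2 s0 k⟩

theorem step_outside (C : Lang) (m : ℕ) : ∀ (K : List Prog) (u : ℕ → Str),
    (∀ I ∈ K, I.bnd ≤ m) → (∀ I ∈ (step C (K, u)).1, I.bnd ≤ m) ∧
      ∀ r, m ≤ r → (step C (K, u)).2 r = u r
  | [], u, h => ⟨h, fun _ _ => rfl⟩
  | Prog.skip :: K, u, h => ⟨fun I hI => h I (List.mem_cons_of_mem _ hI), fun _ _ => rfl⟩
  | Prog.push r b :: K, u, h => by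
      have h1 := h _ List.mem_cons_self
      simp only [Prog.bnd] at h1
      refine ⟨fun I hI => h I (List.mem_cons_of_mem _ hI), fun i hi => ?_⟩
      exact Function.update_of_ne (by omega) _ _
  | Prog.pop r :: K, u, h => by
      have h1 := h _ List.mem_cons_self
      simp only [Prog.bnd] at h1
      refine ⟨fun I hI => h I (List.mem_cons_of_mem _ hI), fun i hi => ?_⟩
      exact Function.update_of_ne (by omega) _ _
  | Prog.query r t :: K, u, h => by
      have h1 := h _ List.mem_cons_self
      simp only [Prog.bnd] at h1
      refine ⟨fun I hI => h I (List.mem_cons_of_mem _ hI), fun i hi => ?_⟩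
      exact Function.update_of_ne (by omega) _ _
  | Prog.seq p q :: K, u, h => by
      have h1 := h _ List.mem_cons_self
      simp only [Prog.bnd] at h1
      refine ⟨?_, fun i hi => rfl⟩
      intro I hI
      simp only [step, List.mem_cons] at hI
      rcases hI with rfl | rfl | hI
      · omega
      · omega
      · exact h I (List.mem_cons_of_mem _ hI)
  | Prog.branch r p q e :: K, u, h => by
      have h1 := h _ List.mem_cons_self
      simp only [Prog.bnd] at h1
      simp only [step]
      rcases h2 : u r with _ | ⟨b, l⟩
      · refine ⟨?_, fun i hi => rfl⟩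
        intro I hI
        simp only [List.mem_cons] at hI
        rcases hI with rfl | hI
        · omega
        · exact h I (List.mem_cons_of_mem _ hI)
      · cases b
        · refine ⟨?_, fun i hi => rfl⟩
          intro I hI
          simp only [List.mem_cons] at hI
          rcases hI with rfl | hI
          · omega
          · exact h I (List.mem_cons_of_mem _ hI)
        · refine ⟨?_, fun i hi => rfl⟩
          intro I hI
          simp only [List.mem_cons] at hI
          rcases hI with rfl | hI
          · omega
          · exact h I (List.mem_cons_of_mem _ hI)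
  | Prog.loop r p :: K, u, h => by
      have h1 := h _ List.mem_cons_self
      simp only [Prog.bnd] at h1
      simp only [step]
      rcases h2 : u r with _ | ⟨b, l⟩
      · exact ⟨fun I hI => h I (List.mem_cons_of_mem _ hI), fun _ _ => rfl⟩
      · refine ⟨?_, fun i hi => rfl⟩
        intro I hI
        simp only [List.mem_cons] at hI
        rcases hI with rfl | rfl | hI
        · omega
        · simp only [Prog.bnd]; omega
        · exact h I (List.mem_cons_of_mem _ hI)

theorem runN_outside (C : Lang) (m : ℕ) : ∀ (n : ℕ) (c : Cfg),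
    (∀ I ∈ c.1, I.bnd ≤ m) → ∀ r, m ≤ r → (runN C n c).2 r = c.2 r
  | 0, c, _, r, _ => rfl
  | n + 1, c, h, r, hr => by
      obtain ⟨h1, h2⟩ := step_outside C m c.1 c.2 h
      rw [runN_succ, runN_outside C m n _ h1 r hr]
      exact h2 r hr

theorem runN_bdd (C : Lang) : ∀ (n m : ℕ) (c : Cfg), Bdd m c.2 → Bdd (m + n) (runN C n c).2
  | 0, m, c, h => h
  | n + 1, m, c, h => by
      rw [runN_succ]
      have := runN_bdd C n (m + 1) _ (step_bdd C c h)
      exact this.mono (by omega)

/-- copy the content of `a` to `b` and `c`, reversing it -/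
def cp (a b c : ℕ) : Prog :=
  Prog.loop a (Prog.seq (Prog.branch a (Prog.seq (Prog.push b true) (Prog.push c true))
    (Prog.seq (Prog.push b false) (Prog.push c false)) Prog.skip) (Prog.pop a))

theorem exec_cp {O : Lang} {a b c : ℕ} (hab : a ≠ b) (hac : a ≠ c) (hbc : b ≠ c) :
    ∀ (x : Str) (s : ℕ → Str), s a = x →
    Exec O (cp a b c) s (Function.update (Function.update (Function.update s b
      (x.reverse ++ s b)) c (x.reverse ++ s c)) a []) (7 * x.length + 1)
  | [], s, hs => by
      have : (Function.update (Function.update (Function.update s b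
          ([].reverse ++ s b)) c ([].reverse ++ s c)) a []) = s := by
        funext i
        by_cases h : i = a
        · subst h; simp [hs]
        · by_cases h2 : i = b
          · subst h2; simp [h]
          · by_cases h3 : i = c
            · subst h3; simp [h]
            · simp [h]
      rw [this]
      exact (exec_loop_nil hs).mono (by omega)
  | e :: x, s, hs => by
      set s1 := Function.update (Function.update (Function.update s b (e :: s b)) c (e :: s c)) a x
        with hs1
      have h1 : Exec O (Prog.seq (Prog.branch a (Prog.seq (Prog.push b true) (Prog.push c true))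
          (Prog.seq (Prog.push b false) (Prog.push c false)) Prog.skip) (Prog.pop a)) s s1 6 := by
        have h2 : Exec O (Prog.branch a (Prog.seq (Prog.push b true) (Prog.push c true))
            (Prog.seq (Prog.push b false) (Prog.push c false)) Prog.skip) s
            (Function.update (Function.update s b (e :: s b)) c (e :: s c)) 4 := by
          cases e
          · have h3 := (exec_push (O := O) b false s).seq (exec_push c false _)
            rw [Function.update_of_ne (Ne.symm hbc)] at h3
            exact Exec.branch_false hs h3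
          · have h3 := (exec_push (O := O) b true s).seq (exec_push c true _)
            rw [Function.update_of_ne (Ne.symm hbc)] at h3
            exact Exec.branch_true hs h3
        have h3 := h2.seq (exec_pop a _)
        rw [Function.update_of_ne hac, Function.update_of_ne hab, hs] at h3
        exact h3
      have h2 := exec_cp (O := O) hab hac hbc x s1 (by simp [hs1])
      have h3 := Exec.loop_cons (by rw [hs]; simp) h1 h2
      refine (Exec.mono ?_ (show 6 + (7 * x.length + 1) + 1 ≤ 7 * (e :: x).length + 1 by
        simp only [List.length_cons]; omega))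
      have e2 : (Function.update (Function.update (Function.update s b
          ((e :: x).reverse ++ s b)) c ((e :: x).reverse ++ s c)) a []) =
          (Function.update (Function.update (Function.update s1 b
          (x.reverse ++ s1 b)) c (x.reverse ++ s1 c)) a []) := by
        funext i
        by_cases h : i = a
        · subst h; simp
        · by_cases h2 : i = b
          · subst h2; simp [h, hs1, hbc]
          · by_cases h3 : i = c
            · subst h3; simp [h, hs1]
            · simp [h, h2, h3, hs1]
      rw [e2]
      exact h3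

def clr (r : ℕ) : Prog := Prog.loop r (Prog.pop r)

theorem exec_clr {O : Lang} (r : ℕ) : ∀ (x : Str) (s : ℕ → Str), s r = x →
    Exec O (clr r) s (Function.update s r []) (2 * x.length + 1)
  | [], s, hs => by
      have : Function.update s r [] = s := by
        funext i
        by_cases h : i = r
        · subst h; simp [hs]
        · simp [h]
      rw [this]
      exact (exec_loop_nil hs).mono (by omega)
  | e :: x, s, hs => by
      have h1 := exec_pop (O := O) r s
      have h2 := exec_clr (O := O) r x (Function.update s r (s r).tail) (by simp [hs])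
      have h3 := Exec.loop_cons (by rw [hs]; simp) h1 h2
      rw [Function.update_idem] at h3
      exact h3.mono (by simp only [List.length_cons]; omega)

def clean (m : ℕ) : ℕ → Prog
  | 0 => Prog.skip
  | b + 1 => Prog.seq (clean m b) (clr (m + b))

theorem exec_clean {O : Lang} (m : ℕ) (L : ℕ) : ∀ (b : ℕ) (s : ℕ → Str), Bdd L s →
    Exec O (clean m b) s (fun i => if m ≤ i ∧ i < m + b then [] else s i) (b * (2 * L + 2) + 1)
  | 0, s, _ => by
      have : (fun i => if m ≤ i ∧ i < m + 0 then [] else s i) = s := by
        funext i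
        rw [if_neg (by omega)]
      rw [this]
      exact (exec_skip s).mono (by omega)
  | b + 1, s, hs => by
      have h1 := exec_clean (O := O) m L b s hs
      have h2 := exec_clr (O := O) (m + b) _ (fun i => if m ≤ i ∧ i < m + b then [] else s i) rfl
      have h3 := h1.seq h2
      have e : Function.update (fun i => if m ≤ i ∧ i < m + b then [] else s i) (m + b) [] =
          (fun i => if m ≤ i ∧ i < m + (b + 1) then [] else s i) := by
        funext i
        by_cases h : i = m + b
        · subst h; simp
        · rw [Function.update_of_ne h]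
          by_cases h4 : m ≤ i ∧ i < m + b
          · rw [if_pos h4, if_pos (by omega)]
          · rw [if_neg h4, if_neg (by omega)]
      rw [e] at h3
      refine h3.mono ?_
      rw [if_neg (show ¬ (m ≤ m + b ∧ m + b < m + b) by omega)]
      have h4 : (s (m + b)).length ≤ L := hs _
      have h5 : (b + 1) * (2 * L + 2) = b * (2 * L + 2) + (2 * L + 2) := by ring
      omega

/-- the translation of a query -/
def qt (m : ℕ) (N : Prog) (r t : ℕ) : Prog :=
  Prog.seq (mv r (m + (N.bnd + 1))) (Prog.seq (cp (m + (N.bnd + 1)) r m)
    (Prog.seq (N.shift m) (Prog.seq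
      (Prog.branch m (Prog.push (m + (N.bnd + 1)) true) (Prog.push (m + (N.bnd + 1)) false)
        (Prog.push (m + (N.bnd + 1)) false))
      (Prog.seq (clean m (N.bnd + 1))
        (Prog.branch (m + (N.bnd + 1))
          (Prog.seq (Prog.pop (m + (N.bnd + 1))) (Prog.push t true))
          (Prog.seq (Prog.pop (m + (N.bnd + 1))) (Prog.push t false)) Prog.skip)))))

theorem exec_qt (C : Lang) (m : ℕ) (N : Prog) (r t : ℕ) (hr : r < m) (ht : t < m)
    (s : ℕ → Str) (hs : ∀ i, m ≤ i → s i = []) (L n : ℕ) (hL : Bdd L s)
    (hN : Halts C N (inp (s r)) n) :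
    Exec C (qt m N r t) s (Function.update s t (accepts C N (inp (s r)) n :: s t))
      (12 * L + n + (N.bnd + 1) * (2 * (L + n + 1) + 2) + 20) := by
  set b := N.bnd + 1 with hb
  set T := m + b with hT
  set x := s r with hx
  have h1 := exec_mv (O := C) (show r ≠ T by omega) x s rfl
  rw [hs T (by omega), List.append_nil] at h1
  set s1 := Function.update (Function.update s T x.reverse) r [] with hs1
  have h2 := exec_cp (O := C) (show T ≠ r by omega) (show T ≠ m by omega) (show r ≠ m by omega)
    x.reverse s1 (by simp [hs1, show T ≠ r by omega])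
  have e2 : (Function.update (Function.update (Function.update s1 r
      (x.reverse.reverse ++ s1 r)) m (x.reverse.reverse ++ s1 m)) T []) = mg m s (inp x) := by
    funext i
    unfold mg
    by_cases h : i = T
    · subst h
      rw [Function.update_self, if_neg (by omega)]
      unfold inp
      rw [if_neg (by omega)]
    · rw [Function.update_of_ne h]
      by_cases h3 : i = m
      · subst h3
        rw [Function.update_self, if_neg (by omega), List.reverse_reverse]
        have : s1 i = [] := by
          rw [hs1, Function.update_of_ne (by omega), Function.update_of_ne (by omega)]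
          exact hs i le_rfl
        rw [this]; simp [inp]
      · rw [Function.update_of_ne h3]
        by_cases h4 : i = r
        · subst h4
          rw [Function.update_self, if_pos hr, List.reverse_reverse]
          simp [hs1, hx]
        · rw [Function.update_of_ne h4, hs1, Function.update_of_ne h4, Function.update_of_ne h]
          by_cases h5 : i < m
          · rw [if_pos h5]
          · rw [if_neg h5, hs i (by omega)]
            unfold inp
            rw [if_neg (by omega)]
  rw [e2] at h2
  have h3 := exec_shift C m N (inp x) n hN s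
  set u' := (runN C n ([N], inp x)).2 with hu'
  set s3 := mg m s u' with hs3
  have hu'b : ∀ i, b ≤ i → u' i = [] := by
    intro i hi
    rw [hu', runN_outside C b n ([N], inp x) (by
      intro I hI
      simp only [List.mem_singleton] at hI
      subst hI; omega) i hi]
    simp only [inp]
    rw [if_neg (by omega)]
  have hacc : accepts C N (inp x) n = ((u' 0).head? == some true) := rfl
  set ans := accepts C N (inp x) n with hans
  have e3 : s3 m = u' 0 := by simp [hs3, mg]
  have e3T : s3 T = [] := by
    simp only [hs3, mg]
    rw [if_neg (by omega)]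
    exact hu'b _ (by omega)
  have h4 : Exec C (Prog.branch m (Prog.push T true) (Prog.push T false) (Prog.push T false)) s3
      (Function.update s3 T [ans]) 2 := by
    have h5 : ∀ c, Exec C (Prog.push T c) s3 (Function.update s3 T [c]) 1 := by
      intro c
      have := exec_push (O := C) T c s3
      rwa [e3T] at this
    rcases h6 : u' 0 with _ | ⟨c, l⟩
    · have : ans = false := by rw [hacc, h6]; rfl
      rw [this]
      exact Exec.branch_nil (e3.trans h6) (h5 false)
    · cases c
      · have : ans = false := by rw [hacc, h6]; rfl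
        rw [this]
        exact Exec.branch_false (e3.trans h6) (h5 false)
      · have : ans = true := by rw [hacc, h6]; rfl
        rw [this]
        exact Exec.branch_true (e3.trans h6) (h5 true)
  have hbd : Bdd (L + n + 1) (Function.update s3 T [ans]) := by
    apply Bdd.upd
    · intro i
      simp only [hs3, mg]
      split_ifs with h5
      · have := hL i; omega
      · have h6 := runN_bdd C n x.length ([N], inp x) (inp_bdd x) (i - m)
        have h7 : x.length ≤ L := hL r
        have h8 : (u' (i - m)).length ≤ x.length + n := h6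
        omega
    · simp
  have h5 := exec_clean (O := C) m (L + n + 1) b (Function.update s3 T [ans]) hbd
  have e5 : (fun i => if m ≤ i ∧ i < m + b then [] else (Function.update s3 T [ans]) i) =
      Function.update s T [ans] := by
    funext i
    by_cases h : i = T
    · subst h
      rw [if_neg (by omega), Function.update_self, Function.update_self]
    · rw [Function.update_of_ne h, Function.update_of_ne h]
      by_cases h6 : m ≤ i ∧ i < m + b
      · rw [if_pos h6, hs i h6.1]
      · rw [if_neg h6]
        simp only [hs3, mg]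
        split_ifs with h7
        · rfl
        · rw [hu'b _ (by omega), hs i (by omega)]
  rw [e5] at h5
  set s5 := Function.update s T [ans] with hs5
  have h6 : Exec C (Prog.branch T (Prog.seq (Prog.pop T) (Prog.push t true))
      (Prog.seq (Prog.pop T) (Prog.push t false)) Prog.skip) s5
      (Function.update s t (ans :: s t)) 4 := by
    have h7 : ∀ c, Exec C (Prog.seq (Prog.pop T) (Prog.push t c)) s5
        (Function.update s t (c :: s t)) 3 := by
      intro c
      have h8 := (exec_pop (O := C) T s5).seq (exec_push t c _)
      have e8 : Function.update s5 T (s5 T).tail = s := by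
        funext i
        by_cases h : i = T
        · subst h; simp [hs5, hs T (by omega)]
        · simp [hs5, h]
      rw [e8] at h8
      exact h8
    have e6 : s5 T = [ans] := by simp [hs5]
    cases hans2 : ans
    · rw [hans2] at e6
      exact Exec.branch_false e6 (h7 false)
    · rw [hans2] at e6
      exact Exec.branch_true e6 (h7 true)
  have hfin := h1.seq (h2.seq (h3.seq (h4.seq (h5.seq h6))))
  refine hfin.mono ?_
  have h7 : x.length ≤ L := hL r
  rw [List.length_reverse]
  omega

/-- replace the queries -/
def trP (m : ℕ) (N : Prog) : Prog → Prog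
  | Prog.skip => Prog.skip
  | Prog.push r b => Prog.push r b
  | Prog.pop r => Prog.pop r
  | Prog.query r t => qt m N r t
  | Prog.seq p q => Prog.seq (trP m N p) (trP m N q)
  | Prog.branch r p q e => Prog.branch r (trP m N p) (trP m N q) (trP m N e)
  | Prog.loop r p => Prog.loop r (trP m N p)

/-- time of one simulated step -/
noncomputable def TT (N : Prog) (pN : Polynomial ℕ) : Polynomial ℕ :=
  12 * Polynomial.X + pN + Polynomial.C (N.bnd + 1) * (2 * (Polynomial.X + pN + 1) + 2) + 20

theorem TT_eval (N : Prog) (pN : Polynomial ℕ) (L : ℕ) : (TT N pN).eval L =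
    12 * L + pN.eval L + (N.bnd + 1) * (2 * (L + pN.eval L + 1) + 2) + 20 := by
  simp only [TT, Polynomial.eval_add, Polynomial.eval_mul, Polynomial.eval_X, Polynomial.eval_C,
    Polynomial.eval_ofNat, Polynomial.eval_one]

theorem halts_mono {C : Lang} {N : Prog} {s : ℕ → Str} {n n' : ℕ} (h : Halts C N s n)
    (hn : n ≤ n') : Halts C N s n' ∧ accepts C N s n' = accepts C N s n := by
  obtain ⟨d, rfl⟩ := Nat.exists_eq_add_of_le hn
  have h1 : runN C n ([N], s) = ([], (runN C n ([N], s)).2) := by
    rw [Prod.ext_iff]; exact ⟨h, rfl⟩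
  have h2 : runN C (n + d) ([N], s) = runN C n ([N], s) := by
    rw [runN_add, h1, runN_nil]
  exact ⟨by rw [Halts, h2]; exact h, by rw [accepts, accepts, h2]⟩

theorem sim_step {B C : Lang} {m : ℕ} {N : Prog} {pN : Polynomial ℕ}
    (hB : ∀ x : Str, Halts C N (inp x) (pN.eval x.length) ∧
      (B x = accepts C N (inp x) (pN.eval x.length))) :
    ∀ (K : List Prog) (s : ℕ → Str) (L : ℕ), (∀ I ∈ K, I.bnd ≤ m) → (∀ i, m ≤ i → s i = []) →
      Bdd L s → ∃ n ≤ (TT N pN).eval L, ∀ k, runN C n (K.map (trP m N) ++ k, s) =
        ((step B (K, s)).1.map (trP m N) ++ k, (step B (K, s)).2)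
  | [], s, L, _, _, _ => ⟨0, Nat.zero_le _, fun _ => rfl⟩
  | Prog.skip :: K, s, L, _, _, _ => ⟨1, by rw [TT_eval]; omega, fun _ => rfl⟩
  | Prog.push r b :: K, s, L, _, _, _ => ⟨1, by rw [TT_eval]; omega, fun _ => rfl⟩
  | Prog.pop r :: K, s, L, _, _, _ => ⟨1, by rw [TT_eval]; omega, fun _ => rfl⟩
  | Prog.seq p q :: K, s, L, _, _, _ => ⟨1, by rw [TT_eval]; omega, fun _ => rfl⟩
  | Prog.branch r p q e :: K, s, L, _, _, _ => ⟨1, by rw [TT_eval]; omega, fun k => by
      rw [runN_one]
      simp only [List.map_cons, trP, List.cons_append, step]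
      rcases h : s r with _ | ⟨b, l⟩
      · rfl
      · cases b <;> rfl⟩
  | Prog.loop r p :: K, s, L, _, _, _ => ⟨1, by rw [TT_eval]; omega, fun k => by
      rw [runN_one]
      simp only [List.map_cons, trP, List.cons_append, step]
      rcases h : s r with _ | ⟨b, l⟩
      · rfl
      · rfl⟩
  | Prog.query r t :: K, s, L, h, h0, hL => by
      have h1 := h _ List.mem_cons_self
      simp only [Prog.bnd] at h1
      obtain ⟨h2, h3⟩ := hB (s r)
      have h4 : (s r).length ≤ L := hL r
      obtain ⟨h5, h6⟩ := halts_mono h2 (poly_mono pN h4)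
      obtain ⟨n, hn, h7⟩ := exec_qt C m N r t (by omega) (by omega) s h0 L _ hL h5
      refine ⟨n, by rw [TT_eval]; exact hn, fun k => ?_⟩
      have h8 := h7 (K.map (trP m N) ++ k)
      rw [h6, ← h3] at h8
      exact h8

theorem sim {B C : Lang} {m : ℕ} {N : Prog} {pN : Polynomial ℕ}
    (hB : ∀ x : Str, Halts C N (inp x) (pN.eval x.length) ∧
      (B x = accepts C N (inp x) (pN.eval x.length))) :
    ∀ (n : ℕ) (K : List Prog) (s : ℕ → Str) (L : ℕ), (∀ I ∈ K, I.bnd ≤ m) →
      (∀ i, m ≤ i → s i = []) → Bdd L s →
      ∃ n' ≤ n * (TT N pN).eval (L + n), ∀ k, runN C n' (K.map (trP m N) ++ k, s) =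
        ((runN B n (K, s)).1.map (trP m N) ++ k, (runN B n (K, s)).2)
  | 0, K, s, L, _, _, _ => ⟨0, Nat.zero_le _, fun _ => rfl⟩
  | n + 1, K, s, L, h, h0, hL => by
      obtain ⟨n1, hn1, h1⟩ := sim_step hB K s L h h0 hL
      obtain ⟨h2, h3⟩ := step_outside B m K s h
      obtain ⟨n2, hn2, h4⟩ := sim hB n (step B (K, s)).1 (step B (K, s)).2 (L + 1) h2
        (fun i hi => by rw [h3 i hi]; exact h0 i hi) (step_bdd B (K, s) hL)
      refine ⟨n1 + n2, ?_, fun k => ?_⟩
      · have h5 := poly_mono (TT N pN) (show L ≤ L + (n + 1) by omega)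
        have h6 : L + 1 + n = L + (n + 1) := by ring
        rw [h6] at hn2
        rw [add_mul, one_mul]
        omega
      · rw [runN_add, h1, h4, runN_succ]

theorem sim_accepts {B C : Lang} {N : Prog} {pN : Polynomial ℕ}
    (hB : ∀ x : Str, Halts C N (inp x) (pN.eval x.length) ∧
      (B x = accepts C N (inp x) (pN.eval x.length))) (M : Prog) (s : ℕ → Str) (n L n' : ℕ)
    (h : Halts B M s n) (hs : ∀ i, 2 ≤ i → s i = []) (hL : Bdd L s)
    (hn' : n * (TT N pN).eval (L + n) ≤ n') :
    Halts C (trP (M.bnd + 2) N M) s n' ∧
      accepts C (trP (M.bnd + 2) N M) s n' = accepts B M s n := by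
  obtain ⟨n1, hn1, h1⟩ := sim hB (m := M.bnd + 2) n [M] s L (by
    intro I hI
    simp only [List.mem_singleton] at hI
    subst hI; omega) (fun i hi => hs i (by omega)) hL
  have h2 := h1 []
  unfold Halts at h
  rw [h] at h2
  simp only [List.map_nil, List.append_nil, List.map_cons] at h2
  have h3 : Halts C (trP (M.bnd + 2) N M) s n1 := by
    unfold Halts; rw [h2]
  obtain ⟨h4, h5⟩ := halts_mono h3 (hn1.trans hn')
  refine ⟨h4, ?_⟩
  rw [h5, accepts, h2]
  rfl

theorem PO_subset {B C : Lang} (h : B ∈ PO C) : PO B ⊆ PO C := by
  obtain ⟨N, pN, hB⟩ := h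
  rintro L ⟨M, p, hL⟩
  refine ⟨trP (M.bnd + 2) N M, p * (TT N pN).comp (Polynomial.X + p), fun x => ?_⟩
  obtain ⟨h1, h2⟩ := hL x
  obtain ⟨h3, h4⟩ := sim_accepts hB M (inp x) (p.eval x.length) x.length
    ((p * (TT N pN).comp (Polynomial.X + p)).eval x.length) h1 (by
      intro i hi
      simp only [inp]
      rw [if_neg (by omega)]) (inp_bdd x) (by
      rw [Polynomial.eval_mul, Polynomial.eval_comp, Polynomial.eval_add, Polynomial.eval_X])
  exact ⟨h3, by rw [h4, h2]⟩

theorem NPO_subset {B C : Lang} (h : B ∈ PO C) : NPO B ⊆ NPO C := by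
  obtain ⟨N, pN, hB⟩ := h
  rintro L ⟨M, p, q, hL⟩
  refine ⟨trP (M.bnd + 2) N M, p * (TT N pN).comp (Polynomial.X + q + p), q, fun x => ?_⟩
  obtain ⟨h1, h2⟩ := hL x
  have key : ∀ y : Str, y.length = q.eval x.length →
      Halts C (trP (M.bnd + 2) N M) (inp2 x y)
        ((p * (TT N pN).comp (Polynomial.X + q + p)).eval x.length) ∧
      accepts C (trP (M.bnd + 2) N M) (inp2 x y)
        ((p * (TT N pN).comp (Polynomial.X + q + p)).eval x.length) =
        accepts B M (inp2 x y) (p.eval x.length) := by
    intro y hy
    exact sim_accepts hB M (inp2 x y) (p.eval x.length) (x.length + y.length)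
      ((p * (TT N pN).comp (Polynomial.X + q + p)).eval x.length) (h1 y hy) (by
        intro i hi
        simp only [inp2]
        rw [if_neg (by omega), if_neg (by omega)]) (inp2_bdd x y) (by
        rw [Polynomial.eval_mul, Polynomial.eval_comp, Polynomial.eval_add, Polynomial.eval_add,
          Polynomial.eval_X, hy])
  refine ⟨fun y hy => (key y hy).1, ?_⟩
  rw [h2]
  constructor
  · rintro ⟨y, hy, hy2⟩; exact ⟨y, hy, by rw [(key y hy).2]; exact hy2⟩
  · rintro ⟨y, hy, hy2⟩; exact ⟨y, hy, by rw [← (key y hy).2]; exact hy2⟩

theorem PO_subset_NPO (O : Lang) : PO O ⊆ NPO O := by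
  rintro L ⟨M, p, hL⟩
  refine ⟨M, p, 0, fun x => ?_⟩
  obtain ⟨h1, h2⟩ := hL x
  have e : inp2 x [] = inp x := by
    funext r
    unfold inp2 inp
    split_ifs <;> rfl
  constructor
  · intro y hy
    simp only [Polynomial.eval_zero, List.length_eq_zero_iff] at hy
    subst hy
    rw [e]; exact h1
  · simp only [Polynomial.eval_zero, List.length_eq_zero_iff]
    rw [h2]
    constructor
    · intro h; exact ⟨[], rfl, by rw [e]; exact h⟩
    · rintro ⟨y, rfl, hy⟩; rw [e] at hy; exact hy

theorem join_mem {X A : Lang} (h : A ∈ PO X) : join X A ∈ PO X := by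
  obtain ⟨M, p, hA⟩ := h
  refine ⟨Prog.branch 0 (Prog.seq (Prog.pop 0) M) (Prog.seq (Prog.pop 0) (Prog.query 0 0))
    Prog.skip, p + 4, fun x => ?_⟩
  simp only [Polynomial.eval_add, Polynomial.eval_ofNat]
  rcases x with _ | ⟨b, v⟩
  · have h1 : Exec X (Prog.branch 0 (Prog.seq (Prog.pop 0) M)
        (Prog.seq (Prog.pop 0) (Prog.query 0 0)) Prog.skip) (inp []) (inp []) 2 :=
      Exec.branch_nil (by simp [inp]) (exec_skip _)
    obtain ⟨h2, h3⟩ := h1.halts (N := p.eval ([] : Str).length + 4) (by omega)
    refine ⟨h2, ?_⟩
    rw [h3]; simp [join, inp]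
  · have e : Function.update (inp (b :: v)) 0 v = inp v := by
      funext r
      unfold inp
      by_cases hr : r = 0
      · subst hr; simp
      · simp [hr]
    have hpop : Exec X (Prog.pop 0) (inp (b :: v)) (inp v) 1 := by
      have := exec_pop (O := X) 0 (inp (b :: v))
      rwa [show (inp (b :: v) 0).tail = v by simp [inp], e] at this
    have hle : p.eval v.length ≤ p.eval (b :: v : Str).length :=
      poly_mono p (by simp)
    cases b
    · have h1 := hpop.seq (exec_query (O := X) 0 0 (inp v))
      have h2 := Exec.branch_false (r := 0) (p := Prog.seq (Prog.pop 0) M) (e := Prog.skip)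
        (s := inp (false :: v)) (l := v) (by simp [inp]) h1
      obtain ⟨h3, h4⟩ := h2.halts (N := p.eval (false :: v : Str).length + 4) (by omega)
      refine ⟨h3, ?_⟩
      rw [h4]
      simp [join, inp]
    · obtain ⟨h5, h6⟩ := hA v
      have h1 : Exec X M (inp v) (runN X (p.eval v.length) ([M], inp v)).2 (p.eval v.length) := by
        have := exec_shift X 0 M (inp v) _ h5 (inp v)
        have e1 : ∀ s0 u : ℕ → Str, mg 0 s0 u = u := by
          intro s0 u; funext r; simp [mg]
        have e2 : ∀ P : Prog, P.shift 0 = P := by
          intro P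
          induction P with
          | skip => rfl
          | push r b => rfl
          | pop r => rfl
          | query r t => rfl
          | seq p q hp hq => simp [Prog.shift, hp, hq]
          | branch r p q e hp hq he => simp [Prog.shift, hp, hq, he]
          | loop r p hp => simp [Prog.shift, hp]
        rwa [e1, e1, e2] at this
      have h2 := Exec.branch_true (r := 0) (q := Prog.seq (Prog.pop 0) (Prog.query 0 0))
        (e := Prog.skip) (s := inp (true :: v)) (l := v) (by simp [inp]) (hpop.seq h1)
      obtain ⟨h3, h4⟩ := h2.halts (N := p.eval (true :: v : Str).length + 4) (by omega)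
      refine ⟨h3, ?_⟩
      rw [h4]
      show A v = _
      rw [h6]
      rfl

end Pool.Agent.Lib.Pa76659
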