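import Pool.Agent.Lib.Pa76659.DT

/-!
A switching lemma for random projections: blocks `b : B` of variables `v : V` with `β v = b`.
-/

set_option linter.unusedSectionVars false

namespace Pool.Agent.Lib.Pa76659.Switch

open Pool.Agent.Lib.Pa76659

variable {V B : Type} [DecidableEq V] [DecidableEq B] (β : V → B)

/-- value of a variable under the restriction `ρ` and the assignment `x` of the blocks -/
def val (ρ : V ⊕ B → ℕ) (x : B → Bool) (v : V) : Bool :=
  if ρ (Sum.inl v) ≠ 0 then true else if ρ (Sum.inr (β v)) ≠ 0 then false else !(x (β v))

/-- value known under the restriction and partial information `π` -/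
def fv (ρ : V ⊕ B → ℕ) (π : B → Option Bool) (v : V) : Option Bool :=
  if ρ (Sum.inl v) ≠ 0 then some true
  else if ρ (Sum.inr (β v)) ≠ 0 then some false else (π (β v)).map (fun c => !c)

def killed (ρ : V ⊕ B → ℕ) (π : B → Option Bool) (T : List (V × Bool)) : Prop :=
  ∃ l ∈ T, fv β ρ π l.1 = some (!l.2)

def evalT (T : List (V × Bool)) (x : V → Bool) : Prop := ∀ l ∈ T, x l.1 = l.2

def evalF (F : List (List (V × Bool))) (x : V → Bool) : Prop := ∃ T ∈ F, evalT T x

def Cons (π : B → Option Bool) (x : B → Bool) : Prop := ∀ b c, π b = some c → x b = c

/-- no decision tree of depth less than `s` computes `F` under `ρ`, `π` -/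
def Hard (F : List (List (V × Bool))) (ρ : V ⊕ B → ℕ) (π : B → Option Bool) (s : ℕ) : Prop :=
  ¬ ∃ D : DT B Bool, D.depth < s ∧
    ∀ x, Cons π x → (D.eval x = true ↔ evalF F (val β ρ x))

def ent (l : V × Bool) : V ⊕ B := if l.2 = true then Sum.inl l.1 else Sum.inr (β l.1)

def blk (e : V ⊕ B) : B := Sum.elim β id e

theorem blk_ent (l : V × Bool) : blk β (ent β l) = β l.1 := by
  unfold blk ent; split_ifs <;> simp

/-- position, answer, last entry of the stage -/
abbrev Info := ℕ × Bool × Bool

def stageOf : List Info → List Info × List Info
  | [] => ([], [])
  | i :: I => if i.2.2 = true then ([i], I) else (i :: (stageOf I).1, (stageOf I).2)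

theorem stageOf_false (A : List Info) (h : ∀ i ∈ A, i.2.2 = false) : stageOf A = (A, []) := by
  induction A with
  | nil => rfl
  | cons i A ih =>
      have h1 := h i (by simp)
      have h2 := ih (fun j hj => h j (by simp [hj]))
      simp [stageOf, h1, h2]

theorem stageOf_append (A : List Info) (h : ∀ i ∈ A, i.2.2 = false) (j : Info)
    (hj : j.2.2 = true) (I : List Info) : stageOf (A ++ j :: I) = (A ++ [j], I) := by
  induction A with
  | nil => simp [stageOf, hj]
  | cons i A ih =>
      have h1 := h i (by simp)
      have h2 := ih (fun j hj => h j (by simp [hj]))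
      simp [stageOf, h1, h2]

def entsOf (T : List (V × Bool)) (S : List Info) : List (V ⊕ B) :=
  S.filterMap (fun i => (T[i.1]?).map (ent β))

def updOf (T : List (V × Bool)) (S : List Info) (π : B → Option Bool) : B → Option Bool :=
  fun b => match S.find? (fun i => decide ((T[i.1]?).map (fun l => β l.1) = some b)) with
    | some i => some i.2.1
    | none => π b

open Classical in
noncomputable def zero (ρ : V ⊕ B → ℕ) (es : List (V ⊕ B)) : V ⊕ B → ℕ :=
  fun e => if e ∈ es then 0 else ρ e

open Classical in
/-- the decoder -/
noncomputable def dec : List (List (V × Bool)) → (V ⊕ B → ℕ) → (B → Option Bool) → List Info →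
    List (V ⊕ B)
  | [], _, _, _ => []
  | T :: F, ρ, π, I =>
      if I = [] then []
      else if killed β ρ π T then dec F ρ π I
      else entsOf β T (stageOf I).1 ++
        dec F (zero ρ (entsOf β T (stageOf I).1)) (updOf β T (stageOf I).1 π) (stageOf I).2

/-- query all the blocks in a list -/
def queryAll {α : Type} (k : (B → Bool) → DT B α) : List B → (B → Bool) → DT B α
  | [], acc => k acc
  | b :: l, acc => DT.node b (queryAll k l (Function.update acc b false))
      (queryAll k l (Function.update acc b true))

theorem queryAll_eval {α : Type} (k : (B → Bool) → DT B α) (x : B → Bool) :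
    ∀ (l : List B) (acc : B → Bool),
      (queryAll k l acc).eval x = (k (fun b => if b ∈ l then x b else acc b)).eval x
  | [], acc => by simp [queryAll]
  | b :: l, acc => by
      simp only [queryAll, DT.eval]
      have key : ∀ c, x b = c →
          (fun b' => if b' ∈ l then x b' else Function.update acc b c b')
          = (fun b' => if b' ∈ b :: l then x b' else acc b') := by
        intro c hc
        funext b'
        by_cases h1 : b' ∈ l
        · simp [h1]
        · by_cases h2 : b' = b
          · subst h2; simp [h1, hc]
          · simp [h1, h2]
      split_ifs with h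
      · rw [queryAll_eval, key true h]
      · rw [queryAll_eval, key false (by simpa using h)]

theorem queryAll_depth {α : Type} (k : (B → Bool) → DT B α) (d : ℕ) (hk : ∀ c, (k c).depth ≤ d) :
    ∀ (l : List B) (acc : B → Bool), (queryAll k l acc).depth ≤ l.length + d
  | [], acc => by simpa [queryAll] using hk acc
  | b :: l, acc => by
      have h1 := queryAll_depth k d hk l (Function.update acc b false)
      have h2 := queryAll_depth k d hk l (Function.update acc b true)
      simp only [queryAll, DT.depth, List.length_cons]
      omega

theorem val_of_fv {ρ : V ⊕ B → ℕ} {π : B → Option Bool} {x : B → Bool} (hx : Cons π x) {v : V}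
    {c : Bool} (h : fv β ρ π v = some c) : val β ρ x v = c := by
  unfold fv at h
  unfold val
  split_ifs at h ⊢ with h1 h2
  · simpa using h
  · simpa using h
  · obtain ⟨c', h3, h4⟩ := Option.map_eq_some_iff.1 h
    rw [hx _ _ h3, h4]

/-- the properties of a list of modified entries -/
def ModOK (ρ : V ⊕ B → ℕ) (π : B → Option Bool) (mods : List (V ⊕ B)) : Prop :=
  ∀ e ∈ mods, ρ e = 0 ∧ ρ (Sum.inr (blk β e)) = 0 ∧ π (blk β e) = none

theorem fv_stable {ρ ρ' : V ⊕ B → ℕ} {π : B → Option Bool} {mods : List (V ⊕ B)}
    (hm : ModOK β ρ π mods) (h1 : ∀ e, e ∉ mods → ρ' e = ρ e) {v : V} {c : Bool}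
    (h : fv β ρ π v = some c) : fv β ρ' π v = some c := by
  have hv : Sum.inl v ∉ mods := by
    intro hv
    obtain ⟨a1, a2, a3⟩ := hm _ hv
    simp only [blk, Sum.elim_inl] at a2 a3
    simp [fv, a1, a2, a3] at h
  by_cases hb : Sum.inr (β v) ∈ mods
  · obtain ⟨a1, a2, a3⟩ := hm _ hb
    simp only [blk, Sum.elim_inr, id] at a2 a3
    have h4 : ρ (Sum.inl v) ≠ 0 := by
      intro h4
      simp [fv, a1, a3, h4] at h
    unfold fv at h ⊢
    rw [h1 _ hv]
    simpa [h4] using h
  · unfold fv at h ⊢
    rw [h1 _ hv, h1 _ hb]
    exact h

theorem fv_none {ρ : V ⊕ B → ℕ} {π : B → Option Bool} {v : V} (h : fv β ρ π v = none) :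
    ρ (Sum.inl v) = 0 ∧ ρ (Sum.inr (β v)) = 0 ∧ π (β v) = none := by
  unfold fv at h
  split_ifs at h with h1 h2
  · exact ⟨by simpa using h1, by simpa using h2, by simpa using h⟩


theorem evalT_fixed {ρ : V ⊕ B → ℕ} {π : B → Option Bool} {T : List (V × Bool)}
    (h : ∀ l ∈ T, fv β ρ π l.1 ≠ none) {x y : B → Bool} (hx : Cons π x) (hy : Cons π y)
    (hT : evalT T (val β ρ x)) : evalT T (val β ρ y) := by
  intro l hl
  obtain ⟨c, hc⟩ := Option.ne_none_iff_exists'.1 (h l hl)
  rw [val_of_fv β hy hc, ← val_of_fv β hx hc]
  exact hT l hl

set_option maxHeartbeats 4000000 in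
theorem core (t : ℕ) (ρ : V ⊕ B → ℕ) : ∀ (F : List (List (V × Bool)))
    (_ : ∀ T ∈ F, T.length ≤ t ∧ (T.map Prod.fst).Nodup)
    (π : B → Option Bool) (s : ℕ), Hard β F ρ π s →
    ∃ (I : List Info) (mods : List (V ⊕ B)), I.length = s ∧ (∀ i ∈ I, i.1 < t) ∧
      mods.length = s ∧ mods.Nodup ∧ ModOK β ρ π mods ∧
      ∀ ρ' : V ⊕ B → ℕ, (∀ e, e ∉ mods → ρ' e = ρ e) → (∀ e ∈ mods, ρ' e ≠ 0) →
        dec β F ρ' π I = mods := by
  classical
  intro F
  induction F with
  | nil =>
      intro _ π s hH
      have hs : s = 0 := by
        by_contra hs
        apply hH
        refine ⟨DT.leaf false, by simp only [DT.depth]; omega, ?_⟩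
        intro x _
        simp [DT.eval, evalF]
      subst hs
      exact ⟨[], [], rfl, by simp, rfl, List.nodup_nil, by simp [ModOK], fun _ _ _ => rfl⟩
  | cons T F ih =>
      intro hF π s hH
      have hF' : ∀ T ∈ F, T.length ≤ t ∧ (T.map Prod.fst).Nodup :=
        fun T' hT' => hF T' (by simp [hT'])
      obtain ⟨hTt, hTn⟩ := hF T (by simp)
      rcases Nat.eq_zero_or_pos s with hs | hs
      · subst hs
        exact ⟨[], [], rfl, by simp, rfl, List.nodup_nil, by simp [ModOK],
          fun _ _ _ => by simp [dec]⟩
      by_cases hk : killed β ρ π T
      · -- killed term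
        have hH' : Hard β F ρ π s := by
          rintro ⟨D, hD, hD2⟩
          apply hH
          refine ⟨D, hD, fun x hx => ?_⟩
          rw [hD2 x hx]
          obtain ⟨l, hl, hl2⟩ := hk
          constructor
          · rintro ⟨T', h1, h2⟩; exact ⟨T', by simp [h1], h2⟩
          · rintro ⟨T', h1, h2⟩
            rcases List.mem_cons.1 h1 with h1 | h1
            · subst h1
              have h3 := h2 l hl
              rw [val_of_fv β hx hl2] at h3
              simp at h3
            · exact ⟨T', h1, h2⟩
        obtain ⟨I, mods, a1, a2, a3, a4, a5, a6⟩ := ih hF' π s hH'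
        refine ⟨I, mods, a1, a2, a3, a4, a5, fun ρ' h1 h2 => ?_⟩
        have hI : I ≠ [] := by
          intro h; rw [h] at a1; simp at a1; omega
        have hk' : killed β ρ' π T := by
          obtain ⟨l, hl, hl2⟩ := hk
          exact ⟨l, hl, fv_stable β a5 h1 hl2⟩
        simp only [dec, hI, hk', if_true, if_false]
        exact a6 ρ' h1 h2
      -- stage term
      -- unique literal for each variable
      have huniq : ∀ l ∈ T, ∀ l' ∈ T, l.1 = l'.1 → l = l' := by
        intro l hl l' hl' he
        exact List.inj_on_of_nodup_map hTn hl hl' he
      set Lf := T.filter (fun l => decide (fv β ρ π l.1 = none)) with hLf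
      set P := ((Lf.filter (fun l => l.2)).map (ent β)).dedup with hP
      set N := ((Lf.filter (fun l => !l.2)).map (ent β)).dedup with hN
      set mT := P ++ N with hmT
      have hPmem : ∀ e, e ∈ P ↔ ∃ l ∈ T, fv β ρ π l.1 = none ∧ l.2 = true ∧ e = Sum.inl l.1 := by
        intro e
        simp only [hP, hLf, List.mem_dedup, List.mem_map, List.mem_filter, decide_eq_true_eq]
        constructor
        · rintro ⟨l, ⟨⟨h1, h2⟩, h3⟩, h4⟩
          exact ⟨l, h1, h2, h3, by rw [← h4]; simp [ent, h3]⟩
        · rintro ⟨l, h1, h2, h3, h4⟩
          exact ⟨l, ⟨⟨h1, h2⟩, h3⟩, by rw [h4]; simp [ent, h3]⟩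
      have hNmem : ∀ e, e ∈ N ↔ ∃ l ∈ T, fv β ρ π l.1 = none ∧ l.2 = false ∧
          e = Sum.inr (β l.1) := by
        intro e
        simp only [hN, hLf, List.mem_dedup, List.mem_map, List.mem_filter, decide_eq_true_eq]
        constructor
        · rintro ⟨l, ⟨⟨h1, h2⟩, h3⟩, h4⟩
          have h3' : l.2 = false := by simpa using h3
          exact ⟨l, h1, h2, h3', by rw [← h4]; simp [ent, h3']⟩
        · rintro ⟨l, h1, h2, h3, h4⟩
          exact ⟨l, ⟨⟨h1, h2⟩, by simp [h3]⟩, by rw [h4]; simp [ent, h3]⟩
      have hmem : ∀ e ∈ mT, ∃ l ∈ T, fv β ρ π l.1 = none ∧ ent β l = e := by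
        intro e he
        rcases List.mem_append.1 he with he | he
        · obtain ⟨l, h1, h2, h3, h4⟩ := (hPmem e).1 he
          exact ⟨l, h1, h2, by rw [h4]; simp [ent, h3]⟩
        · obtain ⟨l, h1, h2, h3, h4⟩ := (hNmem e).1 he
          exact ⟨l, h1, h2, by rw [h4]; simp [ent, h3]⟩
      have hfree : ∀ l ∈ T, fv β ρ π l.1 = none → ent β l ∈ mT := by
        intro l hl h0
        rw [hmT, List.mem_append]
        by_cases h2 : l.2 = true
        · left; rw [hPmem]; exact ⟨l, hl, h0, h2, by simp [ent, h2]⟩
        · right; rw [hNmem]; exact ⟨l, hl, h0, by simpa using h2, by simp [ent, h2]⟩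
      have hnodup : mT.Nodup := by
        rw [hmT, List.nodup_append]
        refine ⟨List.nodup_dedup _, List.nodup_dedup _, ?_⟩
        intro a ha b hb hab
        obtain ⟨l, _, _, _, h1⟩ := (hPmem a).1 ha
        obtain ⟨l', _, _, _, h2⟩ := (hNmem b).1 hb
        rw [hab, h2] at h1
        simp at h1
      have hModT : ModOK β ρ π mT := by
        intro e he
        obtain ⟨l, h1, h2, h3⟩ := hmem e he
        obtain ⟨b1, b2, b3⟩ := fv_none β h2
        rw [← h3, blk_ent]
        refine ⟨?_, b2, b3⟩
        unfold ent; split_ifs
        · exact b1
        · exact b2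
      -- the chosen literals
      have hch : ∀ e : V ⊕ B, ∃ l : V × Bool, e ∈ mT → l ∈ T ∧ fv β ρ π l.1 = none ∧
          ent β l = e := by
        intro e
        by_cases he : e ∈ mT
        · obtain ⟨l, h⟩ := hmem e he; exact ⟨l, fun _ => h⟩
        · rcases T with _ | ⟨l, T⟩
          · exfalso
            apply hH
            refine ⟨DT.leaf true, by simp only [DT.depth]; omega, fun x _ => ?_⟩
            simp [DT.eval, evalF, evalT]
          · exact ⟨l, fun h => absurd h he⟩
      choose ch hch using hch
      -- the information
      have hpos : ∀ e ∈ mT, T.idxOf (ch e) < t ∧ T[T.idxOf (ch e)]? = some (ch e) := by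
        intro e he
        have h1 := (hch e he).1
        have h2 := List.idxOf_lt_length_of_mem h1
        exact ⟨lt_of_lt_of_le h2 hTt, by
          rw [List.getElem?_eq_getElem h2, List.getElem_idxOf]⟩
      -- non-killed lemma
      have hnk : ∀ (mods : List (V ⊕ B)), ModOK β ρ π mods →
          (∀ l ∈ T, fv β ρ π l.1 = none → l.2 = true →
            Sum.inl l.1 ∈ mods ∨ Sum.inr (β l.1) ∉ mods) →
          (∀ l ∈ T, fv β ρ π l.1 = none → l.2 = false → Sum.inl l.1 ∉ mods) →
          ∀ ρ' : V ⊕ B → ℕ, (∀ e, e ∉ mods → ρ' e = ρ e) → (∀ e ∈ mods, ρ' e ≠ 0) →
          ¬ killed β ρ' π T := by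
        rintro mods hm c1 c2 ρ' h1 h2 ⟨l, hl, hl2⟩
        cases hfv : fv β ρ π l.1 with
        | some c =>
            have h3 := fv_stable β hm h1 hfv
            rw [hl2] at h3
            apply hk
            exact ⟨l, hl, by rw [hfv, ← h3]⟩
        | none =>
            obtain ⟨b1, b2, b3⟩ := fv_none β hfv
            cases hl3 : l.2 with
            | true =>
                by_cases h4 : Sum.inl l.1 ∈ mods
                · have h5 := h2 _ h4
                  simp [fv, h5, hl3] at hl2
                · have h5 := (c1 l hl hfv hl3).resolve_left h4
                  have h6 : ρ' (Sum.inl l.1) = 0 := by rw [h1 _ h4, b1]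
                  have h7 : ρ' (Sum.inr (β l.1)) = 0 := by rw [h1 _ h5, b2]
                  simp [fv, h6, h7, b3] at hl2
            | false =>
                have h4 := c2 l hl hfv hl3
                have h6 : ρ' (Sum.inl l.1) = 0 := by rw [h1 _ h4, b1]
                by_cases h5 : Sum.inr (β l.1) ∈ mods
                · have h7 := h2 _ h5
                  simp [fv, h6, h7, hl3] at hl2
                · have h7 : ρ' (Sum.inr (β l.1)) = 0 := by rw [h1 _ h5, b2]
                  simp [fv, h6, h7, b3] at hl2
      have hNoInl : ∀ l ∈ T, l.2 = false → Sum.inl l.1 ∉ mT := by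
        intro l hl h2 h3
        rcases List.mem_append.1 h3 with h4 | h4
        · obtain ⟨l', g1, g2, g3, g4⟩ := (hPmem _).1 h4
          have := huniq l hl l' g1 (Sum.inl_injective g4)
          rw [this, g3] at h2
          simp at h2
        · obtain ⟨l', g1, g2, g3, g4⟩ := (hNmem _).1 h4
          simp at g4
      by_cases hsm : s ≤ mT.length
      · -- truncated final stage
        refine ⟨(mT.take s).map (fun e => (T.idxOf (ch e), false, false)), mT.take s, ?_, ?_,
          ?_, ?_, ?_, ?_⟩
        · simp [hsm]
        · intro i hi
          obtain ⟨e, he, rfl⟩ := List.mem_map.1 hi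
          exact (hpos e (List.mem_of_mem_take he)).1
        · simp [hsm]
        · exact hnodup.sublist (List.take_sublist _ _)
        · intro e he; exact hModT e (List.mem_of_mem_take he)
        · intro ρ' h1 h2
          have hModt : ModOK β ρ π (mT.take s) := fun e he => hModT e (List.mem_of_mem_take he)
          have hnk' := hnk (mT.take s) hModt (by
            intro l hl h0 h3
            by_cases h4 : Sum.inl l.1 ∈ mT.take s
            · left; exact h4
            · right
              intro h5
              -- all of `P` precedes `N`
              have hlP : (Sum.inl l.1 : V ⊕ B) ∈ P := (hPmem _).2 ⟨l, hl, h0, h3, rfl⟩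
              rw [hmT, List.take_append] at h4 h5
              rcases List.mem_append.1 h5 with h6 | h6
              · obtain ⟨l', _, _, _, g4⟩ := (hPmem _).1 (List.mem_of_mem_take h6)
                simp at g4
              · have h7 : 0 < s - P.length := by
                  by_contra h7
                  have : s - P.length = 0 := by omega
                  rw [this] at h6
                  simp at h6
                apply h4
                rw [List.mem_append]
                left
                rw [List.take_of_length_le (by omega)]
                exact hlP) (by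
            intro l hl _ h3 h4
            exact hNoInl l hl h3 (List.mem_of_mem_take h4)) ρ' h1 h2
          have hI : (mT.take s).map (fun e => ((T.idxOf (ch e), false, false) : Info)) ≠ [] := by
            intro h
            have h3 := congrArg List.length h
            simp [hsm] at h3
            omega
          have hst := stageOf_false ((mT.take s).map
            (fun e => ((T.idxOf (ch e), false, false) : Info))) (by
              intro i hi
              obtain ⟨e, he, rfl⟩ := List.mem_map.1 hi
              rfl)
          have hents : entsOf β T ((mT.take s).map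
              (fun e => ((T.idxOf (ch e), false, false) : Info))) = mT.take s := by
            unfold entsOf
            rw [List.filterMap_map]
            have : ∀ e ∈ mT.take s, ((fun i : Info => (T[i.1]?).map (ent β)) ∘
                fun e => ((T.idxOf (ch e), false, false) : Info)) e = some e := by
              intro e he
              have he' := List.mem_of_mem_take he
              simp [(hpos e he').2, (hch e he').2.2]
            rw [List.filterMap_congr this]
            simp
          simp only [dec]
          rw [if_neg hI, if_neg hnk', hst, hents]
          have hdn : ∀ (F : List (List (V × Bool))) ρ π, dec β F ρ π [] = [] := by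
            intro F ρ π
            cases F <;> simp [dec]
          simp [hdn]
      · -- full stage
        push Not at hsm
        set U := (mT.map (blk β)).dedup with hU
        have hUlen : U.length ≤ mT.length := by
          have := (List.dedup_sublist (mT.map (blk β))).length_le
          simpa [hU] using this
        -- updated information
        let πc : (B → Bool) → B → Option Bool := fun c b => if b ∈ U then some (c b) else π b
        have hfix : ∀ c, ∀ l ∈ T, fv β ρ (πc c) l.1 ≠ none := by
          intro c l hl h0
          obtain ⟨b1, b2, b3⟩ := fv_none β h0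
          by_cases hb : β l.1 ∈ U
          · simp [πc, hb] at b3
          · have b4 : π (β l.1) = none := by simpa [πc, hb] using b3
            have h5 : fv β ρ π l.1 = none := by simp [fv, b1, b2, b4]
            apply hb
            rw [hU, List.mem_dedup, List.mem_map]
            exact ⟨ent β l, hfree l hl h5, blk_ent β l⟩
        have hex : ∃ c : B → Bool, (∀ x, Cons (πc c) x → ¬ evalT T (val β ρ x)) ∧
            Hard β F ρ (πc c) (s - mT.length) := by
          by_contra hcon
          push Not at hcon
          have hD : ∀ c : B → Bool, ∃ D : DT B Bool, D.depth ≤ s - mT.length - 1 ∧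
              ∀ x, Cons (πc c) x → (D.eval x = true ↔ evalF (T :: F) (val β ρ x)) := by
            intro c
            by_cases h1 : ∃ x, Cons (πc c) x ∧ evalT T (val β ρ x)
            · obtain ⟨x, h1, h2⟩ := h1
              refine ⟨DT.leaf true, by simp [DT.depth], fun y hy => ?_⟩
              have : evalT T (val β ρ y) := evalT_fixed β (hfix c) h1 hy h2
              simp only [DT.eval, true_iff]
              exact ⟨T, by simp, this⟩
            · push Not at h1
              have h2 := hcon c h1
              unfold Hard at h2
              push Not at h2
              obtain ⟨D, h3, h4⟩ := h2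
              refine ⟨D, by omega, fun x hx => ?_⟩
              rw [h4 x hx]
              constructor
              · rintro ⟨T', g1, g2⟩; exact ⟨T', by simp [g1], g2⟩
              · rintro ⟨T', g1, g2⟩
                rcases List.mem_cons.1 g1 with g1 | g1
                · subst g1; exact absurd g2 (h1 x hx)
                · exact ⟨T', g1, g2⟩
          choose D hD1 hD2 using hD
          apply hH
          refine ⟨queryAll D U (fun _ => false), ?_, ?_⟩
          · have := queryAll_depth D _ hD1 U (fun _ => false)
            omega
          · intro x hx
            rw [queryAll_eval]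
            apply hD2
            intro b c hbc
            by_cases hb : b ∈ U
            · simp only [πc, hb, if_true, Option.some.injEq] at hbc
              exact hbc
            · simp only [πc, hb, if_false] at hbc
              exact hx b c hbc
        obtain ⟨c, hc1, hc2⟩ := hex
        obtain ⟨I', mods', a1, a2, a3, a4, a5, a6⟩ := ih hF' (πc c) (s - mT.length) hc2
        -- `mT` is nonempty
        have hmT0 : mT ≠ [] := by
          intro h0
          have hall : ∀ l ∈ T, ∃ c, fv β ρ π l.1 = some c := by
            intro l hl
            rw [← Option.ne_none_iff_exists']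
            intro h1
            have := hfree l hl h1
            rw [h0] at this
            simp at this
          apply hH
          refine ⟨DT.leaf true, by simp only [DT.depth]; omega, fun x hx => ?_⟩
          simp only [DT.eval, true_iff]
          refine ⟨T, by simp, fun l hl => ?_⟩
          obtain ⟨c, hc⟩ := hall l hl
          rw [val_of_fv β hx hc]
          by_contra hne
          apply hk
          exact ⟨l, hl, by rw [hc]; cases c <;> cases h : l.2 <;> simp_all⟩
        obtain ⟨A, e0, hA⟩ : ∃ A e0, mT = A ++ [e0] :=
          ⟨mT.dropLast, mT.getLast hmT0, (List.dropLast_append_getLast hmT0).symm⟩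
        let g : Bool → V ⊕ B → Info := fun f e => (T.idxOf (ch e), c (blk β e), f)
        set S : List Info := A.map (g false) ++ [g true e0] with hS
        have hSlen : S.length = mT.length := by rw [hS, hA]; simp
        have hents : entsOf β T S = mT := by
          unfold entsOf
          rw [hS, List.filterMap_append, List.filterMap_map]
          have h1 : ∀ e ∈ A, ((fun i : Info => (T[i.1]?).map (ent β)) ∘ g false) e = some e := by
            intro e he
            have he' : e ∈ mT := by rw [hA]; simp [he]
            simp [g, (hpos e he').2, (hch e he').2.2]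
          rw [List.filterMap_congr h1]
          have he' : e0 ∈ mT := by rw [hA]; simp
          have h2 : List.filterMap (fun i : Info => (T[i.1]?).map (ent β)) [g true e0] = [e0] := by
            simp [g, (hpos e0 he').2, (hch e0 he').2.2]
          rw [h2, hA]
          simp
        have hSmem : ∀ i ∈ S, ∃ e ∈ mT, ∃ f, i = g f e := by
          intro i hi
          rw [hS, List.mem_append] at hi
          rcases hi with hi | hi
          · obtain ⟨e, he, rfl⟩ := List.mem_map.1 hi
            exact ⟨e, by rw [hA]; simp [he], false, rfl⟩
          · rw [List.mem_singleton] at hi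
            exact ⟨e0, by rw [hA]; simp, true, hi⟩
        have hSmem2 : ∀ e ∈ mT, ∃ f, g f e ∈ S := by
          intro e he
          rw [hA, List.mem_append] at he
          rcases he with he | he
          · exact ⟨false, by rw [hS, List.mem_append]; left; exact List.mem_map_of_mem he⟩
          · rw [List.mem_singleton] at he
            exact ⟨true, by rw [hS, he]; simp⟩
        have hblk : ∀ e ∈ mT, (T[T.idxOf (ch e)]?).map (fun l => β l.1) = some (blk β e) := by
          intro e he
          rw [(hpos e he).2]
          simp only [Option.map_some, Option.some.injEq]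
          rw [← blk_ent β (ch e), (hch e he).2.2]
        have hupd : updOf β T S π = πc c := by
          funext b
          unfold updOf
          cases hfd : S.find? (fun i => decide ((T[i.1]?).map (fun l => β l.1) = some b)) with
          | none =>
              rw [List.find?_eq_none] at hfd
              have hb : b ∉ U := by
                intro hb
                rw [hU, List.mem_dedup, List.mem_map] at hb
                obtain ⟨e, he, heb⟩ := hb
                obtain ⟨f, hf⟩ := hSmem2 e he
                have h1 := hfd _ hf
                simp only [g, hblk e he, heb, decide_true, not_true] at h1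
              simp [πc, hb]
          | some i =>
              have h1 := List.find?_some hfd
              have h2 := List.mem_of_find?_eq_some hfd
              obtain ⟨e, he, f, rfl⟩ := hSmem i h2
              simp only [g, hblk e he, decide_eq_true_eq, Option.some.injEq] at h1
              have hb : b ∈ U := by
                rw [hU, List.mem_dedup, List.mem_map]
                exact ⟨e, he, h1⟩
              simp [πc, hb, g, h1]
        have hdisj : ∀ e ∈ mT, e ∉ mods' := by
          intro e he he'
          have h1 := (a5 e he').2.2
          have hb : blk β e ∈ U := by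
            rw [hU, List.mem_dedup, List.mem_map]
            exact ⟨e, he, rfl⟩
          simp [πc, hb] at h1
        have hMod : ModOK β ρ π (mT ++ mods') := by
          intro e he
          rcases List.mem_append.1 he with he | he
          · exact hModT e he
          · obtain ⟨b1, b2, b3⟩ := a5 e he
            refine ⟨b1, b2, ?_⟩
            by_cases hb : blk β e ∈ U
            · simp [πc, hb] at b3
            · simpa [πc, hb] using b3
        refine ⟨S ++ I', mT ++ mods', ?_, ?_, ?_, ?_, hMod, ?_⟩
        · rw [List.length_append, hSlen, a1]; omega
        · intro i hi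
          rcases List.mem_append.1 hi with hi | hi
          · obtain ⟨e, he, f, rfl⟩ := hSmem i hi
            exact (hpos e he).1
          · exact a2 i hi
        · rw [List.length_append, a3]; omega
        · rw [List.nodup_append]
          refine ⟨hnodup, a4, ?_⟩
          intro a ha b hb hab
          subst hab
          exact hdisj a ha hb
        · intro ρ' h1 h2
          have hnk' := hnk (mT ++ mods') hMod (by
            intro l hl h0 h3
            left
            have := hfree l hl h0
            rw [show ent β l = Sum.inl l.1 by simp [ent, h3]] at this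
            exact List.mem_append.2 (Or.inl this)) (by
            intro l hl h0 h3 h4
            rcases List.mem_append.1 h4 with h4 | h4
            · exact hNoInl l hl h3 h4
            · have h5 := (a5 _ h4).2.2
              simp only [blk, Sum.elim_inl] at h5
              have hb : β l.1 ∈ U := by
                rw [hU, List.mem_dedup, List.mem_map]
                exact ⟨ent β l, hfree l hl h0, blk_ent β l⟩
              simp [πc, hb] at h5) ρ' h1 h2
          have hI : S ++ I' ≠ [] := by
            rw [hS]; simp
          have hst : stageOf (S ++ I') = (S, I') := by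
            rw [hS]
            have := stageOf_append (A.map (g false)) (by
              intro i hi
              obtain ⟨e, he, rfl⟩ := List.mem_map.1 hi
              rfl) (g true e0) rfl I'
            simpa using this
          simp only [dec]
          rw [if_neg hI, if_neg hnk', hst]
          simp only
          rw [hents, hupd]
          congr 1
          apply a6
          · intro e he
            unfold zero
            split_ifs with h3
            · exact (hModT e h3).1.symm
            · exact h1 e (by rw [List.mem_append]; push Not; exact ⟨h3, he⟩)
          · intro e he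
            unfold zero
            rw [if_neg (fun h => hdisj e h he)]
            exact h2 e (List.mem_append.2 (Or.inr he))

end Pool.Agent.Lib.Pa76659.Switch
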